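import Mathlib
import Pool.Agent.R773.HN.Fin3

/-!
# Small index property, part 5: fragmentation with control of the partial products

The argument is that of `Pool.Agent.R773.HN.frag1` and `Pool.Agent.R773.HN.frag`, with a record of
the partial products.
-/

set_option autoImplicit false

open Set Filter Topology Function
open Pool.Agent.Y453.HB
open Pool.Agent.R773.HN
open scoped commutatorElement

namespace Pool.Agent.D0H34.SI

variable {n : ℕ}

/-- Hamiltonian diffeomorphisms supported in `K` and in a ball of radius at most `ε` -/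
def Sml (K : Set (E n)) (ε : ℝ) (v : E n ≃ₜ E n) : Prop :=
  IsHam v ∧ Supp K v ∧ ∃ (q : E n) (ρ : ℝ), 0 < ρ ∧ ρ ≤ ε ∧ Supp (D q ρ) v

theorem XH_off {H : ℝ → E n → ℝ} {K : Set (E n)} (hH : HamOn H K) {x : E n} (hx : x ∉ K) (τ : ℝ) :
    XH (H τ) x = 0 :=
  Bd.G_zero hH.2.1 hH.2.2.2 (τ, x) hx

/-- flows fix the points off the support -/
theorem isFl_supp {H : ℝ → E n → ℝ} {K : Set (E n)} (hH : HamOn H K) {s t : ℝ} (hs : 0 ≤ s)
    (hst : s ≤ t) (ht : t ≤ 1) {u : E n ≃ₜ E n} (hu : IsFl H s t u) : Supp K u := by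
  intro x hx
  obtain ⟨γ, h1, h2, h3⟩ := hu x
  rw [← h2]
  refine uni2 bd n H K hH s t hs hst ht γ (fun _ => x) h1 h3 (fun τ _ => ?_) t ⟨hst, le_rfl⟩
  rw [XH_off hH hx]
  exact hasDerivAt_const τ x

/-- displacement -/
theorem isFl_disp {H : ℝ → E n → ℝ} {C : ℝ} (hC : ∀ t ∈ Icc (0 : ℝ) 1, ∀ x, ‖XH (H t) x‖ ≤ C)
    {s t : ℝ} (hs : 0 ≤ s) (hst : s ≤ t) (ht : t ≤ 1) {u : E n ≃ₜ E n} (hu : IsFl H s t u)
    (x : E n) : ‖u x - x‖ ≤ C * (t - s) := by
  obtain ⟨γ, h1, h2, h3⟩ := hu x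
  have h4 : ∀ τ ∈ Icc s t, ‖γ τ - γ s‖ ≤ C * (τ - s) := by
    refine norm_image_sub_le_of_norm_deriv_le_segment'
      (f' := fun τ => XH (H τ) (γ τ)) (fun τ hτ => (h3 τ hτ).hasDerivWithinAt) ?_
    intro τ hτ
    exact hC τ ⟨hs.trans hτ.1, hτ.2.le.trans ht⟩ _
  have h5 := h4 t ⟨hst, le_rfl⟩
  rwa [h1, h2] at h5

/-- flows are Lipschitz -/
theorem isFl_lip {H : ℝ → E n → ℝ} {C : ℝ} (hC0 : 0 ≤ C)
    (hC : ∀ t ∈ Icc (0 : ℝ) 1, ∀ x y, ‖XH (H t) x - XH (H t) y‖ ≤ C * ‖x - y‖)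
    {s t : ℝ} (hs : 0 ≤ s) (hst : s ≤ t) (ht : t ≤ 1) {u : E n ≃ₜ E n} (hu : IsFl H s t u)
    (x y : E n) : ‖u x - u y‖ ≤ Real.exp C * ‖x - y‖ := by
  obtain ⟨γ, h1, h2, h3⟩ := hu x
  obtain ⟨γ', h1', h2', h3'⟩ := hu y
  have hLip : ∀ τ ∈ Ico s t, LipschitzOnWith (Real.toNNReal C) (XH (H τ)) univ := by
    intro τ hτ
    refine LipschitzOnWith.of_dist_le_mul fun x _ y _ => ?_
    rw [dist_eq_norm, dist_eq_norm, Real.coe_toNNReal C hC0]
    exact hC τ ⟨hs.trans hτ.1, hτ.2.le.trans ht⟩ x y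
  have h4 := dist_le_of_trajectories_ODE_of_mem (v := fun τ => XH (H τ)) (s := fun _ => univ) hLip
    (fun τ hτ => (h3 τ hτ).continuousAt.continuousWithinAt)
    (fun τ hτ => (h3 τ ⟨hτ.1, hτ.2.le⟩).hasDerivWithinAt) (fun _ _ => mem_univ _)
    (fun τ hτ => (h3' τ hτ).continuousAt.continuousWithinAt)
    (fun τ hτ => (h3' τ ⟨hτ.1, hτ.2.le⟩).hasDerivWithinAt) (fun _ _ => mem_univ _)
    (le_refl (dist (γ s) (γ' s))) t ⟨hst, le_rfl⟩
  rw [h1, h2, h1', h2', dist_eq_norm, dist_eq_norm, Real.coe_toNNReal C hC0] at h4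
  refine h4.trans ?_
  rw [mul_comm]
  refine mul_le_mul_of_nonneg_right (Real.exp_le_exp.2 ?_) (norm_nonneg _)
  have h5 : t - s ≤ 1 := by linarith
  calc C * (t - s) ≤ C * 1 := mul_le_mul_of_nonneg_left h5 hC0
    _ = C := mul_one C

/-- composition of flows -/
theorem isFl_comp {H : ℝ → E n → ℝ} {K : Set (E n)} (hH : HamOn H K) {s t r : ℝ} (hs : 0 ≤ s)
    (hst : s ≤ t) (htr : t ≤ r) (hr : r ≤ 1) {u v w : E n ≃ₜ E n} (hu : IsFl H s t u)
    (hv : IsFl H t r v) (hw : IsFl H s r w) : v * u = w := by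
  ext x : 1
  obtain ⟨γ, h1, h2, h3⟩ := hw x
  obtain ⟨γ1, a1, a2, a3⟩ := hu x
  obtain ⟨γ2, b1, b2, b3⟩ := hv (u x)
  have e1 : γ1 t = γ t := uni2 bd n H K hH s t hs hst (htr.trans hr) γ1 γ (a1.trans h1.symm) a3
    (fun τ hτ => h3 τ ⟨hτ.1, hτ.2.trans htr⟩) t ⟨hst, le_rfl⟩
  have e2 : γ2 r = γ r := uni2 bd n H K hH t r (hs.trans hst) htr hr γ2 γ
    (by rw [b1, ← a2, e1]) b3 (fun τ hτ => h3 τ ⟨hst.trans hτ.1, hτ.2⟩) r ⟨htr, le_rfl⟩
  rw [mul_apply, ← b2, e2, h2]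

/-- short time maps -/
theorem slice {H : ℝ → E n → ℝ} {K : Set (E n)} (hH : HamOn H K) {ε : ℝ} (hε : 0 < ε)
    (hε1 : ε < 1) : ∃ δ > 0, ∀ s t : ℝ, 0 ≤ s → s ≤ t → t ≤ 1 → t - s ≤ δ →
    ∀ u : E n ≃ₜ E n, IsFl H s t u → ∃ l : List (E n ≃ₜ E n), l.prod = u ∧ (∀ v ∈ l, Sml K ε v) ∧
      ∀ l', l' <+: l → ∀ x, ‖l'.prod x - x‖ ≤ ε := by
  obtain ⟨hHs, hK, hKQ, hH0⟩ := hH
  obtain ⟨N, q, χ, hq, hχs, hχ0, hχ1⟩ := cover n K hK hKQ (ε / 2) (half_pos hε) (by linarith)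
  -- the partial sums
  let Hk : ℕ → ℝ → E n → ℝ := fun k t x =>
    (∑ i ∈ Finset.univ.filter (fun i : Fin N => (i : ℕ) < k), χ i x) * H t x
  have hk : ∀ k, HamOn (Hk k) K := by
    intro k
    refine ⟨?_, hK, hKQ, fun t x hx => ?_⟩
    · show ContDiff ℝ ((⊤ : ℕ∞) : WithTop ℕ∞) (fun p : ℝ × E n =>
        (∑ i ∈ Finset.univ.filter (fun i : Fin N => (i : ℕ) < k), χ i p.2) * uncurry H p)
      exact (ContDiff.sum fun i _ => (hχs i).comp contDiff_snd).mul hHs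
    · show _ * H t x = 0
      rw [hH0 t x hx, mul_zero]
  have hkN : Hk N = H := by
    funext t x
    show (∑ i ∈ Finset.univ.filter (fun i : Fin N => (i : ℕ) < N), χ i x) * H t x = H t x
    by_cases hx : x ∈ K
    · rw [Finset.filter_true_of_mem fun i _ => i.2, hχ1 x hx, one_mul]
    · rw [hH0 t x hx, mul_zero]
  have hk0 : Hk 0 = fun _ _ => 0 := by
    funext t x
    show (∑ i ∈ Finset.univ.filter (fun i : Fin N => (i : ℕ) < 0), χ i x) * H t x = 0
    simp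
  -- the bound
  choose C hC0 hCb _ using fun k => bd n (Hk k) (hk k).1 K hK (hk k).2.2.2
  let M : ℝ := ∑ k ∈ Finset.range (N + 1), C k
  have hM : ∀ k ≤ N, C k ≤ M := fun k hkN =>
    Finset.single_le_sum (f := C) (fun i _ => hC0 i) (Finset.mem_range.2 (by omega))
  have hM0 : 0 ≤ M := Finset.sum_nonneg fun i _ => hC0 i
  set η : ℝ := ε / 2 with hη
  have hη0 : 0 < η := half_pos hε
  have hn : (0 : ℝ) < 2 * (n : ℝ) + 1 := by positivity
  refine ⟨η / ((2 * (n : ℝ) + 1) * (M + 1)), by positivity, ?_⟩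
  intro s t hs hst ht hδ u hu
  have hd : ∀ k ≤ N, (2 * (n : ℝ) + 1) * (C k * (t - s)) ≤ η := by
    intro k hkN
    have h1 : C k * (t - s) ≤ (M + 1) * (η / ((2 * (n : ℝ) + 1) * (M + 1))) :=
      mul_le_mul (by linarith [hM k hkN]) hδ (by linarith) (by linarith)
    refine (mul_le_mul_of_nonneg_left h1 hn.le).trans (le_of_eq ?_)
    have h2 : M + 1 ≠ 0 := by positivity
    field_simp
  have hd1 : ∀ k ≤ N, C k * (t - s) ≤ ε := by
    intro k hkN
    have h1 := hd k hkN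
    have h2 : 0 ≤ C k * (t - s) := mul_nonneg (hC0 k) (by linarith)
    have h3 : (1 : ℝ) ≤ 2 * (n : ℝ) + 1 := by
      have : (0 : ℝ) ≤ n := Nat.cast_nonneg n
      linarith
    nlinarith
  choose U hUh hUf using fun k => tflow n (Hk k) K (hk k) s t hs hst ht
  have hUK : ∀ k, Supp K (U k) := fun k => isFl_supp (hk k) hs hst ht (hUf k)
  have hU0 : U 0 = 1 := by
    refine F1.isFl_unique (uni2 bd) (hk 0) hs hst ht (hUf 0) fun x =>
      ⟨fun _ => x, rfl, rfl, fun τ _ => ?_⟩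
    rw [hk0, Pool.Agent.Y510.HB.XH_zero]
    exact hasDerivAt_const τ x
  have hUN : U N = u := by
    refine F1.isFl_unique (uni2 bd) (hk N) hs hst ht (hUf N) ?_
    rw [hkN]
    exact hu
  have key : ∀ k ≤ N, ∃ l : List (E n ≃ₜ E n), l.prod = U k ∧ (∀ v ∈ l, Sml K ε v) ∧
      ∀ l', l' <+: l → ∃ j ≤ N, l'.prod = U j := by
    intro k
    induction k with
    | zero =>
      intro _
      refine ⟨[], by rw [hU0]; rfl, by simp, fun l' hl' => ⟨0, Nat.zero_le _, ?_⟩⟩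
      rw [List.prefix_nil.1 hl', hU0]
      rfl
    | succ k ih =>
      intro hkN'
      obtain ⟨l, hl1, hl2, hl3⟩ := ih (by omega)
      have h1 : U (k + 1) = U k * ((U k)⁻¹ * U (k + 1)) := by group
      have hkl : k < N := by omega
      refine ⟨l ++ [(U k)⁻¹ * U (k + 1)], ?_, ?_, ?_⟩
      · rw [List.prod_append, List.prod_singleton, hl1, ← h1]
      · intro v hv
        rw [List.mem_append, List.mem_singleton] at hv
        rcases hv with hv | rfl
        · exact hl2 v hv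
        refine ⟨Pool.Agent.Y907.HB.mul n _ _ ((Pool.Agent.Y510.HB.inv n).2 _ (hUh k)) (hUh (k + 1)),
          (hUK k).inv.mul (hUK (k + 1)), q ⟨k, hkl⟩, ε / 2 + η, by positivity, by linarith, ?_⟩
        intro x hx
        have h2 : U (k + 1) x = U k x := by
          refine F1.agree (uni2 bd) (hk (k + 1)) (hCb k) (q := q ⟨k, hkl⟩) (r := ε / 2) (η := η) ?_
            hs hst ht (hd k (by omega)) (hUf k) (hUf (k + 1)) hx
          intro τ y hy
          show (∑ i ∈ Finset.univ.filter (fun i : Fin N => (i : ℕ) < k), χ i y) * H τ y =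
            (∑ i ∈ Finset.univ.filter (fun i : Fin N => (i : ℕ) < k + 1), χ i y) * H τ y
          congr 1
          rw [Finset.sum_filter, Finset.sum_filter]
          refine Finset.sum_congr rfl fun i _ => ?_
          by_cases h3 : (i : ℕ) < k
          · rw [if_pos h3, if_pos (by omega)]
          · rw [if_neg h3]
            by_cases h4 : (i : ℕ) < k + 1
            · rw [if_pos h4]
              have h5 : i = ⟨k, hkl⟩ := Fin.ext (by show (i : ℕ) = k; omega)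
              rw [h5]
              exact (hχ0 _ y hy).symm
            · rw [if_neg h4]
        show (U k)⁻¹ (U (k + 1) x) = x
        rw [h2]
        exact inv_apply_self _ _
      · intro l' hl'
        rcases List.prefix_concat_iff.1 hl' with h | h
        · refine ⟨k + 1, hkN', ?_⟩
          rw [h, List.prod_append, List.prod_singleton, hl1, ← h1]
        · exact hl3 l' h
  obtain ⟨l, hl1, hl2, hl3⟩ := key N le_rfl
  refine ⟨l, hl1.trans hUN, hl2, fun l' hl' x => ?_⟩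
  obtain ⟨j, hj, e⟩ := hl3 l' hl'
  rw [e]
  exact (isFl_disp (hCb j) hs hst ht (hUf j) x).trans (hd1 j hj)

/-- **Fragmentation with control of the partial products.** -/
theorem cfrag {φ : E n ≃ₜ E n} (hφ : IsHam φ) :
    ∃ (K : Set (E n)) (L : ℝ), IsCompact K ∧ K ⊆ {p : E n | Q p < 1} ∧ 0 < L ∧
      ∀ ε : ℝ, 0 < ε → ε < 1 → ∃ l : List (E n ≃ₜ E n), l.prod = φ ∧ (∀ v ∈ l, Sml K ε v) ∧
        ∀ l', l' <+: l → ∀ x y, ‖l'.prod x - l'.prod y‖ ≤ L * (‖x - y‖ + ε) := by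
  obtain ⟨H, hHs, ⟨K, hKc, hK1, hK0⟩, ψ, hψ0, hψ, hu1⟩ := hφ
  have hH : HamOn H K := ⟨hHs, hKc, hK1, fun t x hx => hK0 t x hx⟩
  obtain ⟨C, hC0, hCb, hCL, -⟩ := bd n H hHs K hKc hH.2.2.2
  have hexp : 1 ≤ Real.exp C := Real.one_le_exp hC0
  refine ⟨K, 2 * Real.exp C, hKc, hK1, by positivity, fun ε hε hε1 => ?_⟩
  obtain ⟨δ, hδ, hfr⟩ := slice hH hε hε1
  obtain ⟨m, hm⟩ := exists_nat_gt (1 / δ)
  have hm0 : (0 : ℝ) < m := lt_trans (by positivity) hm
  have hmδ : 1 / (m : ℝ) ≤ δ := by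
    rw [div_le_iff₀ hm0]
    rw [div_lt_iff₀ hδ] at hm
    linarith
  have key : ∀ k : ℕ, k ≤ m → ∀ Φ : E n ≃ₜ E n, IsFl H (1 - (k : ℝ) / m) 1 Φ →
      ∃ l : List (E n ≃ₜ E n), l.prod = Φ ∧ (∀ v ∈ l, Sml K ε v) ∧
        ∀ l', l' <+: l → ∀ x y, ‖l'.prod x - l'.prod y‖ ≤ 2 * Real.exp C * (‖x - y‖ + ε) := by
    intro k
    induction k with
    | zero =>
      intro _ Φ hΦ
      have e : Φ = 1 := by
        ext x : 1
        obtain ⟨γ, h1, h2, -⟩ := hΦ x
        rw [Nat.cast_zero, zero_div, sub_zero] at h1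
        rw [← h2, h1]
        rfl
      refine ⟨[], by rw [e]; rfl, by simp, fun l' hl' x y => ?_⟩
      rw [List.prefix_nil.1 hl']
      show ‖x - y‖ ≤ _
      have := norm_nonneg (x - y)
      nlinarith
    | succ k ih =>
      intro hk Φ hΦ
      have hk' : (k : ℝ) / m ≤ 1 := by
        rw [div_le_one hm0]
        exact_mod_cast (by omega : k ≤ m)
      have hk'' : ((k + 1 : ℕ) : ℝ) / m ≤ 1 := by
        rw [div_le_one hm0]
        exact_mod_cast hk
      have hstep : ((k + 1 : ℕ) : ℝ) / m = (k : ℝ) / m + 1 / m := by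
        push_cast; ring
      have hkp : (0 : ℝ) ≤ (k : ℝ) / m := by positivity
      have hmp : (0 : ℝ) ≤ 1 / (m : ℝ) := by positivity
      have ht0 : (0 : ℝ) ≤ 1 - (k : ℝ) / m := by linarith
      have ht1 : 1 - (k : ℝ) / m ≤ 1 := by linarith
      obtain ⟨Ψ, -, hΨ⟩ := tflow n H K hH (1 - (k : ℝ) / m) 1 ht0 ht1 le_rfl
      obtain ⟨u, -, hu⟩ := tflow n H K hH (1 - ((k + 1 : ℕ) : ℝ) / m) (1 - (k : ℝ) / m)
        (by linarith) (by linarith) ht1
      have e : Ψ * u = Φ := isFl_comp hH (by linarith) (by linarith) ht1 le_rfl hu hΨ hΦ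
      obtain ⟨l, hl1, hl2, hl3⟩ := ih (by omega) Ψ hΨ
      obtain ⟨l2, h21, h22, h23⟩ := hfr _ _ (by linarith) (by linarith) ht1 (by linarith) u hu
      refine ⟨l ++ l2, by rw [List.prod_append, hl1, h21, e], ?_, ?_⟩
      · intro v hv
        rcases List.mem_append.1 hv with hv | hv
        · exact hl2 v hv
        · exact h22 v hv
      · intro l' hl' x y
        rcases List.prefix_or_prefix_of_prefix hl' (List.prefix_append l l2) with h | ⟨t, rfl⟩
        · exact hl3 l' h x y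
        · rw [List.prefix_append_right_inj] at hl'
          rw [List.prod_append, hl1, mul_apply, mul_apply]
          refine (isFl_lip hC0 hCL ht0 ht1 le_rfl hΨ _ _).trans ?_
          have h1 := h23 t hl' x
          have h2 := h23 t hl' y
          have h3 : t.prod x - t.prod y = (t.prod x - x) + (x - y) - (t.prod y - y) := by abel
          have h4 : ‖t.prod x - t.prod y‖ ≤ ‖t.prod x - x‖ + ‖x - y‖ + ‖t.prod y - y‖ := by
            rw [h3]
            exact (norm_sub_le _ _).trans (by gcongr; exact norm_add_le _ _)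
          have h5 := norm_nonneg (x - y)
          have h6 : ‖t.prod x - t.prod y‖ ≤ 2 * (‖x - y‖ + ε) := by linarith
          calc Real.exp C * ‖t.prod x - t.prod y‖ ≤ Real.exp C * (2 * (‖x - y‖ + ε)) :=
                mul_le_mul_of_nonneg_left h6 (Real.exp_pos C).le
            _ = 2 * Real.exp C * (‖x - y‖ + ε) := by ring
  have hφ1 : IsFl H (1 - (m : ℝ) / m) 1 φ := by
    rw [div_self hm0.ne', sub_self]
    intro x
    exact ⟨fun s => ψ s x, hψ0 x, (hu1 x).symm, fun τ _ => hψ τ x⟩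
  exact key m le_rfl φ hφ1

/-! ## Commutators of products -/

section Group

variable {G : Type*} [Group G]

theorem comm_left (T : Subgroup G) (c z : G) (l : List G)
    (h : ∀ l' v, (l' ++ [v]) <+: l → c * (l'.prod * ⁅v, z⁆ * l'.prod⁻¹) * c⁻¹ ∈ T) :
    c * ⁅l.prod, z⁆ * c⁻¹ ∈ T := by
  induction l using List.reverseRecOn with
  | nil => simp
  | append_singleton l v ih =>
    have h1 := ih fun l' w hl => h l' w (hl.trans (List.prefix_append l [v]))
    have h2 := h l v (List.prefix_refl _)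
    have e : c * ⁅(l ++ [v]).prod, z⁆ * c⁻¹ =
        (c * (l.prod * ⁅v, z⁆ * l.prod⁻¹) * c⁻¹) * (c * ⁅l.prod, z⁆ * c⁻¹) := by
      rw [List.prod_append, List.prod_singleton]
      simp only [commutatorElement_def]
      group
    rw [e]
    exact T.mul_mem h2 h1

theorem comm_right (T : Subgroup G) (c v : G) (l : List G)
    (h : ∀ l' w, (l' ++ [w]) <+: l → c * (l'.prod * ⁅v, w⁆ * l'.prod⁻¹) * c⁻¹ ∈ T) :
    c * ⁅v, l.prod⁆ * c⁻¹ ∈ T := by
  induction l using List.reverseRecOn with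
  | nil => simp
  | append_singleton l w ih =>
    have h1 := ih fun l' w hl => h l' w (hl.trans (List.prefix_append l _))
    have h2 := h l w (List.prefix_refl _)
    have e : c * ⁅v, (l ++ [w]).prod⁆ * c⁻¹ =
        (c * ⁅v, l.prod⁆ * c⁻¹) * (c * (l.prod * ⁅v, w⁆ * l.prod⁻¹) * c⁻¹) := by
      rw [List.prod_append, List.prod_singleton]
      simp only [commutatorElement_def]
      group
    rw [e]
    exact T.mul_mem h1 h2

theorem comm_lists (T : Subgroup G) (g : G) (l m : List G)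
    (h : ∀ l' v m' w, (l' ++ [v]) <+: l → (m' ++ [w]) <+: m →
      (g * l'.prod * m'.prod) * ⁅v, w⁆ * (g * l'.prod * m'.prod)⁻¹ ∈ T) :
    g * ⁅l.prod, m.prod⁆ * g⁻¹ ∈ T := by
  refine comm_left T g _ l fun l' v hl => ?_
  have e : g * (l'.prod * ⁅v, m.prod⁆ * l'.prod⁻¹) * g⁻¹ =
      (g * l'.prod) * ⁅v, m.prod⁆ * (g * l'.prod)⁻¹ := by group
  rw [e]
  refine comm_right T _ v m fun m' w hm => ?_
  have h1 := h l' v m' w hl hm
  have e2 : (g * l'.prod) * (m'.prod * ⁅v, w⁆ * m'.prod⁻¹) * (g * l'.prod)⁻¹ =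
      (g * l'.prod * m'.prod) * ⁅v, w⁆ * (g * l'.prod * m'.prod)⁻¹ := by group
  rw [e2]
  exact h1

end Group

end Pool.Agent.D0H34.SI
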