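import Mathlib
import Pool.Agent.N235.DH.Fin
import Pool.Agent.R773.HN.Fin3

/-!
# Small index property, part 1: infinite products in disjoint balls
-/

set_option autoImplicit false

open Set Filter Topology Function
open Pool.Agent.Y453.HB
open Pool.Agent.R773.HN
open Pool.Agent.N235.DH
open scoped commutatorElement

namespace Pool.Agent.D0H34.SI

variable {n : ℕ}

/-- `h` preserves `A` and agrees with `f` there -/
structure Loc (A : Set (E n)) (h f : E n ≃ₜ E n) : Prop where
  eq : ∀ z ∈ A, h z = f z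
  maps : ∀ z ∈ A, h z ∈ A
  inv : ∀ z ∈ A, h⁻¹ z ∈ A

theorem Loc.inv_eq {A : Set (E n)} {h f : E n ≃ₜ E n} (H : Loc A h f) : ∀ z ∈ A, h⁻¹ z = f⁻¹ z := by
  intro z hz
  apply f.injective
  rw [apply_inv_self, ← H.eq _ (H.inv z hz), apply_inv_self]

theorem Loc.self {A : Set (E n)} {f : E n ≃ₜ E n} (hf : Supp A f) : Loc A f f :=
  ⟨fun _ _ => rfl, fun _ hz => hf.maps hz, fun _ hz => hf.inv.maps hz⟩

theorem Loc.one {A : Set (E n)} : Loc A (1 : E n ≃ₜ E n) 1 :=
  ⟨fun _ _ => rfl, fun _ hz => hz, fun _ hz => hz⟩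

theorem Loc.mul {A : Set (E n)} {h f h' f' : E n ≃ₜ E n} (H : Loc A h f) (H' : Loc A h' f') :
    Loc A (h * h') (f * f') := by
  refine ⟨fun z hz => ?_, fun z hz => ?_, fun z hz => ?_⟩
  · rw [mul_apply, mul_apply, ← H'.eq z hz, H.eq _ (H'.maps z hz)]
  · rw [mul_apply]; exact H.maps _ (H'.maps z hz)
  · rw [mul_inv_rev, mul_apply]; exact H'.inv _ (H.inv z hz)

theorem Loc.symm {A : Set (E n)} {h f : E n ≃ₜ E n} (H : Loc A h f) : Loc A h⁻¹ f⁻¹ :=
  ⟨H.inv_eq, H.inv, fun z hz => by rw [inv_inv]; exact H.maps z hz⟩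

theorem Loc.comm {A : Set (E n)} {h f h' f' : E n ≃ₜ E n} (H : Loc A h f) (H' : Loc A h' f') :
    Loc A ⁅h, h'⁆ ⁅f, f'⁆ := ((H.mul H').mul H.symm).mul H'.symm

/-- conjugation only sees the restriction -/
theorem Loc.conj {A : Set (E n)} {h f y : E n ≃ₜ E n} (H : Loc A h f) (hy : Supp A y) :
    h * y * h⁻¹ = f * y * f⁻¹ := by
  ext z : 1
  rw [mul_apply, mul_apply, mul_apply, mul_apply]
  by_cases hz : z ∈ A
  · rw [← H.inv_eq z hz, H.eq _ (hy.maps (H.inv z hz))]
  · have h1 : h⁻¹ z ∉ A := fun h' => hz (by have := H.maps _ h'; rwa [apply_inv_self] at this)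
    have h2 : f⁻¹ z ∉ A := fun h' => by
      have h3 := H.maps _ h'
      rw [H.eq _ h', apply_inv_self] at h3
      exact hz h3
    rw [hy _ h1, hy _ h2, apply_inv_self, apply_inv_self]

theorem norm_le_of_D {q x y : E n} {r : ℝ} (hx : x ∈ D q r) (hy : y ∈ D q r) :
    dist x y ≤ 2 * r := by
  have h1 := D_sub_ball q r hx
  have h2 := D_sub_ball q r hy
  rw [Metric.mem_closedBall] at h1 h2
  have := dist_triangle_right x y q
  linarith

/-- **Infinite products.** -/
theorem infprod {K : Set (E n)} (hK : IsCompact K) (q : ℕ → E n) (r : ℕ → ℝ)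
    (hD : ∀ i, D (q i) (r i) ⊆ K) (hr : ∀ i, r i ≤ (1 / 2) ^ (i + 1))
    (hdis : ∀ i j, i ≠ j → Disjoint (D (q i) (r i)) (D (q j) (r j)))
    (f : ℕ → (E n ≃ₜ E n)) (hf : ∀ i, f i ∈ HK n K) (hs : ∀ i, Supp (D (q i) (r i)) (f i)) :
    ∃ P ∈ HK n K, (∀ i, Loc (D (q i) (r i)) P (f i)) ∧ Supp (⋃ i, D (q i) (r i)) P := by
  set w : ℕ → (E n ≃ₜ E n) := fun m => Nat.rec 1 (fun m g => g * f m) m with hw
  have hw0 : w 0 = 1 := rfl
  have hws : ∀ m, w (m + 1) = w m * f m := fun m => rfl
  -- the partial products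
  have hwK : ∀ m, w m ∈ HK n K := by
    intro m
    induction m with
    | zero => exact HK_one K
    | succ m ih => rw [hws]; exact HK_mul hK ih (hf m)
  have hwid : ∀ m x, (∀ i < m, x ∉ D (q i) (r i)) → w m x = x := by
    intro m
    induction m with
    | zero => intro x _; rfl
    | succ m ih =>
      intro x hx
      rw [hws, mul_apply, hs m x (hx m (by omega))]
      exact ih x fun i hi => hx i (by omega)
  have hwi : ∀ m i, i < m → Loc (D (q i) (r i)) (w m) (f i) := by
    intro m
    induction m with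
    | zero => intro i hi; omega
    | succ m ih =>
      intro i hi
      rw [hws]
      rcases Nat.lt_succ_iff_lt_or_eq.1 hi with h | h
      · have h1 : Loc (D (q i) (r i)) (f m) 1 := by
          have hne : i ≠ m := by omega
          have h2 : ∀ z ∈ D (q i) (r i), z ∉ D (q m) (r m) := fun z hz =>
            Set.disjoint_left.1 (hdis i m hne) hz
          refine ⟨fun z hz => hs m z (h2 z hz), fun z hz => by rw [hs m z (h2 z hz)]; exact hz,
            fun z hz => by rw [(hs m).inv z (h2 z hz)]; exact hz⟩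
        have h3 := (ih i h).mul h1
        rwa [mul_one] at h3
      · subst h
        have h1 : Loc (D (q i) (r i)) (w i) 1 := by
          have h2 : ∀ z ∈ D (q i) (r i), ∀ j < i, z ∉ D (q j) (r j) := fun z hz j hj =>
            Set.disjoint_left.1 (hdis i j (by omega)) hz
          refine ⟨fun z hz => hwid i z (h2 z hz), fun z hz => by
            rw [hwid i z (h2 z hz)]; exact hz, fun z hz => ?_⟩
          have h3 := inv_apply_self (w i) z
          rw [hwid i z (h2 z hz)] at h3
          rw [h3]; exact hz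
        have h3 := h1.mul (Loc.self (hs i))
        rwa [one_mul] at h3
  -- closeness
  have hstep : ∀ m x, dist (w (m + 1) x) (w m x) ≤ (1 / 2) ^ m := by
    intro m x
    by_cases hx : x ∈ D (q m) (r m)
    · have h1 := (hwi (m + 1) m (by omega)).maps x hx
      have h2 : w m x = x := hwid m x fun j hj =>
        Set.disjoint_left.1 (hdis m j (by omega)) hx
      rw [h2]
      refine (norm_le_of_D h1 hx).trans ?_
      have h3 := hr m
      calc 2 * r m ≤ 2 * (1 / 2) ^ (m + 1) := by linarith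
        _ = (1 / 2) ^ m := by rw [pow_succ]; ring
    · rw [hws, mul_apply, hs m x hx, dist_self]
      positivity
  have hstep' : ∀ m x, dist ((w (m + 1))⁻¹ x) ((w m)⁻¹ x) ≤ (1 / 2) ^ m := by
    intro m x
    by_cases hx : x ∈ D (q m) (r m)
    · have h1 := (hwi (m + 1) m (by omega)).inv x hx
      have h2 : w m x = x := hwid m x fun j hj =>
        Set.disjoint_left.1 (hdis m j (by omega)) hx
      have h2' : (w m)⁻¹ x = x := by
        have := inv_apply_self (w m) x
        rwa [h2] at this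
      rw [h2']
      refine (norm_le_of_D h1 hx).trans ?_
      have h3 := hr m
      calc 2 * r m ≤ 2 * (1 / 2) ^ (m + 1) := by linarith
        _ = (1 / 2) ^ m := by rw [pow_succ]; ring
    · -- `w m` preserves the complement of the ball `m`
      have h1 : (w m)⁻¹ x ∉ D (q m) (r m) := by
        intro h'
        have h2 : w m ((w m)⁻¹ x) = (w m)⁻¹ x := hwid m _ fun j hj =>
          Set.disjoint_left.1 (hdis m j (by omega)) h'
        rw [apply_inv_self] at h2
        rw [← h2] at h'
        exact hx h'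
      have h3 : (w (m + 1))⁻¹ x = (w m)⁻¹ x := by
        rw [hws, mul_inv_rev, mul_apply, (hs m).inv _ h1]
      rw [h3, dist_self]
      positivity
  obtain ⟨P, hP1, hP2⟩ := exists_limit hK w (fun m => (hwK m).1) 0 (fun m _ => hstep m)
    (fun m _ => hstep' m)
  have hPK : P ∈ HK n K := HK_closed hwK hP1 hP2.1
  have hlim : ∀ x, Tendsto (fun m => w m x) atTop (𝓝 (P x)) := fun x => hP2.1.tendsto_at x
  have hlim' : ∀ x, Tendsto (fun m => (w m)⁻¹ x) atTop (𝓝 (P⁻¹ x)) := fun x =>
    (Pool.Agent.Y309.HB.uc_inv hP2).1.tendsto_at x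
  refine ⟨P, hPK, fun i => ?_, fun x hx => ?_⟩
  · have e1 : ∀ z ∈ D (q i) (r i), P z = f i z := by
      intro z hz
      refine tendsto_nhds_unique_of_eventuallyEq (hlim z) tendsto_const_nhds ?_
      filter_upwards [eventually_gt_atTop i] with m hm
      exact (hwi m i hm).eq z hz
    have e2 : ∀ z ∈ D (q i) (r i), P⁻¹ z = (f i)⁻¹ z := by
      intro z hz
      refine tendsto_nhds_unique_of_eventuallyEq (hlim' z) tendsto_const_nhds ?_
      filter_upwards [eventually_gt_atTop i] with m hm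
      exact (hwi m i hm).inv_eq z hz
    refine ⟨e1, fun z hz => ?_, fun z hz => ?_⟩
    · rw [e1 z hz]; exact (hs i).maps hz
    · rw [e2 z hz]; exact (hs i).inv.maps hz
  · have h1 : ∀ i, x ∉ D (q i) (r i) := fun i hi => hx (mem_iUnion.2 ⟨i, hi⟩)
    refine tendsto_nhds_unique_of_eventuallyEq (hlim x) tendsto_const_nhds ?_
    exact Eventually.of_forall fun m => hwid m x fun i _ => h1 i

end Pool.Agent.D0H34.SI
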