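import Mathlib
import Pool.Agent.D0H34.SI.Ip

/-!
# Small index property, part 2: subgroups normalised by commutators
-/

set_option autoImplicit false

open Set Filter Topology Function
open Pool.Agent.Y453.HB
open Pool.Agent.R773.HN
open Pool.Agent.N235.DH
open scoped commutatorElement

namespace Pool.Agent.D0H34.SI

variable {n : ℕ}

/-- the group of the Hamiltonian diffeomorphisms -/
def HamC (n : ℕ) : Subgroup (E n ≃ₜ E n) where
  carrier := {u | IsHam u}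
  one_mem' := (Pool.Agent.Y510.HB.inv n).1
  mul_mem' := fun ha hb => Pool.Agent.Y907.HB.mul n _ _ ha hb
  inv_mem' := fun ha => (Pool.Agent.Y510.HB.inv n).2 _ ha

theorem mem_HamC {u : E n ≃ₜ E n} : u ∈ HamC n ↔ IsHam u := Iff.rfl

theorem midC : Mid (HamC n) := ⟨fun _ hu => hu, fun _ hu => isHam_mem hu⟩

theorem midB : Mid (HamBar n) := ⟨fun _ hu => isHam_mem hu, le_rfl⟩

/-- commutator trick with two auxiliary elements -/
theorem twist {A : Set (E n)} {v w κ κ' : E n ≃ₜ E n} (hv : Supp A v) (hw : Supp A w)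
    (h1 : Disjoint (κ '' A) A) (h2 : Disjoint (κ' '' A) A) (h3 : Disjoint (κ '' A) (κ' '' A)) :
    ⁅⁅v, κ⁆, ⁅w, κ'⁆⁆ = ⁅v, w⁆ := by
  set b := κ * v⁻¹ * κ⁻¹ with hb
  set d := κ' * w⁻¹ * κ'⁻¹ with hd
  have sb : Supp (κ '' A) b := hv.inv.conj κ
  have sd : Supp (κ' '' A) d := hw.inv.conj κ'
  have e1 : ⁅v, κ⁆ = v * b := by rw [commutatorElement_def, hb]; group
  have e2 : ⁅w, κ'⁆ = w * d := by rw [commutatorElement_def, hd]; group
  have c1 : b * w = w * b := sb.commute h1 hw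
  have c2 : b * d = d * b := sb.commute h3 sd
  have c3 : d * v = v * d := sd.commute h2 hv
  have c4 : d * w⁻¹ = w⁻¹ * d := sd.commute h2 hw.inv
  have c5 : d * v⁻¹ = v⁻¹ * d := sd.commute h2 hv.inv
  rw [e1, e2, commutatorElement_def, commutatorElement_def, mul_inv_rev, mul_inv_rev]
  calc v * b * (w * d) * (b⁻¹ * v⁻¹) * (d⁻¹ * w⁻¹)
      = v * (b * w) * d * b⁻¹ * v⁻¹ * d⁻¹ * w⁻¹ := by group
    _ = v * w * (b * d) * b⁻¹ * v⁻¹ * d⁻¹ * w⁻¹ := by rw [c1]; group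
    _ = v * w * (d * v⁻¹) * d⁻¹ * w⁻¹ := by rw [c2]; group
    _ = v * w * v⁻¹ * w⁻¹ := by rw [c5]; group

theorem D_disj {p w w' : E n} {ε : ℝ} (h : 2 * ε < nm (w - w')) :
    Disjoint (D (p + w) ε) (D (p + w') ε) := by
  rw [Set.disjoint_left]
  intro y hy hy'
  have h1 : nm (y - (p + w)) ≤ ε := hy
  have h2 : nm (y - (p + w')) ≤ ε := hy'
  have h3 := nm_tri (p + w) y (p + w')
  have h4 : (p + w) - (p + w') = w - w' := by abel
  rw [h4, nm_sub_comm (p + w) y] at h3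
  linarith

/-- three disjoint copies of a small ball in a ball -/
theorem copies (hn : 0 < n) {p : E n} {r : ℝ} (hr : 0 < r) (hp : nm p + r < 1) :
    ∃ κ κ' : E n ≃ₜ E n, IsHam κ ∧ IsHam κ' ∧ Supp (D p r) κ ∧ Supp (D p r) κ' ∧
      Disjoint (κ '' D p (r / 8)) (D p (r / 8)) ∧ Disjoint (κ' '' D p (r / 8)) (D p (r / 8)) ∧
      Disjoint (κ '' D p (r / 8)) (κ' '' D p (r / 8)) := by
  obtain ⟨e, he⟩ := exists_vec hn (show 0 < r / 2 by linarith)
  obtain ⟨κ, hκ, hκs, hκx⟩ := hT n p p e (r / 8) r (by linarith) hp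
    (by rw [sub_self, nm_zero]; linarith) (by rw [add_sub_cancel_left, he]; linarith)
  obtain ⟨κ', hκ', hκs', hκx'⟩ := hT n p p (-e) (r / 8) r (by linarith) hp
    (by rw [sub_self, nm_zero]; linarith) (by rw [add_sub_cancel_left, nm_neg, he]; linarith)
  have h0 : D p (r / 8) = D (p + 0) (r / 8) := by rw [add_zero]
  refine ⟨κ, κ', hκ, hκ', hκs, hκs', ?_, ?_, ?_⟩
  · refine Disjoint.mono (image_D hκx) (le_of_eq h0) (D_disj ?_)
    rw [sub_zero, he]; linarith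
  · refine Disjoint.mono (image_D hκx') (le_of_eq h0) (D_disj ?_)
    rw [sub_zero, nm_neg, he]; linarith
  · refine Disjoint.mono (image_D hκx) (image_D hκx') (D_disj ?_)
    have h1 : e - -e = (2 : ℝ) • e := by rw [two_smul]; abel
    rw [h1, nm_smul, he, abs_of_pos (by norm_num : (0 : ℝ) < 2)]; linarith

/-- **LOC**: a subgroup that moves a point of the ball and is normalised by the commutators of the
Hamiltonian diffeomorphisms contains the smallest normal subgroup of `Ham_c(B)`. -/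
theorem loc_main (hn : 0 < n) {N : Subgroup (E n ≃ₜ E n)} {u : E n ≃ₜ E n} (hu : u ∈ N)
    {p : E n} (hp : nm p < 1) (hup : u p ≠ p)
    (hN : ∀ a b : E n ≃ₜ E n, IsHam a → IsHam b → ⁅a, b⁆ ∈ (Subgroup.normalizer (N : Set (E n ≃ₜ E n)))) :
    Mono (HamC n) ≤ N := by
  -- `Mono` normalises `N`
  have hMN : Mono (HamC n) ≤ (Subgroup.normalizer (N : Set (E n ≃ₜ E n))) := by
    set C : Subgroup (E n ≃ₜ E n) :=
      Subgroup.closure {y | ∃ a b : E n ≃ₜ E n, IsHam a ∧ IsHam b ∧ y = ⁅a, b⁆} with hC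
    have h1 : C ≤ (Subgroup.normalizer (N : Set (E n ≃ₜ E n))) := by
      rw [hC, Subgroup.closure_le]
      rintro _ ⟨a, b, ha, hb, rfl⟩
      exact hN a b ha hb
    refine le_trans (Mono_le ⟨?_, ?_⟩ ?_) h1
    · rw [hC, Subgroup.closure_le]
      rintro _ ⟨a, b, ha, hb, rfl⟩
      exact (HamC n).mul_mem ((HamC n).mul_mem ((HamC n).mul_mem ha hb) ((HamC n).inv_mem ha))
        ((HamC n).inv_mem hb)
    · intro g hg x hx
      rw [hC] at hx ⊢
      induction hx using Subgroup.closure_induction with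
      | mem x hx =>
        obtain ⟨a, b, ha, hb, rfl⟩ := hx
        refine Subgroup.subset_closure ⟨g * a * g⁻¹, g * b * g⁻¹, ?_, ?_, ?_⟩
        · exact (HamC n).mul_mem ((HamC n).mul_mem hg ha) ((HamC n).inv_mem hg)
        · exact (HamC n).mul_mem ((HamC n).mul_mem hg hb) ((HamC n).inv_mem hg)
        · simp only [commutatorElement_def]; group
      | one => rw [mul_one, mul_inv_cancel]; exact Subgroup.one_mem _
      | mul x y _ _ h1 h2 =>
        have e : g * (x * y) * g⁻¹ = (g * x * g⁻¹) * (g * y * g⁻¹) := by group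
        rw [e]; exact Subgroup.mul_mem _ h1 h2
      | inv x _ h1 =>
        have e : g * x⁻¹ * g⁻¹ = (g * x * g⁻¹)⁻¹ := by group
        rw [e]; exact Subgroup.inv_mem _ h1
    · intro hbot
      obtain ⟨a, b, ha, hb, -, -, hab⟩ := L3 hT hn (q := (0 : E n)) (r := 1 / 2) (by norm_num)
        (by rw [nm_zero]; norm_num)
      have h2 : ⁅a, b⁆ ∈ C := Subgroup.subset_closure ⟨a, b, ha, hb, rfl⟩
      rw [hbot, Subgroup.mem_bot] at h2
      exact hab h2
  obtain ⟨r, hr, hpr, -, hd⟩ := displaced hup Filter.univ_mem hp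
  obtain ⟨κ, κ', hκ, hκ', hκs, hκs', h1, h2, h3⟩ := copies hn hr hpr
  have hp0 := nm_nonneg p
  obtain ⟨v, w, hv, hw, hvs, hws, hvw⟩ := L3 hT hn (q := p) (r := r / 8) (by linarith)
    (by linarith)
  have hsub : D p (r / 8) ⊆ D p r := fun x hx => by
    have h : nm (x - p) ≤ r / 8 := hx
    show nm (x - p) ≤ r
    linarith
  have hnorm : NormIn (Subgroup.normalizer (N : Set (E n ≃ₜ E n))) N := ⟨Subgroup.le_normalizer, fun g hg x hx =>
    (Subgroup.mem_normalizer_iff.1 hg x).1 hx⟩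
  have hmem : ⁅v, w⁆ ∈ N := by
    have h4 := comm_mem hnorm (φ := u) hu (hN v κ hv hκ) (hN w κ' hw hκ')
      ((hvs.mono hsub).comm hκs) ((hws.mono hsub).comm hκs') hd
    rwa [twist hvs hws h1 h2 h3] at h4
  have hmono : ⁅v, w⁆ ∈ Mono (HamC n) := comm_ball hT hR hn midC (z := p) (r := r / 8)
    (by linarith) (by linarith) (by linarith) hv hw hvs hws
  have hM : NormIn (Mono (HamC n)) (N ⊓ Mono (HamC n)) := by
    refine ⟨inf_le_right, fun g hg x hx => ?_⟩
    rw [Subgroup.mem_inf] at hx ⊢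
    exact ⟨hnorm.2 g (hMN hg) x hx.1, (Mono (HamC n)).mul_mem ((Mono (HamC n)).mul_mem hg hx.2)
      ((Mono (HamC n)).inv_mem hg)⟩
  refine (Mono_simple hT hR hn midC hM ?_).trans inf_le_left
  intro hbot
  have h5 : ⁅v, w⁆ ∈ N ⊓ Mono (HamC n) := Subgroup.mem_inf.2 ⟨hmem, hmono⟩
  rw [hbot, Subgroup.mem_bot] at h5
  exact hvw h5

/-- **LOC2** -/
theorem loc_good (hn : 0 < n) {N : Subgroup (E n ≃ₜ E n)} (hN : Mono (HamC n) ≤ N)
    {v w : E n ≃ₜ E n} (hvs : Supp (D 0 (1 / 80)) v) (hws : Supp (D 0 (1 / 80)) w)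
    (hv : ∀ κ : E n ≃ₜ E n, IsHam κ → ⁅v, κ⁆ ∈ (Subgroup.normalizer (N : Set (E n ≃ₜ E n))))
    (hw : ∀ κ : E n ≃ₜ E n, IsHam κ → ⁅w, κ⁆ ∈ (Subgroup.normalizer (N : Set (E n ≃ₜ E n)))) : ⁅v, w⁆ ∈ N := by
  obtain ⟨κ, κ', hκ, hκ', hκs, hκs', h1, h2, h3⟩ := copies hn (p := (0 : E n)) (r := 1 / 10)
    (by norm_num) (by rw [nm_zero]; norm_num)
  rw [show (1 / 10 : ℝ) / 8 = 1 / 80 by norm_num] at h1 h2 h3
  have hsub : D (0 : E n) (1 / 80) ⊆ D 0 (1 / 10) := fun x hx => by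
    have h : nm (x - 0) ≤ 1 / 80 := hx
    show nm (x - 0) ≤ 1 / 10
    linarith
  -- an element of `Mono` displacing the ball
  obtain ⟨e, he⟩ := exists_vec hn (show (0 : ℝ) < 1 / 2 by norm_num)
  obtain ⟨τ, hτ, -, hτx⟩ := hT n 0 0 e (1 / 10) (3 / 4) (by norm_num)
    (by rw [nm_zero]; norm_num) (by rw [sub_zero, nm_zero]; norm_num)
    (by rw [sub_zero, zero_add, he]; norm_num)
  obtain ⟨s, hs, hsx⟩ := dens hT hR midC (Mono_norm (HamC n)) (Mono_ne hT hR hn midC)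
    (isHam_mem hτ) (show (0 : ℝ) < 1 / (100 * (2 * (n : ℝ) + 1)) by positivity)
  have hd : Disjoint (s '' D (0 : E n) (1 / 10)) (D 0 (1 / 10)) := by
    rw [Set.disjoint_left]
    rintro _ ⟨x, hx, rfl⟩ hy
    have h4 : nm (s x - 0) ≤ 1 / 10 := hy
    have h5 : nm (x - 0) ≤ 1 / 10 := hx
    have h6 := hsx x
    rw [hτx x hx] at h6
    have h7 : nm (s x - (x + e)) ≤ 1 / 100 := by
      refine (F1.nm_le _).trans ?_
      have h8 : (0 : ℝ) < 2 * (n : ℝ) + 1 := by positivity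
      calc (2 * (n : ℝ) + 1) * ‖s x - (x + e)‖
          ≤ (2 * (n : ℝ) + 1) * (1 / (100 * (2 * (n : ℝ) + 1))) :=
            mul_le_mul_of_nonneg_left h6.le h8.le
        _ = 1 / 100 := by field_simp
    have h9 : e = (s x - 0) - (x - 0) - (s x - (x + e)) := by abel
    have h10 : nm e ≤ nm ((s x - 0) - (x - 0)) + nm (s x - (x + e)) := by
      conv_lhs => rw [h9]
      have := nm_add ((s x - 0) - (x - 0)) (-(s x - (x + e)))
      rwa [nm_neg, ← sub_eq_add_neg] at this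
    have h11 : nm ((s x - 0) - (x - 0)) ≤ nm (s x - 0) + nm (x - 0) := by
      have := nm_add (s x - 0) (-(x - 0))
      rwa [nm_neg, ← sub_eq_add_neg] at this
    linarith
  have hnorm : NormIn (Subgroup.normalizer (N : Set (E n ≃ₜ E n))) N := ⟨Subgroup.le_normalizer, fun g hg x hx =>
    (Subgroup.mem_normalizer_iff.1 hg x).1 hx⟩
  have h4 := comm_mem hnorm (φ := s) (hN hs) (hv κ hκ) (hw κ' hκ')
    ((hvs.mono hsub).comm hκs) ((hws.mono hsub).comm hκs') hd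
  rwa [twist hvs hws h1 h2 h3] at h4

end Pool.Agent.D0H34.SI
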