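import Mathlib
import Pool.Agent.D0H34.SI.Loc2
import Pool.Agent.Y419.HB.Dil

/-!
# Small index property, part 3: one good ball in every sequence of disjoint balls
-/

set_option autoImplicit false

open Set Filter Topology Function
open Pool.Agent.Y453.HB
open Pool.Agent.R773.HN
open Pool.Agent.N235.DH
open scoped commutatorElement

namespace Pool.Agent.D0H34.SI

variable {n : ℕ}

/-- there is no family of elements of the smallest normal subgroup, indexed by `ℕ → Bool`, that are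
pairwise incongruent modulo `H` -/
def Star (H : Subgroup (E n ≃ₜ E n)) : Prop :=
  ∀ F : (ℕ → Bool) → (E n ≃ₜ E n), (∀ x, F x ∈ Mono (HamBar n)) →
    ∃ x y, x ≠ y ∧ (F x)⁻¹ * F y ∈ H

/-- all commutators of elements supported in `A` are in `H` -/
def Good (K : Set (E n)) (H : Subgroup (E n ≃ₜ E n)) (A : Set (E n)) : Prop :=
  ∀ v ∈ HK n K, ∀ w ∈ HK n K, Supp A v → Supp A w → ⁅v, w⁆ ∈ H

/-- the homeomorphisms supported in `A` -/
def SG (A : Set (E n)) : Subgroup (E n ≃ₜ E n) where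
  carrier := {f | Supp A f}
  one_mem' := Supp.one A
  mul_mem' := fun ha hb => Supp.mul ha hb
  inv_mem' := fun ha => Supp.inv ha

theorem mem_SG {A : Set (E n)} {f : E n ≃ₜ E n} : f ∈ SG A ↔ Supp A f := Iff.rfl

theorem ham_supp {u : E n ≃ₜ E n} (hu : IsHam u) : Supp (D 0 1) u := by
  obtain ⟨K, -, h1, h2⟩ := cpt_supp (isHam_mem hu)
  refine h2.mono fun x hx => ?_
  show nm (x - 0) ≤ 1
  rw [sub_zero]
  exact (nm_lt_one (h1 hx)).le

/-- rescaling -/
theorem rescale {q : E n} {s : ℝ} (hs : 0 < s) (hq : nm q + s < 1) :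
    ∃ T : E n ≃ₜ E n, (∀ z, nm z ≤ 1 → T z = q + s • z) ∧
      ∀ u : E n ≃ₜ E n, IsHam u → IsHam (T * u * T⁻¹) := by
  have hq0 := nm_nonneg q
  obtain ⟨R, hR1, hR2⟩ := exists_between hq
  obtain ⟨κ, hκ, -, hκx⟩ := hT n 0 0 q s R hs (by rw [nm_zero]; linarith)
    (by rw [sub_zero, nm_zero]; linarith) (by rw [sub_zero, zero_add]; linarith)
  refine ⟨κ * dil s hs, fun z hz => ?_, fun u hu => ?_⟩
  · rw [mul_apply, dil_apply, hκx _ ?_, add_comm]
    show nm (s • z - 0) ≤ s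
    rw [sub_zero, nm_smul, abs_of_pos hs]
    nlinarith
  · have h1 := Pool.Agent.Y419.HB.dil_ham n s hs (by linarith) u hu
    have h2 := (HamC n).mul_mem ((HamC n).mul_mem (mem_HamC.2 hκ) (mem_HamC.2 h1))
      ((HamC n).inv_mem (mem_HamC.2 hκ))
    have e : κ * (dil s hs * u * (dil s hs)⁻¹) * κ⁻¹ = κ * dil s hs * u * (κ * dil s hs)⁻¹ := by
      group
    rw [e] at h2
    exact h2

theorem rescale_image {q : E n} {s : ℝ} (hs : 0 < s) {T : E n ≃ₜ E n}
    (hT : ∀ z, nm z ≤ 1 → T z = q + s • z) {ρ : ℝ} (hρ : ρ ≤ 1) :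
    T '' D 0 ρ = D q (s * ρ) := by
  ext y
  constructor
  · rintro ⟨z, hz, rfl⟩
    have h1 : nm (z - 0) ≤ ρ := hz
    rw [sub_zero] at h1
    rw [hT z (h1.trans hρ)]
    show nm (q + s • z - q) ≤ s * ρ
    rw [add_sub_cancel_left, nm_smul, abs_of_pos hs]
    exact mul_le_mul_of_nonneg_left h1 hs.le
  · intro hy
    have h1 : nm (y - q) ≤ s * ρ := hy
    have h2 : nm (s⁻¹ • (y - q)) ≤ ρ := by
      rw [nm_smul, abs_of_pos (inv_pos.2 hs), inv_mul_le_iff₀ hs]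
      exact h1
    refine ⟨s⁻¹ • (y - q), ?_, ?_⟩
    · show nm (s⁻¹ • (y - q) - 0) ≤ ρ
      rwa [sub_zero]
    · rw [hT _ (h2.trans hρ), smul_smul, mul_inv_cancel₀ hs.ne', one_smul, add_sub_cancel]

theorem image_inv {T : E n ≃ₜ E n} {A B : Set (E n)} (h : T '' A = B) :
    (T⁻¹ : E n ≃ₜ E n) '' B = A := by
  rw [← h]
  ext x
  constructor
  · rintro ⟨_, ⟨y, hy, rfl⟩, rfl⟩
    rw [inv_apply_self]; exact hy
  · intro hx
    exact ⟨T x, ⟨x, hx, rfl⟩, inv_apply_self T x⟩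

/-- families of commutators in disjoint balls -/
theorem fam (hn : 0 < n) {K : Set (E n)} (hK : IsCompact K) (hKQ : K ⊆ {p : E n | Q p < 1})
    {x0 : E n} {δ0 : ℝ} (hδ : 0 < δ0) (hδ2 : δ0 < 1 / 2) (hx0 : nm x0 + δ0 < 1)
    (hsub : D x0 δ0 ⊆ K) (q : ℕ → E n) (s : ℕ → ℝ) (hs2 : ∀ i, s i ≤ (1 / 2) ^ (i + 1))
    (hD : ∀ i, D (q i) (s i) ⊆ D x0 δ0)
    (hdis : ∀ i j, i ≠ j → Disjoint (D (q i) (s i)) (D (q j) (s j)))
    (a b : ℕ → (E n ≃ₜ E n)) (ha : ∀ i, a i ∈ HK n K) (hb : ∀ i, b i ∈ HK n K)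
    (has : ∀ i, Supp (D (q i) (s i)) (a i)) (hbs : ∀ i, Supp (D (q i) (s i)) (b i)) :
    ∃ F : (ℕ → Bool) → (E n ≃ₜ E n), (∀ x, F x ∈ Mono (HamBar n)) ∧
      (∀ x, Supp (⋃ i, D (q i) (s i)) (F x)) ∧
      ∀ x i, Loc (D (q i) (s i)) (F x) (if x i then ⁅a i, b i⁆ else 1) := by
  have hA : ∀ (c : ℕ → (E n ≃ₜ E n)), (∀ i, c i ∈ HK n K) → (∀ i, Supp (D (q i) (s i)) (c i)) →
      ∀ x : ℕ → Bool, ∃ P ∈ HK n K, (∀ i, Loc (D (q i) (s i)) P (if x i then c i else 1)) ∧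
        Supp (⋃ i, D (q i) (s i)) P := by
    intro c hc hcs x
    refine infprod hK q s (fun i => (hD i).trans hsub) hs2 hdis (fun i => if x i then c i else 1)
      (fun i => ?_) (fun i => ?_)
    · show (if x i then c i else 1) ∈ HK n K
      split_ifs
      · exact hc i
      · exact HK_one K
    · show Supp _ (if x i then c i else 1)
      split_ifs
      · exact hcs i
      · exact Supp.one _
  choose Pa hPa1 hPa2 hPa3 using hA a ha has
  choose Pb hPb1 hPb2 hPb3 using hA b hb hbs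
  have hU : (⋃ i, D (q i) (s i)) ⊆ D x0 δ0 := iUnion_subset hD
  refine ⟨fun x => ⁅Pa x, Pb x⁆, fun x => ?_, fun x => (hPa3 x).comm (hPb3 x), fun x i => ?_⟩
  · exact comm_ball hT hR hn midB hδ hδ2 hx0 (HK_mem hK hKQ (hPa1 x)) (HK_mem hK hKQ (hPb1 x))
      ((hPa3 x).mono hU) ((hPb3 x).mono hU)
  · have h1 := (hPa2 x i).comm (hPb2 x i)
    by_cases hx : x i = true
    · rw [if_pos hx] at h1 ⊢
      rw [if_pos hx] at h1
      exact h1
    · rw [if_neg hx] at h1 ⊢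
      rw [if_neg hx] at h1
      rwa [commutatorElement_self] at h1

/-- a nontrivial element of `H` inside a ball -/
theorem exists_elt (hn : 0 < n) {K : Set (E n)} (hK : IsCompact K)
    (hKQ : K ⊆ {p : E n | Q p < 1}) {H : Subgroup (E n ≃ₜ E n)} (hH : Star H) {q : E n} {s : ℝ}
    (hs : 0 < s) (hs2 : s ≤ 1 / 2) (hq : nm q + s < 1) (hsub : D q s ⊆ K) :
    ∃ u ∈ H, Supp (D q (s / 2)) u ∧ ∃ z ∈ D q (s / 2), u z ≠ z := by
  obtain ⟨e, he⟩ := exists_vec hn (show (0 : ℝ) < 1 / 4 by norm_num)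
  set p : ℕ → E n := fun k => q + (s * (1 / 2) ^ k) • e with hp
  set r : ℕ → ℝ := fun k => s * (1 / 2) ^ k / 32 with hr
  have hr0 : ∀ k, 0 < r k := fun k => by
    have : (0 : ℝ) < (1 / 2) ^ k := by positivity
    simp only [hr]; positivity
  have hpow : ∀ k : ℕ, (1 / 2 : ℝ) ^ k ≤ 1 := fun k => pow_le_one₀ (by norm_num) (by norm_num)
  have hsubk : ∀ k, D (p k) (r k) ⊆ D q (s / 2) := by
    intro k x hx
    have h1 : nm (x - p k) ≤ r k := hx
    have h2 := nm_tri x (p k) q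
    have h3 : p k - q = (s * (1 / 2) ^ k) • e := by simp only [hp]; abel
    have h4 : (0 : ℝ) < s * (1 / 2) ^ k := by positivity
    rw [h3, nm_smul, he, abs_of_pos h4] at h2
    have h5 := hpow k
    have h6 : s * (1 / 2) ^ k ≤ s := mul_le_of_le_one_right hs.le h5
    show nm (x - q) ≤ s / 2
    simp only [hr] at h1
    linarith
  have hnmp : ∀ k, nm (p k) + r k < 1 := by
    intro k
    have h1 : nm (p k) ≤ nm q + s * (1 / 2) ^ k * (1 / 4) := by
      have h2 := nm_add q ((s * (1 / 2) ^ k) • e)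
      have h4 : (0 : ℝ) < s * (1 / 2) ^ k := by positivity
      rwa [nm_smul, he, abs_of_pos h4] at h2
    have h5 := hpow k
    have h6 : s * (1 / 2) ^ k ≤ s := mul_le_of_le_one_right hs.le h5
    simp only [hr]
    linarith
  have hdis : ∀ j k, j ≠ k → Disjoint (D (p j) (r j)) (D (p k) (r k)) := by
    have key : ∀ j k, j < k → Disjoint (D (p j) (r j)) (D (p k) (r k)) := by
      intro j k hjk
      rw [Set.disjoint_left]
      intro y hy hy'
      have h1 : nm (y - p j) ≤ r j := hy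
      have h2 : nm (y - p k) ≤ r k := hy'
      have h3 := nm_tri (p j) y (p k)
      have h4 : p j - p k = (s * (1 / 2) ^ j - s * (1 / 2) ^ k) • e := by
        simp only [hp]; rw [sub_smul]; abel
      have h5 : (1 / 2 : ℝ) ^ k ≤ (1 / 2) ^ (j + 1) :=
        pow_le_pow_of_le_one (by norm_num) (by norm_num) hjk
      rw [pow_succ] at h5
      have h6 : (0 : ℝ) < (1 / 2) ^ j := by positivity
      have h7 : s * (1 / 2) ^ k ≤ s * ((1 / 2) ^ j * (1 / 2)) := mul_le_mul_of_nonneg_left h5 hs.le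
      have h8 : 0 < s * (1 / 2) ^ j := by positivity
      rw [h4, nm_smul, he, nm_sub_comm (p j) y, abs_of_nonneg (by nlinarith)] at h3
      simp only [hr] at h1 h2
      nlinarith
    intro j k hjk
    rcases lt_or_gt_of_ne hjk with h | h
    · exact key j k h
    · exact (key k j h).symm
  have hr2 : ∀ k, r k ≤ (1 / 2) ^ (k + 1) := by
    intro k
    have h6 : (0 : ℝ) < (1 / 2) ^ k := by positivity
    have h7 : s * (1 / 2) ^ k ≤ 1 / 2 * (1 / 2) ^ k := mul_le_mul_of_nonneg_right hs2 h6.le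
    simp only [hr]
    rw [pow_succ]
    linarith
  have hL := fun k => L3 hT hn (hr0 k) (hnmp k)
  choose a b ha hb has hbs hab using hL
  have hq0 := nm_nonneg q
  have hsub2 : D q (s / 2) ⊆ D q s := fun x hx => by
    have h : nm (x - q) ≤ s / 2 := hx
    show nm (x - q) ≤ s
    linarith
  have hsubK := hsub2.trans hsub
  have hHK : ∀ k, ∀ f : E n ≃ₜ E n, IsHam f → Supp (D (p k) (r k)) f → f ∈ HK n K :=
    fun k f hf hfs => HK_ham hf (hfs.mono ((hsubk k).trans hsubK))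
  obtain ⟨F, hF1, hF2, hF3⟩ := fam hn hK hKQ (x0 := q) (δ0 := s / 2) (by linarith) (by linarith)
    (by linarith) hsubK p r hr2 hsubk hdis a b (fun k => hHK k _ (ha k) (has k))
    (fun k => hHK k _ (hb k) (hbs k)) has hbs
  obtain ⟨x, y, hxy, hu⟩ := hH F hF1
  have hU : (⋃ i, D (p i) (r i)) ⊆ D q (s / 2) := iUnion_subset hsubk
  refine ⟨_, hu, ((hF2 x).inv.mul (hF2 y)).mono hU, ?_⟩
  obtain ⟨k, hk⟩ := Function.ne_iff.1 hxy
  have hmv : ∀ u : E n ≃ₜ E n, Loc (D (p k) (r k)) u ⁅a k, b k⁆ → ∃ z ∈ D q (s / 2), u z ≠ z := by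
    intro u hu
    obtain ⟨z, hz⟩ := exists_moved (hab k)
    have hzD : z ∈ D (p k) (r k) := by
      by_contra hc
      exact hz (((has k).comm (hbs k)) z hc)
    exact ⟨z, hsubk k hzD, by rw [hu.eq z hzD]; exact hz⟩
  have h1 := (hF3 x k).symm.mul (hF3 y k)
  by_cases hxk : x k = true
  · have hyk : ¬ y k = true := fun h => hk (by rw [hxk, h])
    rw [if_pos hxk, if_neg hyk, mul_one] at h1
    have h2 := h1.symm
    rw [inv_inv] at h2
    obtain ⟨z, hz1, hz2⟩ := hmv _ h2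
    refine ⟨z, hz1, fun h => hz2 ?_⟩
    have h3 := inv_apply_self ((F x)⁻¹ * F y) z
    rwa [h] at h3
  · have hyk : y k = true := by
      cases hy : y k
      · exact absurd (by simpa [hy] using hxk) (by simpa [hy] using hk)
      · rfl
    rw [if_neg hxk, if_pos hyk, inv_one, one_mul] at h1
    exact hmv _ h1

/-- **One good ball.** -/
theorem main_claim (hn : 0 < n) {K : Set (E n)} (hK : IsCompact K)
    (hKQ : K ⊆ {p : E n | Q p < 1}) {H : Subgroup (E n ≃ₜ E n)} (hH : Star H)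
    {x0 : E n} {δ0 : ℝ} (hδ : 0 < δ0) (hδ2 : δ0 < 1 / 2) (hx0 : nm x0 + δ0 < 1)
    (hsub : D x0 δ0 ⊆ K) (q : ℕ → E n) (s : ℕ → ℝ) (hs : ∀ i, 0 < s i)
    (hs2 : ∀ i, s i ≤ (1 / 2) ^ (i + 1)) (hD : ∀ i, D (q i) (s i) ⊆ D x0 δ0)
    (hnm : ∀ i, nm (q i) + s i < 1)
    (hdis : ∀ i j, i ≠ j → Disjoint (D (q i) (s i)) (D (q j) (s j))) :
    ∃ i, Good K H (D (q i) (s i / 80)) := by
  -- filling
  have hfill : ∃ i, ∀ a ∈ HK n K, ∀ b ∈ HK n K, Supp (D (q i) (s i)) a →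
      Supp (D (q i) (s i)) b → ∃ h ∈ H, Loc (D (q i) (s i)) h ⁅a, b⁆ := by
    by_contra hcon
    push Not at hcon
    choose a ha b hb has hbs hab using hcon
    obtain ⟨F, hF1, -, hF3⟩ := fam hn hK hKQ hδ hδ2 hx0 hsub q s hs2 hD hdis a b ha hb has hbs
    obtain ⟨x, y, hxy, hu⟩ := hH F hF1
    obtain ⟨k, hk⟩ := Function.ne_iff.1 hxy
    have h1 := (hF3 x k).symm.mul (hF3 y k)
    by_cases hxk : x k = true
    · have hyk : ¬ y k = true := fun h => hk (by rw [hxk, h])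
      rw [if_pos hxk, if_neg hyk, mul_one] at h1
      have h2 := h1.symm
      rw [inv_inv] at h2
      exact hab k _ (H.inv_mem hu) h2
    · have hyk : y k = true := by
        cases hy : y k
        · exact absurd (by simpa [hy] using hxk) (by simpa [hy] using hk)
        · rfl
      rw [if_neg hxk, if_pos hyk, inv_one, one_mul] at h1
      exact hab k _ hu h1
  obtain ⟨i, hi⟩ := hfill
  refine ⟨i, ?_⟩
  have hDK : D (q i) (s i) ⊆ K := (hD i).trans hsub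
  have hsi : s i ≤ 1 / 2 := (hs2 i).trans (by
    rw [pow_succ]
    have : (1 / 2 : ℝ) ^ i ≤ 1 := pow_le_one₀ (by norm_num) (by norm_num)
    linarith)
  obtain ⟨u, hu, hus, z, hz, huz⟩ := exists_elt hn hK hKQ hH (hs i) hsi (hnm i) hDK
  obtain ⟨T, hT1, hT2⟩ := rescale (hs i) (hnm i)
  have im1 : T '' D 0 1 = D (q i) (s i) := by
    have := rescale_image (hs i) hT1 (ρ := 1) le_rfl
    rwa [mul_one] at this
  have im2 : T '' D 0 (1 / 2) = D (q i) (s i / 2) := by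
    have := rescale_image (hs i) hT1 (ρ := 1 / 2) (by norm_num)
    rwa [mul_one_div] at this
  have im80 : T '' D 0 (1 / 80) = D (q i) (s i / 80) := by
    have := rescale_image (hs i) hT1 (ρ := 1 / 80) (by norm_num)
    rwa [mul_one_div] at this
  set N : Subgroup (E n ≃ₜ E n) := (H ⊓ SG (D (q i) (s i))).comap (MulAut.conj T).toMonoidHom
    with hN
  have memN : ∀ f : E n ≃ₜ E n, f ∈ N ↔ T * f * T⁻¹ ∈ H ∧ Supp (D (q i) (s i)) (T * f * T⁻¹) := by
    intro f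
    rw [hN, Subgroup.mem_comap, Subgroup.mem_inf]
    rfl
  -- the normaliser
  have hnorm : ∀ a ∈ HK n K, ∀ b ∈ HK n K, Supp (D (q i) (s i)) a → Supp (D (q i) (s i)) b →
      T⁻¹ * ⁅a, b⁆ * T ∈ Subgroup.normalizer (N : Set (E n ≃ₜ E n)) := by
    intro a ha b hb has hbs
    obtain ⟨h, hh, hL⟩ := hi a ha b hb has hbs
    have hc := has.comm hbs
    rw [Subgroup.mem_normalizer_iff]
    intro y
    rw [memN, memN]
    have e : T * (T⁻¹ * ⁅a, b⁆ * T * y * (T⁻¹ * ⁅a, b⁆ * T)⁻¹) * T⁻¹ =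
        ⁅a, b⁆ * (T * y * T⁻¹) * ⁅a, b⁆⁻¹ := by group
    rw [e]
    constructor
    · rintro ⟨h1, h2⟩
      refine ⟨?_, (hc.mul h2).mul hc.inv⟩
      rw [← hL.conj h2]
      exact H.mul_mem (H.mul_mem hh h1) (H.inv_mem hh)
    · rintro ⟨h1, h2⟩
      have e2 : T * y * T⁻¹ = ⁅a, b⁆⁻¹ * (⁅a, b⁆ * (T * y * T⁻¹) * ⁅a, b⁆⁻¹) * ⁅a, b⁆⁻¹⁻¹ := by
        group
      have e3 := hL.symm.conj h2
      rw [e2]
      refine ⟨?_, (hc.inv.mul h2).mul hc.inv.inv⟩
      rw [← e3]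
      exact H.mul_mem (H.mul_mem (H.inv_mem hh) h1) (H.inv_mem (H.inv_mem hh))
  have hTs : ∀ κ : E n ≃ₜ E n, IsHam κ → T * κ * T⁻¹ ∈ HK n K ∧
      Supp (D (q i) (s i)) (T * κ * T⁻¹) := by
    intro κ hκ
    have h1 := (ham_supp hκ).conj T
    rw [im1] at h1
    exact ⟨HK_ham (hT2 κ hκ) (h1.mono hDK), h1⟩
  have hmono : Mono (HamC n) ≤ N := by
    obtain ⟨p, hp, rfl⟩ : ∃ p ∈ D (0 : E n) (1 / 2), T p = z := by
      rw [← im2] at hz
      exact hz
    have hp2 : nm (p - 0) ≤ 1 / 2 := hp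
    rw [sub_zero] at hp2
    refine loc_main hn (u := T⁻¹ * u * T) ?_ (p := p) (by linarith) ?_ ?_
    · rw [memN]
      have e : T * (T⁻¹ * u * T) * T⁻¹ = u := by group
      rw [e]
      refine ⟨hu, hus.mono fun x hx => ?_⟩
      have h : nm (x - q i) ≤ s i / 2 := hx
      show nm (x - q i) ≤ s i
      linarith [hs i]
    · intro h
      apply huz
      have h2 : T⁻¹ (u (T p)) = p := h
      have h3 := congrArg T h2
      rwa [apply_inv_self] at h3
    · intro a b ha hb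
      have h1 := hnorm _ (hTs a ha).1 _ (hTs b hb).1 (hTs a ha).2 (hTs b hb).2
      have e : T⁻¹ * ⁅T * a * T⁻¹, T * b * T⁻¹⁆ * T = ⁅a, b⁆ := by
        simp only [commutatorElement_def]; group
      rwa [e] at h1
  intro v hv w hw hvs hws
  have hsub80 : D (q i) (s i / 80) ⊆ D (q i) (s i) := fun x hx => by
    have h : nm (x - q i) ≤ s i / 80 := hx
    show nm (x - q i) ≤ s i
    linarith [hs i]
  have hv1 : Supp (D 0 (1 / 80)) (T⁻¹ * v * T) := by
    have := hvs.conj T⁻¹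
    rwa [image_inv im80, inv_inv] at this
  have hw1 : Supp (D 0 (1 / 80)) (T⁻¹ * w * T) := by
    have := hws.conj T⁻¹
    rwa [image_inv im80, inv_inv] at this
  have hcc : ∀ f ∈ HK n K, Supp (D (q i) (s i)) f → ∀ κ : E n ≃ₜ E n, IsHam κ →
      ⁅T⁻¹ * f * T, κ⁆ ∈ Subgroup.normalizer (N : Set (E n ≃ₜ E n)) := by
    intro f hf hfs κ hκ
    have h1 := hnorm _ hf _ (hTs κ hκ).1 hfs (hTs κ hκ).2
    have e : T⁻¹ * ⁅f, T * κ * T⁻¹⁆ * T = ⁅T⁻¹ * f * T, κ⁆ := by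
      simp only [commutatorElement_def]; group
    rwa [e] at h1
  have h1 := loc_good hn hmono hv1 hw1 (hcc v hv (hvs.mono hsub80)) (hcc w hw (hws.mono hsub80))
  rw [memN] at h1
  have e : T * ⁅T⁻¹ * v * T, T⁻¹ * w * T⁆ * T⁻¹ = ⁅v, w⁆ := by
    simp only [commutatorElement_def]; group
  rw [e] at h1
  exact h1.1

end Pool.Agent.D0H34.SI
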