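import Mathlib
import Pool.Agent.D0H34.SI.Mc

/-!
# Small index property, part 4: all small balls are good
-/

set_option autoImplicit false

open Set Filter Topology Function
open Pool.Agent.Y453.HB
open Pool.Agent.R773.HN
open Pool.Agent.N235.DH
open scoped commutatorElement

namespace Pool.Agent.D0H34.SI

variable {n : ℕ}

theorem rad_le (hn : 0 < n) {q x : E n} {S δ : ℝ} (hS : 0 < S) (h : D q S ⊆ D x δ) : S ≤ δ := by
  obtain ⟨e, he⟩ := exists_vec hn hS
  have h1 : q + e ∈ D x δ := h (by show nm (q + e - q) ≤ S; rw [add_sub_cancel_left, he])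
  have h2 : q - e ∈ D x δ := h (by
    show nm (q - e - q) ≤ S
    rw [show q - e - q = -e by abel, nm_neg, he])
  have h1' : nm (q + e - x) ≤ δ := h1
  have h2' : nm (q - e - x) ≤ δ := h2
  have h3 : nm ((2 : ℝ) • e) ≤ nm (q + e - x) + nm (q - e - x) := by
    have h4 := nm_add (q + e - x) (-(q - e - x))
    rw [nm_neg] at h4
    have h5 : (q + e - x) + -(q - e - x) = (2 : ℝ) • e := by rw [two_smul]; abel
    rwa [h5] at h4
  rw [nm_smul, he, abs_of_pos (by norm_num : (0 : ℝ) < 2)] at h3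
  linarith

theorem D_mono {q : E n} {r r' : ℝ} (h : r ≤ r') : D q r ⊆ D q r' := fun _ hx => le_trans hx h

/-- small balls near `x` which do not contain `x` -/
theorem near (hn : 0 < n) {K : Set (E n)} (hK : IsCompact K) (hKQ : K ⊆ {p : E n | Q p < 1})
    {H : Subgroup (E n ≃ₜ E n)} (hH : Star H) {x : E n} {ρ0 : ℝ} (hρ : 0 < ρ0)
    (hρK : D x ρ0 ⊆ K) (hx : nm x < 1) :
    ∃ δ > 0, ∀ (q : E n) (S : ℝ), 0 < S → D q S ⊆ D x δ → x ∉ D q S → nm q + S < 1 →
      Good K H (D q (S / 80)) := by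
  by_contra hcon
  push Not at hcon
  have hstep : ∀ δ : ℝ, 0 < δ → ∃ (q : E n) (S δ' : ℝ), 0 < S ∧ D q S ⊆ D x δ ∧ x ∉ D q S ∧
      nm q + S < 1 ∧ ¬ Good K H (D q (S / 80)) ∧ 0 < δ' ∧ δ' ≤ δ / 2 ∧
      Disjoint (D x δ') (D q S) := by
    intro δ hδ
    obtain ⟨q, S, h1, h2, h3, h4, h5⟩ := hcon δ hδ
    have h6 : (D q S)ᶜ ∈ 𝓝 x := (D_closed q S).isOpen_compl.mem_nhds h3
    obtain ⟨ρ, hρ, h7⟩ := Metric.nhds_basis_closedBall.mem_iff.1 h6
    refine ⟨q, S, min ρ (δ / 2), h1, h2, h3, h4, h5, lt_min hρ (by linarith), min_le_right _ _, ?_⟩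
    rw [Set.disjoint_left]
    intro y hy
    exact h7 (Metric.closedBall_subset_closedBall (min_le_left _ _) (D_sub_ball _ _ hy))
  choose! q S δ' h using hstep
  set δ0 : ℝ := min (min ρ0 ((1 - nm x) / 2)) (1 / 4) with hδ0
  have hδ0p : 0 < δ0 := lt_min (lt_min hρ (by linarith)) (by norm_num)
  have hδ1 : δ0 ≤ ρ0 := (min_le_left _ _).trans (min_le_left _ _)
  have hδ2 : δ0 ≤ (1 - nm x) / 2 := (min_le_left _ _).trans (min_le_right _ _)
  have hδ3 : δ0 ≤ 1 / 4 := min_le_right _ _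
  set d : ℕ → ℝ := fun k => Nat.rec δ0 (fun _ t => δ' t) k with hd
  have hd0 : d 0 = δ0 := rfl
  have hds : ∀ k, d (k + 1) = δ' (d k) := fun k => rfl
  have hdp : ∀ k, 0 < d k := by
    intro k
    induction k with
    | zero => exact hδ0p
    | succ k ih => rw [hds]; exact (h _ ih).2.2.2.2.2.1
  have hdh : ∀ k, d (k + 1) ≤ d k / 2 := fun k => by rw [hds]; exact (h _ (hdp k)).2.2.2.2.2.2.1
  have hdle : ∀ k, d k ≤ (1 / 2) ^ (k + 1) := by
    intro k
    induction k with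
    | zero => rw [hd0]; norm_num; linarith
    | succ k ih =>
      have := hdh k
      rw [pow_succ]
      linarith
  have hanti : ∀ j k, j ≤ k → d k ≤ d j := by
    intro j k hjk
    induction k, hjk using Nat.le_induction with
    | base => exact le_rfl
    | succ k _ ih =>
      have h1 := hdh k
      have h2 := hdp k
      linarith
  have hdis : ∀ i j, i ≠ j → Disjoint (D (q (d i)) (S (d i))) (D (q (d j)) (S (d j))) := by
    have key : ∀ i j, i < j → Disjoint (D (q (d i)) (S (d i))) (D (q (d j)) (S (d j))) := by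
      intro i j hij
      have h1 := (h _ (hdp i)).2.2.2.2.2.2.2
      have h2 := (h _ (hdp j)).2.1
      rw [← hds] at h1
      exact (h1.mono_left (h2.trans (D_mono (hanti (i + 1) j hij)))).symm
    intro i j hij
    rcases lt_or_gt_of_ne hij with h1 | h1
    · exact key i j h1
    · exact (key j i h1).symm
  obtain ⟨i, hi⟩ := main_claim hn hK hKQ hH (x0 := x) (δ0 := δ0) hδ0p (by linarith) (by linarith)
    ((D_mono hδ1).trans hρK) (fun k => q (d k)) (fun k => S (d k)) (fun k => (h _ (hdp k)).1)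
    (fun k => (rad_le hn (h _ (hdp k)).1 (h _ (hdp k)).2.1).trans (hdle k))
    (fun k => (h _ (hdp k)).2.1.trans (D_mono (hanti 0 k (Nat.zero_le k))))
    (fun k => (h _ (hdp k)).2.2.2.1) hdis
  exact (h _ (hdp i)).2.2.2.2.1 hi

theorem exists_inj {ρ : ℝ} (hρ : 0 < ρ) :
    ∃ l : (ℕ → Bool) → ℝ, Injective l ∧ ∀ b, 0 < l b ∧ l b < ρ := by
  have h1 : Cardinal.mk (ℕ → Bool) ≤ Cardinal.mk (Ioo (0 : ℝ) ρ) := by
    rw [Cardinal.mk_Ioo_real hρ]
    simp
  obtain ⟨f⟩ := h1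
  exact ⟨fun b => (f b : ℝ), fun b b' h => f.injective (Subtype.ext h), fun b => (f b).2⟩

/-- all small balls near `x` -/
theorem near_all (hn : 0 < n) {K : Set (E n)} (hK : IsCompact K)
    (hKQ : K ⊆ {p : E n | Q p < 1}) {H : Subgroup (E n ≃ₜ E n)} (hH : Star H) {x : E n} {ρ0 : ℝ}
    (hρ0 : 0 < ρ0) (hρK : D x ρ0 ⊆ K) (hx : nm x < 1) :
    ∃ η > 0, ∀ (q : E n) (s : ℝ), 0 < s → nm (q - x) + s ≤ η → Good K H (D q s) := by
  obtain ⟨δ, hδ, hgood⟩ := near hn hK hKQ hH hρ0 hρK hx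
  obtain ⟨ρ, hρ, hρ1, hρ2, hρ3⟩ : ∃ ρ : ℝ, 0 < ρ ∧ 16 * ρ ≤ ρ0 ∧ nm x + 17 * ρ < 1 ∧ ρ ≤ δ := by
    refine ⟨min (min (ρ0 / 16) ((1 - nm x) / 20)) δ, lt_min (lt_min (by linarith) (by linarith)) hδ,
      ?_, ?_, min_le_right _ _⟩
    · have := (min_le_left (min (ρ0 / 16) ((1 - nm x) / 20)) δ).trans (min_le_left _ _)
      linarith
    · have := (min_le_left (min (ρ0 / 16) ((1 - nm x) / 20)) δ).trans (min_le_right _ _)
      linarith
  obtain ⟨l, hl, hl2⟩ := exists_inj (half_pos hρ)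
  obtain ⟨e, he⟩ := exists_vec hn one_pos
  -- translations
  have hκ : ∀ b, ∃ κ : E n ≃ₜ E n, IsHam κ ∧ Supp (D x (4 * ρ)) κ ∧
      ∀ z ∈ D x ρ, κ z = z + l b • e := by
    intro b
    refine hT n x x (l b • e) ρ (4 * ρ) hρ (by linarith) (by rw [sub_self, nm_zero]; linarith) ?_
    rw [add_sub_cancel_left, nm_smul, he, abs_of_pos (hl2 b).1]
    linarith [(hl2 b).2]
  choose κ hκ1 hκ2 hκ3 using hκ
  obtain ⟨ψ, hψ1, hψ2, hψ3⟩ := hT n x x ((10 * ρ) • e) (4 * ρ) (16 * ρ) (by linarith)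
    (by linarith) (by rw [sub_self, nm_zero]; linarith) (by
      rw [add_sub_cancel_left, nm_smul, he, abs_of_pos (by linarith)]
      linarith)
  have hψd : Disjoint (ψ '' D x (4 * ρ)) (D x (4 * ρ)) := by
    have h0 : D x (4 * ρ) = D (x + 0) (4 * ρ) := by rw [add_zero]
    refine Disjoint.mono (image_D hψ3) (le_of_eq h0) (D_disj ?_)
    rw [sub_zero, nm_smul, he, abs_of_pos (by linarith)]
    linarith
  have hFx : ∀ b, ∀ z ∈ D x ρ, (⁅κ b, ψ⁆ : E n ≃ₜ E n) z = z + l b • e := by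
    intro b z hz
    have e1 : ⁅κ b, ψ⁆ = κ b * (ψ * (κ b)⁻¹ * ψ⁻¹) := by rw [commutatorElement_def]; group
    have h1 : Supp (ψ '' D x (4 * ρ)) (ψ * (κ b)⁻¹ * ψ⁻¹) := (hκ2 b).inv.conj ψ
    rw [e1, mul_apply, h1 z, hκ3 b z hz]
    exact fun h => Set.disjoint_left.1 hψd h (D_mono (by linarith) hz)
  obtain ⟨b, b', hbb, hmem⟩ := hH (fun b => ⁅κ b, ψ⁆)
    (fun b => hCo n hn _ midB _ _ (hκ1 b) hψ1)
  set h : E n ≃ₜ E n := ⁅κ b, ψ⁆⁻¹ * ⁅κ b', ψ⁆ with hh
  set w : E n := (l b' - l b) • e with hw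
  have hw0 : 0 < nm w := by
    rw [hw, nm_smul, he, mul_one, abs_pos, sub_ne_zero]
    exact fun h => hbb (hl h.symm)
  have hwρ : nm w ≤ ρ / 2 := by
    rw [hw, nm_smul, he, mul_one, abs_le]
    constructor <;> linarith [(hl2 b).1, (hl2 b).2, (hl2 b').1, (hl2 b').2]
  have hhx : ∀ z ∈ D x (ρ / 2), h z = z + w := by
    intro z hz
    have h1 : nm (z - x) ≤ ρ / 2 := hz
    have h2 : z + w ∈ D x ρ := by
      show nm (z + w - x) ≤ ρ
      have h3 : z + w - x = (z - x) + w := by abel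
      rw [h3]
      have := nm_add (z - x) w
      linarith
    have h3 : (⁅κ b, ψ⁆ : E n ≃ₜ E n) (z + w) = (⁅κ b', ψ⁆ : E n ≃ₜ E n) z := by
      rw [hFx b _ h2, hFx b' z (D_mono (by linarith) hz), hw, add_assoc, ← add_smul,
        sub_add_cancel]
    rw [hh, mul_apply, ← h3, inv_apply_self]
  have hFK : ∀ b, ⁅κ b, ψ⁆ ∈ HK n K := by
    intro b
    refine HK_ham ((HamC n).mul_mem ((HamC n).mul_mem ((HamC n).mul_mem (hκ1 b) hψ1)
      ((HamC n).inv_mem (hκ1 b))) ((HamC n).inv_mem hψ1)) ?_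
    exact (((hκ2 b).mono (D_mono (by linarith))).comm hψ2).mono ((D_mono hρ1).trans hρK)
  have hhK : h ∈ HK n K := HK_mul hK (HK_inv hK (hFK b)) (hFK b')
  refine ⟨min (ρ / 200) (nm w / 200), lt_min (by linarith) (by linarith), ?_⟩
  intro q s hs hqs v hv u hu hvs hus
  have hη1 := hqs.trans (min_le_left _ _)
  have hη2 := hqs.trans (min_le_right _ _)
  have hqx := nm_nonneg (q - x)
  have himg : ∀ z ∈ D q s, h z = z + w := by
    intro z hz
    refine hhx z ?_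
    have h1 : nm (z - q) ≤ s := hz
    have h2 := nm_tri z q x
    show nm (z - x) ≤ ρ / 2
    linarith
  have hg := hgood (q + w) (80 * s) (by linarith) (by
      intro z hz
      have h1 : nm (z - (q + w)) ≤ 80 * s := hz
      have h2 : z - x = (z - (q + w)) + ((q - x) + w) := by abel
      show nm (z - x) ≤ δ
      rw [h2]
      have h3 := nm_add (z - (q + w)) ((q - x) + w)
      have h4 := nm_add (q - x) w
      linarith) (by
      intro hz
      have h1 : nm (x - (q + w)) ≤ 80 * s := hz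
      have h2 : w = -(x - (q + w)) + (x - q) := by abel
      have h3 := nm_add (-(x - (q + w))) (x - q)
      rw [← h2, nm_neg, nm_sub_comm x q] at h3
      linarith) (by
      have h3 := nm_add q w
      have h4 : q = (q - x) + x := by abel
      have h5 := nm_add (q - x) x
      rw [← h4] at h5
      linarith)
  rw [show 80 * s / 80 = s by ring] at hg
  have h1 : ∀ f ∈ HK n K, Supp (D q s) f → h * f * h⁻¹ ∈ HK n K ∧
      Supp (D (q + w) s) (h * f * h⁻¹) := fun f hf hfs =>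
    ⟨HK_mul hK (HK_mul hK hhK hf) (HK_inv hK hhK), (hfs.conj h).mono (image_D himg)⟩
  have h2 := hg _ (h1 v hv hvs).1 _ (h1 u hu hus).1 (h1 v hv hvs).2 (h1 u hu hus).2
  have e1 : ⁅h * v * h⁻¹, h * u * h⁻¹⁆ = h * ⁅v, u⁆ * h⁻¹ := by
    simp only [commutatorElement_def]; group
  rw [e1] at h2
  have h3 := H.mul_mem (H.mul_mem (H.inv_mem hmem) h2) hmem
  have e2 : h⁻¹ * (h * ⁅v, u⁆ * h⁻¹) * h = ⁅v, u⁆ := by group
  rwa [e2] at h3

/-- uniform version -/
theorem uniform (hn : 0 < n) {R R' : ℝ} (hR1 : R < 1) (hRR : R' < R)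
    {H : Subgroup (E n ≃ₜ E n)} (hH : Star H) :
    ∃ η > 0, ∀ q ∈ D (0 : E n) R', Good (D 0 R) H (D q η) := by
  by_contra hcon
  push Not at hcon
  have h1 : ∀ k : ℕ, ∃ q ∈ D (0 : E n) R', ¬ Good (D 0 R) H (D q (1 / ((k : ℝ) + 1))) :=
    fun k => hcon _ (by positivity)
  choose q hq hbad using h1
  obtain ⟨x, hx, φ, hφ, hlim⟩ := (D_compact (0 : E n) R').tendsto_subseq hq
  have hx' : nm (x - 0) ≤ R' := hx
  rw [sub_zero] at hx'
  have hKQ : D (0 : E n) R ⊆ {p : E n | Q p < 1} := by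
    intro p hp
    have h2 : nm (p - 0) ≤ R := hp
    rw [sub_zero] at h2
    have h3 : 0 ≤ nm p := nm_nonneg p
    have h4 : nm p ^ 2 = Q p := Real.sq_sqrt (Q_nonneg p)
    show Q p < 1
    nlinarith
  obtain ⟨η, hη, hgood⟩ := near_all hn (D_compact 0 R) hKQ hH (x := x) (ρ0 := R - R')
    (by linarith) (by
      intro z hz
      have h2 : nm (z - x) ≤ R - R' := hz
      have h3 := nm_add (z - x) x
      rw [sub_add_cancel] at h3
      show nm (z - 0) ≤ R
      rw [sub_zero]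
      linarith) (by linarith)
  have h2 : Tendsto (fun k => nm (q (φ k) - x)) atTop (𝓝 0) := by
    have h3 : Continuous fun z : E n => nm (z - x) :=
      nm_cont.comp (continuous_id.sub continuous_const)
    have h4 := (h3.tendsto x).comp hlim
    simp only [sub_self, nm_zero] at h4
    exact h4
  have h3 : Tendsto (fun k : ℕ => 1 / (((φ k : ℕ) : ℝ) + 1)) atTop (𝓝 0) :=
    tendsto_one_div_add_atTop_nhds_zero_nat.comp hφ.tendsto_atTop
  have h4 := h2.add h3
  rw [add_zero] at h4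
  obtain ⟨k, hk⟩ := (h4.eventually (gt_mem_nhds hη)).exists
  exact hbad (φ k) (hgood _ _ (by positivity) hk.le)

end Pool.Agent.D0H34.SI
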