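import Mathlib
import Pool.Agent.D0H34.SI.Pts
import Pool.Agent.D0H34.SI.Cf

/-!
# Small index property, part 6: the smallest normal subgroup is contained in `H`
-/

set_option autoImplicit false

open Set Filter Topology Function
open Pool.Agent.Y453.HB
open Pool.Agent.R773.HN
open Pool.Agent.N235.DH
open scoped commutatorElement

namespace Pool.Agent.D0H34.SI

variable {n : ℕ}

theorem exists_rad {K : Set (E n)} (hK : IsCompact K) (hKQ : K ⊆ {p : E n | Q p < 1}) :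
    ∃ R : ℝ, 0 < R ∧ R < 1 ∧ K ⊆ D 0 R := by
  rcases K.eq_empty_or_nonempty with h | h
  · exact ⟨1 / 2, by norm_num, by norm_num, by rw [h]; exact empty_subset _⟩
  · obtain ⟨x, hx, hmax⟩ := hK.exists_isMaxOn h nm_cont.continuousOn
    refine ⟨max (nm x) (1 / 2), by positivity, max_lt (nm_lt_one (hKQ hx)) (by norm_num), ?_⟩
    intro y hy
    show nm (y - 0) ≤ _
    rw [sub_zero]
    exact (hmax hy).trans (le_max_left _ _)

theorem HK_mono {K K' : Set (E n)} (h : K ⊆ K') {f : E n ≃ₜ E n} (hf : f ∈ HK n K) :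
    f ∈ HK n K' := by
  obtain ⟨h1, u, h2, h3, h4⟩ := hf
  exact ⟨fun x hx => h1 x fun h' => hx (h h'), u, fun k x hx => h2 k x fun h' => hx (h h'), h3, h4⟩

theorem HK_list {K : Set (E n)} (hK : IsCompact K) (l : List (E n ≃ₜ E n))
    (h : ∀ v ∈ l, v ∈ HK n K) : l.prod ∈ HK n K := by
  induction l with
  | nil => exact HK_one K
  | cons v l ih =>
    rw [List.prod_cons]
    exact HK_mul hK (h v (by simp)) (ih fun w hw => h w (by simp [hw]))

theorem conj_comm (hn : 0 < n) {H : Subgroup (E n ≃ₜ E n)} (hH : Star H) {g a b : E n ≃ₜ E n}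
    (hg : g ∈ HamBar n) (ha : IsHam a) (hb : IsHam b) : g * ⁅a, b⁆ * g⁻¹ ∈ H := by
  obtain ⟨Ka, La, hKa, hKa1, hLa, hfa⟩ := cfrag ha
  obtain ⟨Kb, Lb, hKb, hKb1, hLb, hfb⟩ := cfrag hb
  obtain ⟨Kg, hKg, hKg1, hg1, ug, hug1, hug2, hug3⟩ := (mem_iff Pool.Agent.Y907.HB.mul
    Pool.Agent.Y510.HB.inv Pool.Agent.Y309.HB.uc).1 hg
  set K : Set (E n) := Ka ∪ Kb ∪ Kg with hKdef
  have hK : IsCompact K := (hKa.union hKb).union hKg
  have hKQ : K ⊆ {p : E n | Q p < 1} := union_subset (union_subset hKa1 hKb1) hKg1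
  have sa : Ka ⊆ K := fun x hx => Or.inl (Or.inl hx)
  have sb : Kb ⊆ K := fun x hx => Or.inl (Or.inr hx)
  have sg : Kg ⊆ K := fun x hx => Or.inr hx
  obtain ⟨R', hR'0, hR'1, hKR'⟩ := exists_rad hK hKQ
  obtain ⟨R, hRR, hR1⟩ := exists_between hR'1
  obtain ⟨η, hη, hgood⟩ := uniform hn hR1 hRR hH
  have hguc := ((Pool.Agent.Y309.HB.uc n).2.2.2.2 g Kg hKg hg1).1
  have hn1 : (0 : ℝ) < 2 * (n : ℝ) + 1 := by positivity
  obtain ⟨δ, hδ, hδg⟩ := Metric.uniformContinuous_iff.1 hguc (η / (2 * (n : ℝ) + 1)) (by positivity)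
  obtain ⟨ε, hε, hε1, hεδ⟩ : ∃ ε : ℝ, 0 < ε ∧ ε < 1 ∧ La * (Lb * (4 * ε + ε) + ε) < δ := by
    refine ⟨min (1 / 2) (δ / (2 * (La * (5 * Lb + 1)))), lt_min (by norm_num) (by positivity),
      lt_of_le_of_lt (min_le_left _ _) (by norm_num), ?_⟩
    set ε := min (1 / 2) (δ / (2 * (La * (5 * Lb + 1))))
    have h1 : ε ≤ δ / (2 * (La * (5 * Lb + 1))) := min_le_right _ _
    have h2 : 0 < La * (5 * Lb + 1) := by positivity
    rw [le_div_iff₀ (by positivity)] at h1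
    nlinarith
  obtain ⟨l, hl1, hl2, hl3⟩ := hfa ε hε hε1
  obtain ⟨m, hm1, hm2, hm3⟩ := hfb ε hε hε1
  rw [← hl1, ← hm1]
  refine comm_lists H g l m fun l' v m' w hl hm => ?_
  have hvl : v ∈ l := hl.subset (by simp)
  have hwm : w ∈ m := hm.subset (by simp)
  have hl' : l' <+: l := (List.prefix_append l' [v]).trans hl
  have hm' : m' <+: m := (List.prefix_append m' [w]).trans hm
  by_cases hv1 : v = 1
  · rw [hv1, commutatorElement_one_left, mul_one, mul_inv_cancel]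
    exact H.one_mem
  obtain ⟨hvH, hvK, q1, ρ1, hρ1, hρ1ε, hvD⟩ := hl2 v hvl
  obtain ⟨hwH, hwK, q2, ρ2, hρ2, hρ2ε, hwD⟩ := hm2 w hwm
  by_cases hdis : Disjoint (D q1 ρ1) (D q2 ρ2)
  · have h1 : v * w = w * v := hvD.commute hdis hwD
    rw [commutatorElement_eq_one_iff_mul_comm.2 h1, mul_one, mul_inv_cancel]
    exact H.one_mem
  rw [Set.not_disjoint_iff] at hdis
  obtain ⟨y0, hy1, hy2⟩ := hdis
  obtain ⟨z, hz⟩ := exists_moved hv1
  have hzD : z ∈ D q1 ρ1 := by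
    by_contra h
    exact hz (hvD z h)
  have hzK : z ∈ K := sa (by
    by_contra h
    exact hz (hvK z h))
  -- the conjugating element
  have hlK : l'.prod ∈ HK n K := HK_list hK l' fun u hu => by
    have h1 := hl2 u (hl'.subset hu)
    exact HK_ham h1.1 (h1.2.1.mono sa)
  have hmK : m'.prod ∈ HK n K := HK_list hK m' fun u hu => by
    have h1 := hm2 u (hm'.subset hu)
    exact HK_ham h1.1 (h1.2.1.mono sb)
  have hgK : g ∈ HK n K := HK_mono sg ⟨hg1, ug, hug1, hug2, hug3⟩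
  set c : E n ≃ₜ E n := g * l'.prod * m'.prod with hc
  have hcK : c ∈ HK n K := HK_mul hK (HK_mul hK hgK hlK) hmK
  have hcz : c z ∈ D 0 R' := hKR' (Supp.maps (f := c) hcK.1 hzK)
  have hnear : ∀ x, ‖x - z‖ ≤ 4 * ε → c x ∈ D (c z) η := by
    intro x hx
    have h1 : ‖m'.prod x - m'.prod z‖ ≤ Lb * (4 * ε + ε) :=
      (hm3 m' hm' x z).trans (mul_le_mul_of_nonneg_left (by linarith) hLb.le)
    have h2 : ‖l'.prod (m'.prod x) - l'.prod (m'.prod z)‖ ≤ La * (Lb * (4 * ε + ε) + ε) :=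
      (hl3 l' hl' _ _).trans (mul_le_mul_of_nonneg_left (by linarith) hLa.le)
    have h3 : dist (g (l'.prod (m'.prod x))) (g (l'.prod (m'.prod z))) < η / (2 * (n : ℝ) + 1) := by
      apply hδg
      rw [dist_eq_norm]
      exact lt_of_le_of_lt h2 hεδ
    rw [dist_eq_norm] at h3
    show nm (c x - c z) ≤ η
    refine (F1.nm_le _).trans ?_
    have h4 : c x - c z = g (l'.prod (m'.prod x)) - g (l'.prod (m'.prod z)) := rfl
    rw [h4]
    have h5 := mul_le_mul_of_nonneg_left h3.le hn1.le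
    rwa [mul_div_cancel₀ _ hn1.ne'] at h5
  have hn4 : ∀ x, x ∈ D q1 ρ1 ∨ x ∈ D q2 ρ2 → ‖x - z‖ ≤ 4 * ε := by
    intro x hx
    have h1 : dist y0 z ≤ 2 * ρ1 := norm_le_of_D hy1 hzD
    rw [← dist_eq_norm]
    rcases hx with hx | hx
    · have h2 : dist x z ≤ 2 * ρ1 := norm_le_of_D hx hzD
      linarith
    · have h2 : dist x y0 ≤ 2 * ρ2 := norm_le_of_D hx hy2
      have h3 := dist_triangle x y0 z
      linarith
  have hsv : Supp (D (c z) η) (c * v * c⁻¹) := (hvD.conj c).mono (by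
    rintro _ ⟨x, hx, rfl⟩
    exact hnear x (hn4 x (Or.inl hx)))
  have hsw : Supp (D (c z) η) (c * w * c⁻¹) := (hwD.conj c).mono (by
    rintro _ ⟨x, hx, rfl⟩
    exact hnear x (hn4 x (Or.inr hx)))
  have hKR : K ⊆ D 0 R := fun x hx => by
    have h : nm (x - 0) ≤ R' := hKR' hx
    show nm (x - 0) ≤ R
    linarith
  have hvc : c * v * c⁻¹ ∈ HK n (D 0 R) := HK_mono hKR
    (HK_mul hK (HK_mul hK hcK (HK_ham hvH (hvK.mono sa))) (HK_inv hK hcK))
  have hwc : c * w * c⁻¹ ∈ HK n (D 0 R) := HK_mono hKR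
    (HK_mul hK (HK_mul hK hcK (HK_ham hwH (hwK.mono sb))) (HK_inv hK hcK))
  have h1 := hgood (c z) hcz _ hvc _ hwc hsv hsw
  have e : ⁅c * v * c⁻¹, c * w * c⁻¹⁆ = c * ⁅v, w⁆ * c⁻¹ := by
    simp only [commutatorElement_def]
    group
  rwa [e] at h1

/-- **The smallest normal subgroup is contained in `H`.** -/
theorem mono_le_star (hn : 0 < n) {H : Subgroup (E n ≃ₜ E n)} (hH : Star H) :
    Mono (HamBar n) ≤ H := by
  set N : Subgroup (E n ≃ₜ E n) := Subgroup.closure {x | ∃ g ∈ HamBar n, ∃ a b : E n ≃ₜ E n,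
    IsHam a ∧ IsHam b ∧ x = g * ⁅a, b⁆ * g⁻¹} with hN
  have hmem : ∀ u : E n ≃ₜ E n, IsHam u → u ∈ HamBar n := fun u hu => isHam_mem hu
  have hnorm : NormIn (HamBar n) N := by
    refine ⟨(Subgroup.closure_le _).2 ?_, fun g hg => ?_⟩
    · rintro _ ⟨g, hg, a, b, ha, hb, rfl⟩
      exact (HamBar n).mul_mem ((HamBar n).mul_mem hg ((HamBar n).mul_mem ((HamBar n).mul_mem
        ((HamBar n).mul_mem (hmem a ha) (hmem b hb)) ((HamBar n).inv_mem (hmem a ha)))
        ((HamBar n).inv_mem (hmem b hb)))) ((HamBar n).inv_mem hg)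
    · have h1 : N ≤ N.comap (MulAut.conj g).toMonoidHom := by
        refine (Subgroup.closure_le _).2 ?_
        rintro _ ⟨k, hk, a, b, ha, hb, rfl⟩
        refine Subgroup.subset_closure ⟨g * k, (HamBar n).mul_mem hg hk, a, b, ha, hb, ?_⟩
        show g * (k * ⁅a, b⁆ * k⁻¹) * g⁻¹ = _
        group
      exact fun x hx => h1 hx
  have hne : N ≠ ⊥ := by
    intro hbot
    obtain ⟨a, b, ha, hb, -, -, hab⟩ := L3 hT hn (q := (0 : E n)) (r := 1 / 2) (by norm_num)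
      (by rw [nm_zero]; norm_num)
    have h1 : ⁅a, b⁆ ∈ N := Subgroup.subset_closure
      ⟨1, (HamBar n).one_mem, a, b, ha, hb, by group⟩
    rw [hbot, Subgroup.mem_bot] at h1
    exact hab h1
  refine (Mono_le hnorm hne).trans ((Subgroup.closure_le _).2 ?_)
  rintro _ ⟨g, hg, a, b, ha, hb, rfl⟩
  exact conj_comm hn hH hg ha hb

end Pool.Agent.D0H34.SI
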