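import Mathlib
import Pool.Agent.D0H34.SI.Fn
import Pool.Agent.R773.HN.Asm4
import Pool.Agent.R773.HN.Defs3

/-!
# Small index property, part 7: indices
-/

set_option autoImplicit false

open Set Filter Topology Function Cardinal
open Pool.Agent.Y453.HB
open Pool.Agent.R773.HN
open scoped commutatorElement

namespace Pool.Agent.D0H34.SI

variable {n : ℕ}

theorem mk_cantor : #(ℕ → Bool) = 𝔠 := by simp

/-- pigeonhole -/
theorem pigeon {A : Type} [Group A] (H : Subgroup A) (hH : #(A ⧸ H) < 𝔠) (F : (ℕ → Bool) → A) :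
    ∃ x y, x ≠ y ∧ (F x)⁻¹ * F y ∈ H := by
  by_contra hcon
  push Not at hcon
  have hinj : Injective fun x => (QuotientGroup.mk (F x) : A ⧸ H) := by
    intro x y hxy
    by_contra hne
    exact hcon x y hne (QuotientGroup.eq.1 hxy)
  have h1 := Cardinal.mk_le_of_injective hinj
  rw [mk_cantor] at h1
  exact absurd hH (not_lt.2 h1)

/-- the smallest nontrivial normal subgroup as a subgroup of the group -/
def S0 (n : ℕ) : Subgroup (HamBar n) := (Mono (HamBar n)).subgroupOf (HamBar n)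

theorem S0_le {H : Subgroup (HamBar n)} (hn : 0 < n) (hH : #(HamBar n ⧸ H) < 𝔠) : S0 n ≤ H := by
  have hstar : Star (H.map (HamBar n).subtype) := by
    intro F hF
    obtain ⟨x, y, hxy, h⟩ := pigeon H hH fun x => ⟨F x, (Mono_norm _).1 (hF x)⟩
    exact ⟨x, y, hxy, ⟨_, h, rfl⟩⟩
  intro s hs
  obtain ⟨t, ht, hts⟩ := mono_le_star hn hstar (Subgroup.mem_subgroupOf.1 hs)
  have e : t = s := Subtype.ext hts
  rwa [← e]

theorem S0_top {H : Subgroup (S0 n)} (hn : 0 < n) (hH : #(S0 n ⧸ H) < 𝔠) : H = ⊤ := by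
  have hstar : Star ((H.map (S0 n).subtype).map (HamBar n).subtype) := by
    intro F hF
    obtain ⟨x, y, hxy, h⟩ := pigeon H hH fun x =>
      ⟨⟨F x, (Mono_norm _).1 (hF x)⟩, Subgroup.mem_subgroupOf.2 (hF x)⟩
    exact ⟨x, y, hxy, ⟨_, ⟨_, h, rfl⟩, rfl⟩⟩
  rw [eq_top_iff]
  intro s _
  obtain ⟨_, ⟨t, ht, rfl⟩, hts⟩ := mono_le_star hn hstar (Subgroup.mem_subgroupOf.1 s.2)
  have e : t = s := Subtype.ext (Subtype.ext hts)
  rwa [← e]

/-- a group without proper subgroups of countable index is perfect -/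
theorem perfect_of (A : Type) [Group A] (h : ∀ H : Subgroup A, Countable (A ⧸ H) → H = ⊤) :
    commutator A = ⊤ := by
  by_contra hne
  obtain ⟨a, ha⟩ : ∃ a, a ∉ commutator A := by
    by_contra hcon
    push Not at hcon
    exact hne (eq_top_iff.2 fun a _ => hcon a)
  have h1 : Additive.ofMul (Abelianization.of a) ≠ 0 := by
    intro h2
    apply ha
    have h3 : Abelianization.of a = 1 := h2
    rwa [← MonoidHom.mem_ker, Abelianization.ker_of] at h3
  obtain ⟨c, hc⟩ := CharacterModule.exists_character_apply_ne_zero_of_ne_zero h1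
  let f : A →* Multiplicative (AddCircle (1 : ℚ)) :=
    { toFun := fun x => Multiplicative.ofAdd (c (Additive.ofMul (Abelianization.of x)))
      map_one' := by rw [map_one, ofMul_one, map_zero, ofAdd_zero]
      map_mul' := fun x y => by rw [map_mul, ofMul_mul, map_add, ofAdd_add] }
  have hcount : Countable (AddCircle (1 : ℚ)) :=
    inferInstanceAs (Countable (Quotient (QuotientAddGroup.leftRel (AddSubgroup.zmultiples (1 : ℚ)))))
  have hcount2 : Countable (Multiplicative (AddCircle (1 : ℚ))) := hcount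
  have h2 : Countable (A ⧸ f.ker) := (QuotientGroup.kerLift_injective f).countable
  have h3 := h _ h2
  have h4 : a ∈ f.ker := by rw [h3]; exact Subgroup.mem_top a
  exact hc h4

theorem mk_E_le : #(E n) ≤ 𝔠 := by
  have h : #(Fin n → ℝ) ≤ 𝔠 := by
    rw [Cardinal.mk_arrow, Cardinal.mk_real, Cardinal.lift_id, Cardinal.lift_id, Cardinal.mk_fin]
    calc 𝔠 ^ (n : Cardinal) ≤ 𝔠 ^ ℵ₀ :=
          Cardinal.power_le_power_left Cardinal.continuum_ne_zero (Cardinal.natCast_le_aleph0)
      _ = 𝔠 := Cardinal.continuum_power_aleph0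
  calc #(E n) = #(Fin n → ℝ) * #(Fin n → ℝ) := by rw [Cardinal.mk_prod, Cardinal.lift_id]
    _ ≤ 𝔠 * 𝔠 := mul_le_mul' h h
    _ = 𝔠 := Cardinal.continuum_mul_self

theorem mk_homeo_le : #(E n ≃ₜ E n) ≤ 𝔠 := by
  have hinj : Injective fun (f : E n ≃ₜ E n) (k : ℕ) => f (TopologicalSpace.denseSeq (E n) k) := by
    intro f g hfg
    have h1 : (f : E n → E n) = g :=
      (TopologicalSpace.denseRange_denseSeq (E n)).equalizer f.continuous g.continuous
        (funext fun k => congrFun hfg k)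
    exact Homeomorph.ext fun x => congrFun h1 x
  refine (Cardinal.mk_le_of_injective hinj).trans ?_
  rw [Cardinal.mk_arrow, Cardinal.mk_nat, Cardinal.lift_id, Cardinal.lift_id]
  exact (Cardinal.power_le_power_right mk_E_le).trans Cardinal.continuum_power_aleph0.le

theorem lt_continuum_of_countable (A : Type) (hA : Countable A) : #A < 𝔠 :=
  (Cardinal.mk_le_aleph0_iff.2 hA).trans_lt Cardinal.aleph0_lt_continuum

theorem ne_bot_of_simple {G : Type} [Group G] {S : Subgroup G} (s2 : IsSimpleGroup S) : S ≠ ⊥ := by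
  rintro rfl
  have := s2.toNontrivial
  exact not_subsingleton _ (inferInstance : Subsingleton (⊥ : Subgroup G))

theorem tfae_frag {G : Type} [Group G] {S F : Subgroup G} (s1 : S.Normal) (s2 : IsSimpleGroup S)
    (h5 : ∀ H : Subgroup S, #(S ⧸ H) < 𝔠 → H = ⊤) (hF : F.Normal) (h7 : S = ⁅F, F⁆) :
    [IsSimpleGroup F, ∀ H : Subgroup F, #(F ⧸ H) < 𝔠 → H = ⊤,
      ∀ H : Subgroup F, Countable (F ⧸ H) → H = ⊤].TFAE := by
  tfae_have 1 → 2 := by
    intro hs
    have hSF : S ≤ F := by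
      rw [h7]
      exact Subgroup.commutator_le_left F F
    have hN : (S.subgroupOf F).Normal := inferInstance
    rcases hs.eq_bot_or_eq_top_of_normal _ hN with h | h
    · exfalso
      apply ne_bot_of_simple s2
      rw [eq_bot_iff]
      intro x hx
      have h9 : (⟨x, hSF hx⟩ : F) ∈ S.subgroupOf F := Subgroup.mem_subgroupOf.2 hx
      rw [h, Subgroup.mem_bot] at h9
      rw [Subgroup.mem_bot]
      exact congrArg Subtype.val h9
    · have h9 : S = F := le_antisymm hSF (Subgroup.subgroupOf_eq_top.1 h)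
      rw [← h9]
      exact h5
  tfae_have 2 → 3 := fun h H hH => h H (lt_continuum_of_countable _ hH)
  tfae_have 3 → 1 := by
    intro h
    have h9 := perfect_of F h
    have h10 : ⁅F, F⁆ = F := by
      rw [← Subgroup.map_subtype_commutator, h9, ← MonoidHom.range_eq_map,
        Subgroup.range_subtype]
    rw [h10] at h7
    rw [← h7]
    exact s2
  tfae_finish

theorem tfae_all {G : Type} [Group G] {S F : Subgroup G} (s1 : S.Normal) (s2 : IsSimpleGroup S)
    (h6 : ∀ H : Subgroup G, #(G ⧸ H) < 𝔠 → S ≤ H)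
    (h8 : IsSimpleGroup G ↔ F = ⊤ ∧ commutator G = ⊤) :
    [IsSimpleGroup G, F = ⊤ ∧ ∀ H : Subgroup G, #(G ⧸ H) < 𝔠 → H = ⊤,
      F = ⊤ ∧ ∀ H : Subgroup G, Countable (G ⧸ H) → H = ⊤].TFAE := by
  tfae_have 1 → 2 := by
    intro hs
    refine ⟨(h8.1 hs).1, fun H hH => ?_⟩
    have h9 : S = ⊤ := (hs.eq_bot_or_eq_top_of_normal S s1).resolve_left (ne_bot_of_simple s2)
    have h10 := h6 H hH
    rw [h9] at h10
    exact top_le_iff.1 h10
  tfae_have 2 → 3 := fun h => ⟨h.1, fun H hH => h.2 H (lt_continuum_of_countable _ hH)⟩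
  tfae_have 3 → 1 := fun h => h8.2 ⟨h.1, perfect_of _ h.2⟩
  tfae_finish

theorem act_of {G : Type} [Group G] {S : Subgroup G} (h6 : ∀ H : Subgroup G, #(G ⧸ H) < 𝔠 → S ≤ H)
    (X : Type) [MulAction G X] (hX : #X < 𝔠) (s : G) (hs : s ∈ S) (x : X) : s • x = x := by
  have h7 : #(G ⧸ MulAction.stabilizer G x) < 𝔠 := by
    rw [← Cardinal.mk_congr (MulAction.orbitEquivQuotientStabilizer G x)]
    exact (Cardinal.mk_subtype_le _).trans_lt hX
  exact h6 _ h7 hs

theorem mk_S (hn : 0 < n) {S : Subgroup (HamBar n)} (s2 : IsSimpleGroup S)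
    (h5 : ∀ H : Subgroup S, #(S ⧸ H) < 𝔠 → H = ⊤) : #S = 𝔠 := by
  refine le_antisymm ?_ ?_
  · refine le_trans ?_ (mk_homeo_le (n := n))
    exact Cardinal.mk_le_of_injective
      (f := fun s : S => ((s : HamBar n) : E n ≃ₜ E n)) fun a b h => Subtype.ext (Subtype.ext h)
  · by_contra hcon
    push Not at hcon
    have h7 : #(S ⧸ (⊥ : Subgroup S)) < 𝔠 :=
      (Cardinal.mk_le_of_surjective (QuotientGroup.mk_surjective)).trans_lt hcon
    have h8 := h5 ⊥ h7
    have := s2.toNontrivial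
    exact bot_ne_top h8

end Pool.Agent.D0H34.SI
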