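import Mathlib
import Pool.Agent.D0H34.SI.Fn

/-!
# Length functions, part 1: commutators supported in small balls are short
-/

set_option autoImplicit false

open Set Filter Topology Function
open Pool.Agent.Y453.HB
open Pool.Agent.R773.HN
open Pool.Agent.N235.DH
open scoped commutatorElement

namespace Pool.Agent.D0H34.SI

variable {n : ℕ}

/-- an increasing sequence of symmetric sets with `W m * W m ⊆ W (m + 1)` that covers the smallest
normal subgroup -/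
structure Chain (W : ℕ → Set (E n ≃ₜ E n)) : Prop where
  mono : Monotone W
  mul : ∀ m x y, x ∈ W m → y ∈ W m → x * y ∈ W (m + 1)
  inv : ∀ m x, x ∈ W m → x⁻¹ ∈ W m
  cover : ∀ s ∈ Mono (HamBar n), ∃ m, s ∈ W m

/-- all commutators of elements supported in `A` are in `T` -/
def GoodW (K : Set (E n)) (T : Set (E n ≃ₜ E n)) (A : Set (E n)) : Prop :=
  ∀ v ∈ HK n K, ∀ w ∈ HK n K, Supp A v → Supp A w → ⁅v, w⁆ ∈ T

theorem seq_balls (hn : 0 < n) {q : E n} {s : ℝ} (hs : 0 < s) (hs2 : s ≤ 1 / 2)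
    (hq : nm q + s < 1) : ∃ (p : ℕ → E n) (r : ℕ → ℝ), (∀ k, 0 < r k) ∧
      (∀ k, r k ≤ (1 / 2) ^ (k + 1)) ∧ (∀ k, D (p k) (r k) ⊆ D q (s / 2)) ∧
      (∀ k, nm (p k) + r k < 1) ∧ ∀ j k, j ≠ k → Disjoint (D (p j) (r j)) (D (p k) (r k)) := by
  obtain ⟨e, he⟩ := exists_vec hn (show (0 : ℝ) < 1 / 4 by norm_num)
  set p : ℕ → E n := fun k => q + (s * (1 / 2) ^ k) • e with hp
  set r : ℕ → ℝ := fun k => s * (1 / 2) ^ k / 32 with hr
  have hr0 : ∀ k, 0 < r k := fun k => by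
    have : (0 : ℝ) < (1 / 2) ^ k := by positivity
    simp only [hr]; positivity
  have hpow : ∀ k : ℕ, (1 / 2 : ℝ) ^ k ≤ 1 := fun k => pow_le_one₀ (by norm_num) (by norm_num)
  have hsubk : ∀ k, D (p k) (r k) ⊆ D q (s / 2) := by
    intro k x hx
    have h1 : nm (x - p k) ≤ r k := hx
    have h2 := nm_tri x (p k) q
    have h3 : p k - q = (s * (1 / 2) ^ k) • e := by simp only [hp]; abel
    have h4 : (0 : ℝ) < s * (1 / 2) ^ k := by positivity
    rw [h3, nm_smul, he, abs_of_pos h4] at h2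
    have h5 := hpow k
    have h6 : s * (1 / 2) ^ k ≤ s := mul_le_of_le_one_right hs.le h5
    show nm (x - q) ≤ s / 2
    simp only [hr] at h1
    linarith
  have hnmp : ∀ k, nm (p k) + r k < 1 := by
    intro k
    have h1 : nm (p k) ≤ nm q + s * (1 / 2) ^ k * (1 / 4) := by
      have h2 := nm_add q ((s * (1 / 2) ^ k) • e)
      have h4 : (0 : ℝ) < s * (1 / 2) ^ k := by positivity
      rwa [nm_smul, he, abs_of_pos h4] at h2
    have h5 := hpow k
    have h6 : s * (1 / 2) ^ k ≤ s := mul_le_of_le_one_right hs.le h5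
    simp only [hr]
    linarith
  have hdis : ∀ j k, j ≠ k → Disjoint (D (p j) (r j)) (D (p k) (r k)) := by
    have key : ∀ j k, j < k → Disjoint (D (p j) (r j)) (D (p k) (r k)) := by
      intro j k hjk
      rw [Set.disjoint_left]
      intro y hy hy'
      have h1 : nm (y - p j) ≤ r j := hy
      have h2 : nm (y - p k) ≤ r k := hy'
      have h3 := nm_tri (p j) y (p k)
      have h4 : p j - p k = (s * (1 / 2) ^ j - s * (1 / 2) ^ k) • e := by
        simp only [hp]; rw [sub_smul]; abel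
      have h5 : (1 / 2 : ℝ) ^ k ≤ (1 / 2) ^ (j + 1) :=
        pow_le_pow_of_le_one (by norm_num) (by norm_num) hjk
      rw [pow_succ] at h5
      have h6 : (0 : ℝ) < (1 / 2) ^ j := by positivity
      have h7 : s * (1 / 2) ^ k ≤ s * ((1 / 2) ^ j * (1 / 2)) := mul_le_mul_of_nonneg_left h5 hs.le
      have h8 : 0 < s * (1 / 2) ^ j := by positivity
      rw [h4, nm_smul, he, nm_sub_comm (p j) y, abs_of_nonneg (by nlinarith)] at h3
      simp only [hr] at h1 h2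
      nlinarith
    intro j k hjk
    rcases lt_or_gt_of_ne hjk with h | h
    · exact key j k h
    · exact (key k j h).symm
  have hr2 : ∀ k, r k ≤ (1 / 2) ^ (k + 1) := by
    intro k
    have h6 : (0 : ℝ) < (1 / 2) ^ k := by positivity
    have h7 : s * (1 / 2) ^ k ≤ 1 / 2 * (1 / 2) ^ k := mul_le_mul_of_nonneg_right hs2 h6.le
    simp only [hr]
    rw [pow_succ]
    linarith
  exact ⟨p, r, hr0, hr2, hsubk, hnmp, hdis⟩

/-- one of the sets realises all the commutators on one of the balls -/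
theorem fillW (hn : 0 < n) {W : ℕ → Set (E n ≃ₜ E n)} (hW : Chain W) {K : Set (E n)}
    (hK : IsCompact K) (hKQ : K ⊆ {p : E n | Q p < 1}) {x0 : E n} {δ0 : ℝ} (hδ : 0 < δ0)
    (hδ2 : δ0 < 1 / 2) (hx0 : nm x0 + δ0 < 1) (hsub : D x0 δ0 ⊆ K) (q : ℕ → E n) (s : ℕ → ℝ)
    (hs2 : ∀ i, s i ≤ (1 / 2) ^ (i + 1)) (hD : ∀ i, D (q i) (s i) ⊆ D x0 δ0)
    (hdis : ∀ i j, i ≠ j → Disjoint (D (q i) (s i)) (D (q j) (s j))) :
    ∃ i, ∀ a ∈ HK n K, ∀ b ∈ HK n K, Supp (D (q i) (s i)) a → Supp (D (q i) (s i)) b →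
      ∃ h ∈ W i, Loc (D (q i) (s i)) h ⁅a, b⁆ := by
  by_contra hcon
  push Not at hcon
  choose a ha b hb has hbs hab using hcon
  obtain ⟨F, hF1, -, hF3⟩ := fam hn hK hKQ hδ hδ2 hx0 hsub q s hs2 hD hdis a b ha hb has hbs
  obtain ⟨m, hm⟩ := hW.cover _ (hF1 fun _ => true)
  refine hab m _ hm ?_
  have h1 := hF3 (fun _ => true) m
  rwa [if_pos rfl] at h1

theorem disp_comm {A : Set (E n)} {f g u : E n ≃ₜ E n} (hf : Supp A f) (hg : Supp A g)
    (hd : Disjoint (u '' A) A) : ⁅f, g⁆ =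
      (f * u * f⁻¹) * u⁻¹ * (g * u * g⁻¹) * ((g * f) * u⁻¹ * (g * f)⁻¹) := by
  set b := u * f⁻¹ * u⁻¹ with hb
  have sb : Supp (u '' A) b := hf.inv.conj u
  have c1 : b * g = g * b := sb.commute hd hg
  have e1 : f * u * f⁻¹ * u⁻¹ = f * b := by rw [hb]; group
  have e2 : (g * u * g⁻¹) * ((g * f) * u⁻¹ * (g * f)⁻¹) = g * b⁻¹ * f⁻¹ * g⁻¹ := by
    rw [hb]; group
  rw [mul_assoc (f * u * f⁻¹ * u⁻¹), e1, e2, commutatorElement_def]
  calc f * g * f⁻¹ * g⁻¹ = f * (g * b) * b⁻¹ * f⁻¹ * g⁻¹ := by group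
    _ = f * b * (g * b⁻¹ * f⁻¹ * g⁻¹) := by rw [← c1]; group

theorem Chain.mul' {W : ℕ → Set (E n ≃ₜ E n)} (hW : Chain W) {i j m : ℕ} {x y : E n ≃ₜ E n}
    (hx : x ∈ W i) (hy : y ∈ W j) (hi : i ≤ m) (hj : j ≤ m) : x * y ∈ W (m + 1) :=
  hW.mul m x y (hW.mono hi hx) (hW.mono hj hy)

/-- every ball contains a good ball -/
theorem good_in (hn : 0 < n) {W : ℕ → Set (E n ≃ₜ E n)} (hW : Chain W) {K : Set (E n)}
    (hK : IsCompact K) (hKQ : K ⊆ {p : E n | Q p < 1}) {q : E n} {s : ℝ} (hs : 0 < s)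
    (hs2 : s ≤ 1 / 2) (hq : nm q + s < 1) (hsub : D q s ⊆ K) :
    ∃ (p : E n) (r : ℝ) (m : ℕ), 0 < r ∧ D p r ⊆ D q s ∧ p ∈ D q s ∧ GoodW K (W m) (D p r) := by
  obtain ⟨p, r, hr0, hr2, hD, hnm, hdis⟩ := seq_balls hn hs hs2 hq
  have hss : D q (s / 2) ⊆ D q s := fun x hx => by
    have h : nm (x - q) ≤ s / 2 := hx
    show nm (x - q) ≤ s
    linarith
  obtain ⟨i, hi⟩ := fillW hn hW hK hKQ (x0 := q) (δ0 := s / 2) (by linarith) (by linarith)
    (by linarith) (hss.trans hsub) p r hr2 hD hdis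
  have hDK : D (p i) (r i) ⊆ K := ((hD i).trans hss).trans hsub
  obtain ⟨a, b, ha, hb, has, hbs, hab⟩ := L3 hT hn (q := p i) (r := r i / 2)
    (half_pos (hr0 i)) (by linarith [hnm i, hr0 i])
  set u : E n ≃ₜ E n := ⁅a, b⁆ with hu
  have hus2 : Supp (D (p i) (r i / 2)) u := has.comm hbs
  have hhalf : D (p i) (r i / 2) ⊆ D (p i) (r i) := fun x hx => by
    have h : nm (x - p i) ≤ r i / 2 := hx
    show nm (x - p i) ≤ r i
    linarith [hr0 i]
  have hus : Supp (D (p i) (r i)) u := hus2.mono hhalf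
  obtain ⟨j, hj⟩ := hW.cover u (hCo n hn _ midB _ _ ha hb)
  obtain ⟨z, hz⟩ := exists_moved hab
  have hzD : z ∈ D (p i) (r i / 2) := by
    by_contra h
    exact hz (hus2 z h)
  have hz1 : nm z < 1 := by
    have h1 : nm (z - p i) ≤ r i / 2 := hzD
    have h2 := nm_add (z - p i) (p i)
    rw [sub_add_cancel] at h2
    linarith [hnm i, hr0 i]
  have hnhds : D (p i) (r i) ∈ 𝓝 z := by
    obtain ⟨ρ, hρ, h1⟩ := D_nhds z (half_pos (hr0 i))
    refine mem_of_superset (Metric.closedBall_mem_nhds z hρ) (h1.trans ?_)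
    intro y hy
    have h2 : nm (y - z) ≤ r i / 2 := hy
    have h3 : nm (z - p i) ≤ r i / 2 := hzD
    have h4 := nm_tri y z (p i)
    show nm (y - p i) ≤ r i
    linarith
  obtain ⟨ρ, hρ, hzρ, hρD, hd⟩ := displaced hz hnhds hz1
  obtain ⟨κ, κ', hκ, hκ', hκs, hκs', h1, h2, h3⟩ := copies hn hρ hzρ
  have hρ8 : D z (ρ / 8) ⊆ D z ρ := fun x hx => by
    have h : nm (x - z) ≤ ρ / 8 := hx
    show nm (x - z) ≤ ρ
    linarith
  refine ⟨z, ρ / 8, max i j + 6, by linarith, (hρ8.trans hρD).trans ((hD i).trans hss),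
    hss (hD i (hhalf hzD)), ?_⟩
  intro v hv w hw hvs hws
  have hκK : κ ∈ HK n K := HK_ham hκ (hκs.mono (hρD.trans hDK))
  have hκK' : κ' ∈ HK n K := HK_ham hκ' (hκs'.mono (hρD.trans hDK))
  have sv : Supp (D z ρ) ⁅v, κ⁆ := (hvs.mono hρ8).comm hκs
  have sw : Supp (D z ρ) ⁅w, κ'⁆ := (hws.mono hρ8).comm hκs'
  obtain ⟨hv', hvW, hvL⟩ := hi v hv κ hκK (hvs.mono (hρ8.trans hρD)) (hκs.mono hρD)
  obtain ⟨hw', hwW, hwL⟩ := hi w hw κ' hκK' (hws.mono (hρ8.trans hρD)) (hκs'.mono hρD)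
  rw [← twist hvs hws h1 h2 h3, disp_comm sv sw hd, ← hvL.conj hus, ← hwL.conj hus,
    ← (hwL.mul hvL).conj hus.inv]
  set M := max i j with hM
  have iM : i ≤ M := le_max_left _ _
  have jM : j ≤ M := le_max_right _ _
  have m1 : hv' * u ∈ W (M + 1) := hW.mul' hvW hj iM jM
  have m2 : hv' * u * hv'⁻¹ ∈ W (M + 2) :=
    hW.mul' m1 (hW.inv _ _ hvW) le_rfl (by omega)
  have m3 : hv' * u * hv'⁻¹ * u⁻¹ ∈ W (M + 3) :=
    hW.mul' m2 (hW.inv _ _ hj) le_rfl (by omega)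
  have m4 : hw' * u ∈ W (M + 1) := hW.mul' hwW hj iM jM
  have m5 : hw' * u * hw'⁻¹ ∈ W (M + 2) :=
    hW.mul' m4 (hW.inv _ _ hwW) le_rfl (by omega)
  have m6 : hv' * u * hv'⁻¹ * u⁻¹ * (hw' * u * hw'⁻¹) ∈ W (M + 4) :=
    hW.mul' m3 m5 le_rfl (by omega)
  have m7 : hw' * hv' ∈ W (M + 1) := hW.mul' hwW hvW iM iM
  have m8 : hw' * hv' * u⁻¹ ∈ W (M + 2) :=
    hW.mul' m7 (hW.inv _ _ hj) le_rfl (by omega)
  have m9 : hw' * hv' * u⁻¹ * (hw' * hv')⁻¹ ∈ W (M + 3) :=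
    hW.mul' m8 (hW.inv _ _ m7) le_rfl (by omega)
  exact hW.mono (by omega) (hW.mul' m6 m9 le_rfl (by omega))

/-- all small balls near `x` -/
theorem nearW (hn : 0 < n) {W : ℕ → Set (E n ≃ₜ E n)} (hW : Chain W) {K : Set (E n)}
    (hK : IsCompact K) (hKQ : K ⊆ {p : E n | Q p < 1}) {x : E n} {ρ0 : ℝ}
    (hρ0 : 0 < ρ0) (hρK : D x ρ0 ⊆ K) (hx : nm x < 1) :
    ∃ η > 0, ∃ m, GoodW K (W m) (D x η) := by
  obtain ⟨ρ, hρ, hρ1, hρ2, hρ3⟩ : ∃ ρ : ℝ, 0 < ρ ∧ 16 * ρ ≤ ρ0 ∧ nm x + 17 * ρ < 1 ∧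
      ρ ≤ 1 / 2 := by
    refine ⟨min (min (ρ0 / 16) ((1 - nm x) / 20)) (1 / 2),
      lt_min (lt_min (by linarith) (by linarith)) (by norm_num), ?_, ?_, min_le_right _ _⟩
    · have := (min_le_left (min (ρ0 / 16) ((1 - nm x) / 20)) (1 / 2)).trans (min_le_left _ _)
      linarith
    · have := (min_le_left (min (ρ0 / 16) ((1 - nm x) / 20)) (1 / 2)).trans (min_le_right _ _)
      linarith
  obtain ⟨p, r, m, hr, hpr, hpx, hgood⟩ := good_in hn hW hK hKQ (q := x) (s := ρ) hρ hρ3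
    (by linarith) ((D_mono (by linarith)).trans hρK)
  obtain ⟨e, he⟩ := exists_vec hn one_pos
  have hpx' : nm (p - x) ≤ ρ := hpx
  obtain ⟨κ, hκ1, hκ2, hκ3⟩ := hT n x x (p - x) ρ (4 * ρ) hρ (by linarith)
    (by rw [sub_self, nm_zero]; linarith) (by rw [add_sub_cancel_left]; linarith)
  obtain ⟨ψ, hψ1, hψ2, hψ3⟩ := hT n x x ((10 * ρ) • e) (4 * ρ) (16 * ρ) (by linarith)
    (by linarith) (by rw [sub_self, nm_zero]; linarith) (by
      rw [add_sub_cancel_left, nm_smul, he, abs_of_pos (by linarith)]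
      linarith)
  have hψd : Disjoint (ψ '' D x (4 * ρ)) (D x (4 * ρ)) := by
    have h0 : D x (4 * ρ) = D (x + 0) (4 * ρ) := by rw [add_zero]
    refine Disjoint.mono (image_D hψ3) (le_of_eq h0) (D_disj ?_)
    rw [sub_zero, nm_smul, he, abs_of_pos (by linarith)]
    linarith
  set h : E n ≃ₜ E n := ⁅κ, ψ⁆ with hh
  have hhx : ∀ z ∈ D x ρ, h z = z + (p - x) := by
    intro z hz
    have e1 : h = κ * (ψ * κ⁻¹ * ψ⁻¹) := by rw [hh, commutatorElement_def]; group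
    have h1 : Supp (ψ '' D x (4 * ρ)) (ψ * κ⁻¹ * ψ⁻¹) := hκ2.inv.conj ψ
    rw [e1, mul_apply, h1 z, hκ3 z hz]
    exact fun h => Set.disjoint_left.1 hψd h (D_mono (by linarith) hz)
  obtain ⟨j, hj⟩ := hW.cover h (hCo n hn _ midB _ _ hκ1 hψ1)
  have hhK : h ∈ HK n K := by
    refine HK_ham ((HamC n).mul_mem ((HamC n).mul_mem ((HamC n).mul_mem hκ1 hψ1)
      ((HamC n).inv_mem hκ1)) ((HamC n).inv_mem hψ1)) ?_
    exact ((hκ2.mono (D_mono (by linarith))).comm hψ2).mono ((D_mono hρ1).trans hρK)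
  refine ⟨min r ρ, lt_min hr hρ, max m j + 2, ?_⟩
  intro v hv w hw hvs hws
  have himg : h '' D x (min r ρ) ⊆ D p r := by
    have h1 : ∀ z ∈ D x (min r ρ), h z = z + (p - x) := fun z hz =>
      hhx z (D_mono (min_le_right _ _) hz)
    refine (image_D h1).trans ?_
    rw [add_sub_cancel]
    exact D_mono (min_le_left _ _)
  have h1 : ∀ f ∈ HK n K, Supp (D x (min r ρ)) f → h * f * h⁻¹ ∈ HK n K ∧
      Supp (D p r) (h * f * h⁻¹) := fun f hf hfs =>
    ⟨HK_mul hK (HK_mul hK hhK hf) (HK_inv hK hhK), (hfs.conj h).mono himg⟩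
  have h2 := hgood _ (h1 v hv hvs).1 _ (h1 w hw hws).1 (h1 v hv hvs).2 (h1 w hw hws).2
  have e1 : ⁅v, w⁆ = h⁻¹ * ⁅h * v * h⁻¹, h * w * h⁻¹⁆ * h := by
    simp only [commutatorElement_def]; group
  rw [e1]
  have m1 := hW.mul' (m := max m j) (hW.inv _ _ hj) h2 (le_max_right _ _) (le_max_left _ _)
  exact hW.mul' m1 hj le_rfl ((le_max_right _ _).trans (Nat.le_succ _))

/-- uniform version -/
theorem uniformW (hn : 0 < n) {W : ℕ → Set (E n ≃ₜ E n)} (hW : Chain W) {R R' : ℝ}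
    (hR1 : R < 1) (hRR : R' < R) :
    ∃ η > 0, ∃ m, ∀ q ∈ D (0 : E n) R', GoodW (D 0 R) (W m) (D q η) := by
  by_contra hcon
  push Not at hcon
  have h1 : ∀ k : ℕ, ∃ q ∈ D (0 : E n) R', ¬ GoodW (D 0 R) (W k) (D q (1 / ((k : ℝ) + 1))) :=
    fun k => hcon _ (by positivity) k
  choose q hq hbad using h1
  obtain ⟨x, hx, φ, hφ, hlim⟩ := (D_compact (0 : E n) R').tendsto_subseq hq
  have hx' : nm (x - 0) ≤ R' := hx
  rw [sub_zero] at hx'
  have hKQ : D (0 : E n) R ⊆ {p : E n | Q p < 1} := by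
    intro p hp
    have h2 : nm (p - 0) ≤ R := hp
    rw [sub_zero] at h2
    have h3 : 0 ≤ nm p := nm_nonneg p
    have h4 : nm p ^ 2 = Q p := Real.sq_sqrt (Q_nonneg p)
    show Q p < 1
    nlinarith
  obtain ⟨η, hη, m, hgood⟩ := nearW hn hW (D_compact 0 R) hKQ (x := x) (ρ0 := R - R')
    (by linarith) (by
      intro z hz
      have h2 : nm (z - x) ≤ R - R' := hz
      have h3 := nm_add (z - x) x
      rw [sub_add_cancel] at h3
      show nm (z - 0) ≤ R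
      rw [sub_zero]
      linarith) (by linarith)
  have h2 : Tendsto (fun k => nm (q (φ k) - x)) atTop (𝓝 0) := by
    have h3 : Continuous fun z : E n => nm (z - x) :=
      nm_cont.comp (continuous_id.sub continuous_const)
    have h4 := (h3.tendsto x).comp hlim
    simp only [sub_self, nm_zero] at h4
    exact h4
  have h3 : Tendsto (fun k : ℕ => 1 / (((φ k : ℕ) : ℝ) + 1)) atTop (𝓝 0) :=
    tendsto_one_div_add_atTop_nhds_zero_nat.comp hφ.tendsto_atTop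
  have h4 := h2.add h3
  rw [add_zero] at h4
  obtain ⟨k, hk, hkm⟩ := ((h4.eventually (gt_mem_nhds hη)).and
    (hφ.tendsto_atTop.eventually_ge_atTop m)).exists
  refine hbad (φ k) fun v hv w hw hvs hws => hW.mono hkm (hgood v hv w hw ?_ ?_)
  · refine hvs.mono fun z hz => ?_
    have h5 : nm (z - q (φ k)) ≤ 1 / (((φ k : ℕ) : ℝ) + 1) := hz
    have h6 := nm_tri z (q (φ k)) x
    show nm (z - x) ≤ η
    linarith
  · refine hws.mono fun z hz => ?_
    have h5 : nm (z - q (φ k)) ≤ 1 / (((φ k : ℕ) : ℝ) + 1) := hz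
    have h6 := nm_tri z (q (φ k)) x
    show nm (z - x) ≤ η
    linarith

/-- version for arbitrary compact sets -/
theorem compactW (hn : 0 < n) {W : ℕ → Set (E n ≃ₜ E n)} (hW : Chain W) {K : Set (E n)}
    (hK : IsCompact K) (hKQ : K ⊆ {p : E n | Q p < 1}) :
    ∃ η > 0, ∃ m, ∀ q : E n, GoodW K (W m) (D q η) := by
  obtain ⟨R', hR'0, hR'1, hKR'⟩ := exists_rad hK hKQ
  obtain ⟨R, hRR, hR1⟩ := exists_between hR'1
  obtain ⟨η, hη, m, h⟩ := uniformW hn hW hR1 hRR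
  have hKR : K ⊆ D 0 R := hKR'.trans (D_mono hRR.le)
  obtain ⟨j, hj⟩ := hW.cover 1 (Mono (HamBar n)).one_mem
  refine ⟨η / 2, half_pos hη, max m j, fun q v hv w hw hvs hws => ?_⟩
  by_cases hv1 : v = 1
  · rw [hv1, commutatorElement_one_left]
    exact hW.mono (le_max_right _ _) hj
  obtain ⟨z, hz⟩ := exists_moved hv1
  have hzD : z ∈ D q (η / 2) := by
    by_contra h
    exact hz (hvs z h)
  have hzK : z ∈ K := by
    by_contra h
    exact hz (hv.1 z h)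
  have hsub : D q (η / 2) ⊆ D z η := by
    intro y hy
    have h1 : nm (y - q) ≤ η / 2 := hy
    have h2 : nm (z - q) ≤ η / 2 := hzD
    have h3 := nm_tri y q z
    rw [nm_sub_comm q z] at h3
    show nm (y - z) ≤ η
    linarith
  exact hW.mono (le_max_left _ _) (h z (hKR' hzK) v (HK_mono hKR hv) w (HK_mono hKR hw)
    (hvs.mono hsub) (hws.mono hsub))

end Pool.Agent.D0H34.SI
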