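import Mathlib
import Pool.Agent.D0H34.SI.Ln

/-!
# Length functions, part 2: fragmentation of conjugates of commutators
-/

set_option autoImplicit false

open Set Filter Topology Function
open Pool.Agent.Y453.HB
open Pool.Agent.R773.HN
open Pool.Agent.N235.DH
open scoped commutatorElement

namespace Pool.Agent.D0H34.SI

variable {n : ℕ}

/-- `φ` is the time one map of the flow of a Hamiltonian supported in `K` -/
def GenIn (K : Set (E n)) (φ : E n ≃ₜ E n) : Prop := ∃ H : ℝ → E n → ℝ, HamOn H K ∧ IsFl H 0 1 φ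

/-- **Fragmentation with control of the partial products.** -/
theorem cfragK {K : Set (E n)} {φ : E n ≃ₜ E n} (hφ : GenIn K φ) :
    ∃ L : ℝ, 0 < L ∧ ∀ ε : ℝ, 0 < ε → ε < 1 → ∃ l : List (E n ≃ₜ E n), l.prod = φ ∧
      (∀ v ∈ l, Sml K ε v) ∧
        ∀ l', l' <+: l → ∀ x y, ‖l'.prod x - l'.prod y‖ ≤ L * (‖x - y‖ + ε) := by
  obtain ⟨H, hH, hφ1⟩ := hφ
  obtain ⟨C, hC0, hCb, hCL, -⟩ := bd n H hH.1 K hH.2.1 hH.2.2.2
  have hexp : 1 ≤ Real.exp C := Real.one_le_exp hC0
  refine ⟨2 * Real.exp C, by positivity, fun ε hε hε1 => ?_⟩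
  obtain ⟨δ, hδ, hfr⟩ := slice hH hε hε1
  obtain ⟨m, hm⟩ := exists_nat_gt (1 / δ)
  have hm0 : (0 : ℝ) < m := lt_trans (by positivity) hm
  have hmδ : 1 / (m : ℝ) ≤ δ := by
    rw [div_le_iff₀ hm0]
    rw [div_lt_iff₀ hδ] at hm
    linarith
  have key : ∀ k : ℕ, k ≤ m → ∀ Φ : E n ≃ₜ E n, IsFl H (1 - (k : ℝ) / m) 1 Φ →
      ∃ l : List (E n ≃ₜ E n), l.prod = Φ ∧ (∀ v ∈ l, Sml K ε v) ∧
        ∀ l', l' <+: l → ∀ x y, ‖l'.prod x - l'.prod y‖ ≤ 2 * Real.exp C * (‖x - y‖ + ε) := by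
    intro k
    induction k with
    | zero =>
      intro _ Φ hΦ
      have e : Φ = 1 := by
        ext x : 1
        obtain ⟨γ, h1, h2, -⟩ := hΦ x
        rw [Nat.cast_zero, zero_div, sub_zero] at h1
        rw [← h2, h1]
        rfl
      refine ⟨[], by rw [e]; rfl, by simp, fun l' hl' x y => ?_⟩
      rw [List.prefix_nil.1 hl']
      show ‖x - y‖ ≤ _
      have := norm_nonneg (x - y)
      nlinarith
    | succ k ih =>
      intro hk Φ hΦ
      have hk' : (k : ℝ) / m ≤ 1 := by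
        rw [div_le_one hm0]
        exact_mod_cast (by omega : k ≤ m)
      have hk'' : ((k + 1 : ℕ) : ℝ) / m ≤ 1 := by
        rw [div_le_one hm0]
        exact_mod_cast hk
      have hstep : ((k + 1 : ℕ) : ℝ) / m = (k : ℝ) / m + 1 / m := by
        push_cast; ring
      have hkp : (0 : ℝ) ≤ (k : ℝ) / m := by positivity
      have hmp : (0 : ℝ) ≤ 1 / (m : ℝ) := by positivity
      have ht0 : (0 : ℝ) ≤ 1 - (k : ℝ) / m := by linarith
      have ht1 : 1 - (k : ℝ) / m ≤ 1 := by linarith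
      obtain ⟨Ψ, -, hΨ⟩ := tflow n H K hH (1 - (k : ℝ) / m) 1 ht0 ht1 le_rfl
      obtain ⟨u, -, hu⟩ := tflow n H K hH (1 - ((k + 1 : ℕ) : ℝ) / m) (1 - (k : ℝ) / m)
        (by linarith) (by linarith) ht1
      have e : Ψ * u = Φ := isFl_comp hH (by linarith) (by linarith) ht1 le_rfl hu hΨ hΦ
      obtain ⟨l, hl1, hl2, hl3⟩ := ih (by omega) Ψ hΨ
      obtain ⟨l2, h21, h22, h23⟩ := hfr _ _ (by linarith) (by linarith) ht1 (by linarith) u hu
      refine ⟨l ++ l2, by rw [List.prod_append, hl1, h21, e], ?_, ?_⟩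
      · intro v hv
        rcases List.mem_append.1 hv with hv | hv
        · exact hl2 v hv
        · exact h22 v hv
      · intro l' hl' x y
        rcases List.prefix_or_prefix_of_prefix hl' (List.prefix_append l l2) with h | ⟨t, rfl⟩
        · exact hl3 l' h x y
        · rw [List.prefix_append_right_inj] at hl'
          rw [List.prod_append, hl1, mul_apply, mul_apply]
          refine (isFl_lip hC0 hCL ht0 ht1 le_rfl hΨ _ _).trans ?_
          have h1 := h23 t hl' x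
          have h2 := h23 t hl' y
          have h3 : t.prod x - t.prod y = (t.prod x - x) + (x - y) - (t.prod y - y) := by abel
          have h4 : ‖t.prod x - t.prod y‖ ≤ ‖t.prod x - x‖ + ‖x - y‖ + ‖t.prod y - y‖ := by
            rw [h3]
            exact (norm_sub_le _ _).trans (by gcongr; exact norm_add_le _ _)
          have h5 := norm_nonneg (x - y)
          have h6 : ‖t.prod x - t.prod y‖ ≤ 2 * (‖x - y‖ + ε) := by linarith
          calc Real.exp C * ‖t.prod x - t.prod y‖ ≤ Real.exp C * (2 * (‖x - y‖ + ε)) :=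
                mul_le_mul_of_nonneg_left h6 (Real.exp_pos C).le
            _ = 2 * Real.exp C * (‖x - y‖ + ε) := by ring
  have hφ2 : IsFl H (1 - (m : ℝ) / m) 1 φ := by
    rw [div_self hm0.ne', sub_self]
    exact hφ1
  exact key m le_rfl φ hφ2

/-! ## Products of bounded length -/

section Group

variable {G : Type*} [Group G]

/-- `x` is a product of at most `N` elements of `X` -/
def IsProd (X : Set G) (N : ℕ) (x : G) : Prop :=
  ∃ l : List G, l.length ≤ N ∧ (∀ y ∈ l, y ∈ X) ∧ l.prod = x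

theorem IsProd.one (X : Set G) (N : ℕ) : IsProd X N (1 : G) :=
  ⟨[], Nat.zero_le _, by simp, rfl⟩

theorem IsProd.single {X : Set G} {x : G} (hx : x ∈ X) : IsProd X 1 x :=
  ⟨[x], le_rfl, by simpa using hx, by simp⟩

theorem IsProd.mul {X : Set G} {N M : ℕ} {x y : G} (hx : IsProd X N x) (hy : IsProd X M y) :
    IsProd X (N + M) (x * y) := by
  obtain ⟨l, h1, h2, h3⟩ := hx
  obtain ⟨m, k1, k2, k3⟩ := hy
  refine ⟨l ++ m, by rw [List.length_append]; omega, fun z hz => ?_, by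
    rw [List.prod_append, h3, k3]⟩
  rcases List.mem_append.1 hz with h | h
  · exact h2 z h
  · exact k2 z h

theorem comm_leftN (X : Set G) (N : ℕ) (c z : G) (l : List G)
    (h : ∀ l' v, (l' ++ [v]) <+: l → IsProd X N (c * (l'.prod * ⁅v, z⁆ * l'.prod⁻¹) * c⁻¹)) :
    IsProd X (l.length * N) (c * ⁅l.prod, z⁆ * c⁻¹) := by
  induction l using List.reverseRecOn with
  | nil => simpa using IsProd.one X _
  | append_singleton l v ih =>
    have h1 := ih fun l' w hl => h l' w (hl.trans (List.prefix_append l [v]))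
    have h2 := h l v (List.prefix_refl _)
    have e : c * ⁅(l ++ [v]).prod, z⁆ * c⁻¹ =
        (c * (l.prod * ⁅v, z⁆ * l.prod⁻¹) * c⁻¹) * (c * ⁅l.prod, z⁆ * c⁻¹) := by
      rw [List.prod_append, List.prod_singleton]
      simp only [commutatorElement_def]
      group
    rw [e]
    have h3 := h2.mul h1
    have e2 : N + l.length * N = (l ++ [v]).length * N := by
      rw [List.length_append, List.length_singleton]; ring
    rwa [e2] at h3

theorem comm_rightN (X : Set G) (N : ℕ) (c v : G) (l : List G)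
    (h : ∀ l' w, (l' ++ [w]) <+: l → IsProd X N (c * (l'.prod * ⁅v, w⁆ * l'.prod⁻¹) * c⁻¹)) :
    IsProd X (l.length * N) (c * ⁅v, l.prod⁆ * c⁻¹) := by
  induction l using List.reverseRecOn with
  | nil => simpa using IsProd.one X _
  | append_singleton l w ih =>
    have h1 := ih fun l' w hl => h l' w (hl.trans (List.prefix_append l _))
    have h2 := h l w (List.prefix_refl _)
    have e : c * ⁅v, (l ++ [w]).prod⁆ * c⁻¹ =
        (c * ⁅v, l.prod⁆ * c⁻¹) * (c * (l.prod * ⁅v, w⁆ * l.prod⁻¹) * c⁻¹) := by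
      rw [List.prod_append, List.prod_singleton]
      simp only [commutatorElement_def]
      group
    rw [e]
    have h3 := h1.mul h2
    have e2 : l.length * N + N = (l ++ [w]).length * N := by
      rw [List.length_append, List.length_singleton]; ring
    rwa [e2] at h3

theorem comm_listsN (X : Set G) (g : G) (l m : List G)
    (h : ∀ l' v m' w, (l' ++ [v]) <+: l → (m' ++ [w]) <+: m →
      IsProd X 1 ((g * l'.prod * m'.prod) * ⁅v, w⁆ * (g * l'.prod * m'.prod)⁻¹)) :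
    IsProd X (l.length * m.length) (g * ⁅l.prod, m.prod⁆ * g⁻¹) := by
  refine comm_leftN X m.length g _ l fun l' v hl => ?_
  have e : g * (l'.prod * ⁅v, m.prod⁆ * l'.prod⁻¹) * g⁻¹ =
      (g * l'.prod) * ⁅v, m.prod⁆ * (g * l'.prod)⁻¹ := by group
  rw [e]
  have h2 := comm_rightN X 1 (g * l'.prod) v m fun m' w hm => by
    have h1 := h l' v m' w hl hm
    have e2 : (g * l'.prod) * (m'.prod * ⁅v, w⁆ * m'.prod⁻¹) * (g * l'.prod)⁻¹ =
        (g * l'.prod * m'.prod) * ⁅v, w⁆ * (g * l'.prod * m'.prod)⁻¹ := by group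
    rw [e2]
    exact h1
  rwa [mul_one] at h2

end Group

/-- commutators of limits supported in a common ball of radius `η` -/
def SmC (K : Set (E n)) (η : ℝ) : Set (E n ≃ₜ E n) :=
  {y | ∃ q : E n, ∃ v ∈ HK n K, ∃ w ∈ HK n K, Supp (D q η) v ∧ Supp (D q η) w ∧ y = ⁅v, w⁆}

/-- **Fragmentation of conjugates of commutators.** -/
theorem fragW {K : Set (E n)} {a b : E n ≃ₜ E n} (ha : GenIn K a) (hb : GenIn K b)
    {A : Set (E n ≃ₜ E n)} (hA : ∀ g ∈ A, g ∈ HK n K)
    (heq : ∀ ε : ℝ, 0 < ε → ∃ δ > 0, ∀ g ∈ A, ∀ x y, dist x y < δ → dist (g x) (g y) < ε)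
    {η : ℝ} (hη : 0 < η) : ∃ N, ∀ g ∈ A, IsProd (SmC K η) N (g * ⁅a, b⁆ * g⁻¹) := by
  obtain ⟨La, hLa, hfa⟩ := cfragK ha
  obtain ⟨Lb, hLb, hfb⟩ := cfragK hb
  have hK : IsCompact K := ha.choose_spec.1.2.1
  have hn1 : (0 : ℝ) < 2 * (n : ℝ) + 1 := by positivity
  obtain ⟨δ, hδ, hδg⟩ := heq (η / (2 * (n : ℝ) + 1)) (by positivity)
  obtain ⟨ε, hε, hε1, hεδ⟩ : ∃ ε : ℝ, 0 < ε ∧ ε < 1 ∧ La * (Lb * (4 * ε + ε) + ε) < δ := by
    refine ⟨min (1 / 2) (δ / (2 * (La * (5 * Lb + 1)))), lt_min (by norm_num) (by positivity),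
      lt_of_le_of_lt (min_le_left _ _) (by norm_num), ?_⟩
    set ε := min (1 / 2) (δ / (2 * (La * (5 * Lb + 1))))
    have h1 : ε ≤ δ / (2 * (La * (5 * Lb + 1))) := min_le_right _ _
    have h2 : 0 < La * (5 * Lb + 1) := by positivity
    rw [le_div_iff₀ (by positivity)] at h1
    nlinarith
  obtain ⟨l, hl1, hl2, hl3⟩ := hfa ε hε hε1
  obtain ⟨m, hm1, hm2, hm3⟩ := hfb ε hε hε1
  refine ⟨l.length * m.length, fun g hg => ?_⟩
  rw [← hl1, ← hm1]
  refine comm_listsN _ g l m fun l' v m' w hl hm => ?_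
  have hvl : v ∈ l := hl.subset (by simp)
  have hwm : w ∈ m := hm.subset (by simp)
  have hl' : l' <+: l := (List.prefix_append l' [v]).trans hl
  have hm' : m' <+: m := (List.prefix_append m' [w]).trans hm
  by_cases hv1 : v = 1
  · rw [hv1, commutatorElement_one_left, mul_one, mul_inv_cancel]
    exact IsProd.one _ _
  obtain ⟨hvH, hvK, q1, ρ1, hρ1, hρ1ε, hvD⟩ := hl2 v hvl
  obtain ⟨hwH, hwK, q2, ρ2, hρ2, hρ2ε, hwD⟩ := hm2 w hwm
  by_cases hdis : Disjoint (D q1 ρ1) (D q2 ρ2)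
  · have h1 : v * w = w * v := hvD.commute hdis hwD
    rw [commutatorElement_eq_one_iff_mul_comm.2 h1, mul_one, mul_inv_cancel]
    exact IsProd.one _ _
  rw [Set.not_disjoint_iff] at hdis
  obtain ⟨y0, hy1, hy2⟩ := hdis
  obtain ⟨z, hz⟩ := exists_moved hv1
  have hzD : z ∈ D q1 ρ1 := by
    by_contra h
    exact hz (hvD z h)
  -- the conjugating element
  have hlK : l'.prod ∈ HK n K := HK_list hK l' fun u hu => by
    have h1 := hl2 u (hl'.subset hu)
    exact HK_ham h1.1 h1.2.1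
  have hmK : m'.prod ∈ HK n K := HK_list hK m' fun u hu => by
    have h1 := hm2 u (hm'.subset hu)
    exact HK_ham h1.1 h1.2.1
  set c : E n ≃ₜ E n := g * l'.prod * m'.prod with hc
  have hcK : c ∈ HK n K := HK_mul hK (HK_mul hK (hA g hg) hlK) hmK
  have hnear : ∀ x, ‖x - z‖ ≤ 4 * ε → c x ∈ D (c z) η := by
    intro x hx
    have h1 : ‖m'.prod x - m'.prod z‖ ≤ Lb * (4 * ε + ε) :=
      (hm3 m' hm' x z).trans (mul_le_mul_of_nonneg_left (by linarith) hLb.le)
    have h2 : ‖l'.prod (m'.prod x) - l'.prod (m'.prod z)‖ ≤ La * (Lb * (4 * ε + ε) + ε) :=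
      (hl3 l' hl' _ _).trans (mul_le_mul_of_nonneg_left (by linarith) hLa.le)
    have h3 : dist (g (l'.prod (m'.prod x))) (g (l'.prod (m'.prod z))) < η / (2 * (n : ℝ) + 1) := by
      apply hδg g hg
      rw [dist_eq_norm]
      exact lt_of_le_of_lt h2 hεδ
    rw [dist_eq_norm] at h3
    show nm (c x - c z) ≤ η
    refine (F1.nm_le _).trans ?_
    have h4 : c x - c z = g (l'.prod (m'.prod x)) - g (l'.prod (m'.prod z)) := rfl
    rw [h4]
    have h5 := mul_le_mul_of_nonneg_left h3.le hn1.le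
    rwa [mul_div_cancel₀ _ hn1.ne'] at h5
  have hn4 : ∀ x, x ∈ D q1 ρ1 ∨ x ∈ D q2 ρ2 → ‖x - z‖ ≤ 4 * ε := by
    intro x hx
    have h1 : dist y0 z ≤ 2 * ρ1 := norm_le_of_D hy1 hzD
    rw [← dist_eq_norm]
    rcases hx with hx | hx
    · have h2 : dist x z ≤ 2 * ρ1 := norm_le_of_D hx hzD
      linarith
    · have h2 : dist x y0 ≤ 2 * ρ2 := norm_le_of_D hx hy2
      have h3 := dist_triangle x y0 z
      linarith
  have hsv : Supp (D (c z) η) (c * v * c⁻¹) := (hvD.conj c).mono (by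
    rintro _ ⟨x, hx, rfl⟩
    exact hnear x (hn4 x (Or.inl hx)))
  have hsw : Supp (D (c z) η) (c * w * c⁻¹) := (hwD.conj c).mono (by
    rintro _ ⟨x, hx, rfl⟩
    exact hnear x (hn4 x (Or.inr hx)))
  have hvc : c * v * c⁻¹ ∈ HK n K :=
    HK_mul hK (HK_mul hK hcK (HK_ham hvH hvK)) (HK_inv hK hcK)
  have hwc : c * w * c⁻¹ ∈ HK n K :=
    HK_mul hK (HK_mul hK hcK (HK_ham hwH hwK)) (HK_inv hK hcK)
  refine IsProd.single ⟨c z, _, hvc, _, hwc, hsv, hsw, ?_⟩
  simp only [commutatorElement_def]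
  group

end Pool.Agent.D0H34.SI
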