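import Mathlib

/-!
# Proper subgroups of small index: definitions
-/

set_option autoImplicit false

open scoped Cardinal

namespace Pool.Agent.D0H34.SI

/-- `A` has no proper subgroup of index less than the cardinality of the continuum -/
def NoSmallIndex (A : Type) [Group A] : Prop := ∀ H : Subgroup A, #(A ⧸ H) < 𝔠 → H = ⊤

/-- `A` has no proper subgroup of finite or countably infinite index -/
def NoCountableIndex (A : Type) [Group A] : Prop := ∀ H : Subgroup A, Countable (A ⧸ H) → H = ⊤

/-- `S` is contained in all the subgroups of `A` of index less than the cardinality of the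
continuum -/
def InSmallIndex {A : Type} [Group A] (S : Subgroup A) : Prop :=
  ∀ H : Subgroup A, #(A ⧸ H) < 𝔠 → S ≤ H

/-- `S` is the smallest nontrivial normal subgroup of `A` -/
def IsSmallestNormal {A : Type} [Group A] (S : Subgroup A) : Prop :=
  S.Normal ∧ S ≠ ⊥ ∧ ∀ N : Subgroup A, N.Normal → N ≠ ⊥ → S ≤ N

end Pool.Agent.D0H34.SI
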