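import Pool.Agent.R773.HN.Defs
import Pool.Agent.R773.HN.Stm3

/-!
# Length functions on the smallest normal subgroup: definitions
-/

set_option autoImplicit false

open Set
open Pool.Agent.Y453.HB (E Q)
open Pool.Agent.R773.HN
open scoped commutatorElement

namespace Pool.Agent.D0H34.SI

/-- `K` is a compact subset of the open unit ball -/
def CptIn {n : ℕ} (K : Set (E n)) : Prop := IsCompact K ∧ K ⊆ {p : E n | Q p < 1}

/-- `φ` is supported in `K`, and it is a uniform limit of elements of `Ham_c(B)` supported in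
`K` -/
def LimIn {n : ℕ} (K : Set (E n)) (φ : HamHomeo n) : Prop :=
  (∀ x, x ∉ K → φ.1.map x = x) ∧
    ∃ u : ℕ → Homeos n, (∀ k, IsHamDiffeo (u k) ∧ ∀ x, x ∉ K → (u k).map x = x) ∧
      ∀ ε : ℝ, 0 < ε → ∃ k₀, ∀ k, k₀ ≤ k → ∀ x, dist ((u k).map x) (φ.1.map x) < ε

/-- `φ` is the time one map of the flow of a smooth time dependent Hamiltonian which is zero off
the compact subset `K` of the ball -/
def FlowIn {n : ℕ} (K : Set (E n)) (φ : HamHomeo n) : Prop :=
  ∃ H : ℝ → E n → ℝ, HamOn H K ∧ IsFl H 0 1 φ.1.homeo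

/-- the subgroup generated by the `g ⁅a, b⁆ g⁻¹`, where `g` is a uniform limit of elements of
`Ham_c(B)` supported in `K`, and `a`, `b` are the time one maps of Hamiltonians supported in `K` -/
noncomputable def Core {n : ℕ} (K : Set (E n)) : Subgroup (HamHomeo n) :=
  Subgroup.closure {x | ∃ g a b : HamHomeo n, LimIn K g ∧ FlowIn K a ∧ FlowIn K b ∧
    x = g * ⁅a, b⁆ * g⁻¹}

/-- `ℓ` is a length function on `S` -/
def IsLength {A : Type} [Group A] (S : Subgroup A) (ℓ : A → ℝ) : Prop :=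
  (∀ g ∈ S, ∀ h ∈ S, ℓ (g * h) ≤ ℓ g + ℓ h) ∧ ∀ g ∈ S, ℓ g⁻¹ = ℓ g

/-- the set `A` is uniformly equicontinuous -/
def EquiC {n : ℕ} (A : Set (HamHomeo n)) : Prop :=
  ∀ ε : ℝ, 0 < ε → ∃ δ > 0, ∀ g ∈ A, ∀ x y, dist x y < δ → dist (g.1.map x) (g.1.map y) < ε

/-- `ℓ` is bounded on the commutators of limits supported in `K` and in a common ball, if the
radius is small -/
def BoundedOnSmall {n : ℕ} (ℓ : HamHomeo n → ℝ) (K : Set (E n)) : Prop :=
  ∃ η > 0, ∃ C : ℝ, ∀ (q : E n) (v w : HamHomeo n), LimIn K v → LimIn K w →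
    SupportedIn (CBall q η) v → SupportedIn (CBall q η) w → ℓ ⁅v, w⁆ ≤ C

/-- `ℓ` is bounded on the conjugates of `⁅a, b⁆` by the elements of an equicontinuous family of
limits supported in `K` -/
def BoundedOnConj {n : ℕ} (ℓ : HamHomeo n → ℝ) (K : Set (E n)) : Prop :=
  ∀ a b : HamHomeo n, FlowIn K a → FlowIn K b → ∀ A : Set (HamHomeo n), (∀ g ∈ A, LimIn K g) →
    EquiC A → ∃ C : ℝ, ∀ g ∈ A, ℓ (g * ⁅a, b⁆ * g⁻¹) ≤ C

/-- the commutators of two limits supported in `K` and in a common closed ball of radius at most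
`η` inside the open unit ball -/
def BallComms {n : ℕ} (K : Set (E n)) (η : ℝ) : Set (HamHomeo n) :=
  {y | ∃ (q : E n) (ρ : ℝ) (v w : HamHomeo n), 0 < ρ ∧ ρ ≤ η ∧ √(Q q) + ρ < 1 ∧ LimIn K v ∧
    LimIn K w ∧ SupportedIn (CBall q ρ) v ∧ SupportedIn (CBall q ρ) w ∧ y = ⁅v, w⁆}

/-- `T` contains all the limits supported in `K` which move no point by `ε` or more, for some
`ε > 0` -/
def ContainsNear {n : ℕ} (T : Set (HamHomeo n)) (K : Set (E n)) : Prop :=
  ∃ ε : ℝ, 0 < ε ∧ ∀ φ : HamHomeo n, LimIn K φ → (∀ x, dist (φ.1.map x) x < ε) → φ ∈ T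

/-- local fragmentation: for all `K` and `η` there are `K'` and `N` such that the limits supported
in `K` which are close to the identity are products of at most `N` elements of `BallComms K' η` -/
def LocallyFragmented (n : ℕ) : Prop :=
  ∀ K : Set (E n), CptIn K → ∀ η : ℝ, 0 < η → ∃ (K' : Set (E n)) (N : ℕ), CptIn K' ∧
    ContainsNear {φ | ∃ l : List (HamHomeo n), l.length ≤ N ∧ (∀ y ∈ l, y ∈ BallComms K' η) ∧
      l.prod = φ} K

/-- every length function on the group is bounded, for every `K`, on the limits supported in `K`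
which are close to the identity -/
def LengthsBounded (n : ℕ) : Prop :=
  ∀ ℓ : HamHomeo n → ℝ, IsLength ⊤ ℓ → ∀ K : Set (E n), CptIn K →
    ∃ C : ℝ, ContainsNear {φ | ℓ φ ≤ C} K

/-- if the group is the union of an increasing sequence of subgroups, then for every `K` one of
them contains the limits supported in `K` which are close to the identity -/
def ChainsStationary (n : ℕ) : Prop :=
  ∀ H : ℕ → Subgroup (HamHomeo n), Monotone H → (∀ g, ∃ m, g ∈ H m) →
    ∀ K : Set (E n), CptIn K → ∃ m, ContainsNear (H m : Set (HamHomeo n)) K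

end Pool.Agent.D0H34.SI
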