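import Mathlib
import Pool.Agent.D0H34.SI.Cf2
import Pool.Agent.D0H34.SI.Card
import Pool.Agent.D0H34.SI.Defs
import Pool.Agent.D0H34.SI.Defs2

/-!
# Length functions, part 3: assembly
-/

set_option autoImplicit false

open Set Filter Topology Function
open Pool.Agent.Y453.HB
open Pool.Agent.R773.HN
open Pool.Agent.N235.DH
open scoped commutatorElement

namespace Pool.Agent.D0H34.SI

variable {n : ℕ}

/-- the smallest nontrivial normal subgroup -/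
def S1 (n : ℕ) : Subgroup (HamHomeo n) := S0 n

/-- an element of the group from a homeomorphism -/
def toG (x : E n ≃ₜ E n) (h : x ∈ HamBar n) : HamHomeo n := ⟨x, h⟩

theorem toG_mul {x y : E n ≃ₜ E n} (hx : x ∈ HamBar n) (hy : y ∈ HamBar n) :
    toG (x * y) ((HamBar n).mul_mem hx hy) = toG x hx * toG y hy := rfl

theorem toG_inv {x : E n ≃ₜ E n} (hx : x ∈ HamBar n) :
    toG x⁻¹ ((HamBar n).inv_mem hx) = (toG x hx)⁻¹ := rfl

theorem toG_one : toG (1 : E n ≃ₜ E n) ((HamBar n).one_mem) = 1 := rfl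

theorem limIn_iff {K : Set (E n)} {φ : HamHomeo n} :
    LimIn K φ ↔ (φ.1 : E n ≃ₜ E n) ∈ HK n K := by
  constructor
  · rintro ⟨h1, u, h2, h3⟩
    refine ⟨h1, u, fun k => (h2 k).2, fun k => (h2 k).1, ?_⟩
    rw [Metric.tendstoUniformly_iff]
    intro ε hε
    obtain ⟨k₀, hk⟩ := h3 ε hε
    filter_upwards [eventually_ge_atTop k₀] with k hk1 x
    rw [dist_comm]
    exact hk k hk1 x
  · rintro ⟨h1, u, h2, h3, h4⟩
    refine ⟨h1, u, fun k => ⟨h3 k, h2 k⟩, fun ε hε => ?_⟩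
    obtain ⟨k₀, hk⟩ := eventually_atTop.1 (Metric.tendstoUniformly_iff.1 h4 ε hε)
    refine ⟨k₀, fun k hk1 x => ?_⟩
    have := hk k hk1 x
    rw [dist_comm] at this
    exact this

theorem genIn_ham {K : Set (E n)} {φ : E n ≃ₜ E n} (h : GenIn K φ) : IsHam φ := by
  obtain ⟨H, hH, hφ⟩ := h
  obtain ⟨u, hu, huf⟩ := tflow n H K hH 0 1 le_rfl zero_le_one le_rfl
  rwa [F1.isFl_unique (uni2 bd) hH le_rfl zero_le_one le_rfl hφ huf]

theorem ham_genIn {φ : E n ≃ₜ E n} (h : IsHam φ) : ∃ K, CptIn K ∧ GenIn K φ := by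
  obtain ⟨H, hHs, ⟨K, hKc, hK1, hK0⟩, ψ, hψ0, hψ, hu1⟩ := h
  exact ⟨K, ⟨hKc, hK1⟩, H, ⟨hHs, hKc, hK1, hK0⟩, fun x =>
    ⟨fun s => ψ s x, hψ0 x, (hu1 x).symm, fun τ _ => hψ τ x⟩⟩

theorem genIn_mono {K K' : Set (E n)} (hK' : CptIn K') (h : K ⊆ K') {φ : E n ≃ₜ E n}
    (hφ : GenIn K φ) : GenIn K' φ := by
  obtain ⟨H, ⟨h1, h2, h3, h4⟩, h5⟩ := hφ
  exact ⟨H, ⟨h1, hK'.1, hK'.2, fun t x hx => h4 t x fun hc => hx (h hc)⟩, h5⟩

theorem core_mono {K K' : Set (E n)} (hK' : CptIn K') (h : K ⊆ K') :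
    (Core K : Subgroup (HamHomeo n)) ≤ Core K' := by
  refine (Subgroup.closure_le _).2 ?_
  rintro _ ⟨g, a, b, hg, ha, hb, rfl⟩
  exact Subgroup.subset_closure ⟨g, a, b, limIn_iff.2 (HK_mono h (limIn_iff.1 hg)),
    genIn_mono hK' h ha, genIn_mono hK' h hb, rfl⟩

theorem cptIn_union {K K' : Set (E n)} (h : CptIn K) (h' : CptIn K') : CptIn (K ∪ K') :=
  ⟨h.1.union h'.1, union_subset h.2 h'.2⟩

/-- the union of the groups `Core K` -/
def NN (n : ℕ) : Subgroup (HamHomeo n) where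
  carrier := {s | ∃ K : Set (E n), CptIn K ∧ s ∈ Core K}
  one_mem' := ⟨∅, ⟨isCompact_empty, empty_subset _⟩, Subgroup.one_mem _⟩
  mul_mem' := by
    rintro x y ⟨K, hK, hx⟩ ⟨K', hK', hy⟩
    exact ⟨K ∪ K', cptIn_union hK hK', Subgroup.mul_mem _
      (core_mono (cptIn_union hK hK') subset_union_left hx)
      (core_mono (cptIn_union hK hK') subset_union_right hy)⟩
  inv_mem' := by
    rintro x ⟨K, hK, hx⟩
    exact ⟨K, hK, Subgroup.inv_mem _ hx⟩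

theorem exists_lim (h : HamHomeo n) : ∃ K : Set (E n), CptIn K ∧ LimIn K h := by
  obtain ⟨K, hK, hK1, h1, u, h2, h3, h4⟩ := (mem_iff Pool.Agent.Y907.HB.mul
    Pool.Agent.Y510.HB.inv Pool.Agent.Y309.HB.uc).1 h.2
  exact ⟨K, ⟨hK, hK1⟩, limIn_iff.2 ⟨h1, u, h2, h3, h4⟩⟩

theorem NN_normal : (NN n).Normal := by
  refine ⟨?_⟩
  rintro x ⟨K, hK, hx⟩ h
  obtain ⟨K', hK', hh⟩ := exists_lim h
  have hU := cptIn_union hK hK'
  refine ⟨K ∪ K', hU, ?_⟩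
  have h1 : (Core K : Subgroup (HamHomeo n)) ≤
      (Core (K ∪ K')).comap (MulAut.conj h).toMonoidHom := by
    refine (Subgroup.closure_le _).2 ?_
    rintro _ ⟨g, a, b, hg, ha, hb, rfl⟩
    refine Subgroup.subset_closure ⟨h * g, a, b, ?_, genIn_mono hU subset_union_left ha,
      genIn_mono hU subset_union_left hb, ?_⟩
    · rw [limIn_iff] at hg hh ⊢
      exact HK_mul hU.1 (HK_mono subset_union_right hh) (HK_mono subset_union_left hg)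
    · show h * (g * ⁅a, b⁆ * g⁻¹) * h⁻¹ = _
      group
  exact h1 hx

theorem NN_ne (hn : 0 < n) : NN n ≠ ⊥ := by
  intro hbot
  obtain ⟨a, b, ha, hb, -, -, hab⟩ := L3 hT hn (q := (0 : E n)) (r := 1 / 2) (by norm_num)
    (by rw [nm_zero]; norm_num)
  obtain ⟨K, hK, hKa⟩ := ham_genIn ha
  obtain ⟨K', hK', hKb⟩ := ham_genIn hb
  have hU := cptIn_union hK hK'
  have h1 : (⁅toG a (isHam_mem ha), toG b (isHam_mem hb)⁆ : HamHomeo n) ∈ NN n := by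
    refine ⟨K ∪ K', hU, Subgroup.subset_closure ⟨1, toG a (isHam_mem ha), toG b (isHam_mem hb),
      ?_, genIn_mono hU subset_union_left hKa, genIn_mono hU subset_union_right hKb, by group⟩⟩
    rw [limIn_iff]
    exact HK_one _
  rw [hbot, Subgroup.mem_bot] at h1
  exact hab (congrArg Subtype.val h1)

theorem S0_smallest (hn : 0 < n) : IsSmallestNormal (S1 n) :=
  ⟨MS_normal _, MS_ne hn midB, fun _ hN hne => MS_le hN hne⟩

theorem conj_mem_S0 (hn : 0 < n) {K : Set (E n)} {g a b : HamHomeo n} (ha : FlowIn K a)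
    (hb : FlowIn K b) : g * ⁅a, b⁆ * g⁻¹ ∈ (S1 n) := by
  have h1 : ⁅a, b⁆ ∈ (S1 n) :=
    Subgroup.mem_subgroupOf.2 (hCo n hn _ midB _ _ (genIn_ham ha) (genIn_ham hb))
  exact (S0_smallest hn).1.conj_mem _ h1 g

theorem mem_S0_iff (hn : 0 < n) (s : HamHomeo n) :
    s ∈ (S1 n) ↔ ∃ K : Set (E n), CptIn K ∧ s ∈ Core K := by
  constructor
  · intro hs
    exact (S0_smallest hn).2.2 (NN n) NN_normal (NN_ne hn) hs
  · rintro ⟨K, -, hs⟩
    have h1 : (Core K : Subgroup (HamHomeo n)) ≤ S0 n := by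
      refine (Subgroup.closure_le _).2 ?_
      rintro _ ⟨g, a, b, hg, ha, hb, rfl⟩
      exact conj_mem_S0 hn ha hb
    exact h1 hs

theorem supp_iff {q : E n} {η : ℝ} {v : HamHomeo n} :
    SupportedIn (CBall q η) v ↔ Supp (D q η) (v.1 : E n ≃ₜ E n) := Iff.rfl

/-- the sublevel sets of a length function -/
def WL (ℓ : HamHomeo n → ℝ) (m : ℕ) : Set (E n ≃ₜ E n) :=
  {x | ∃ h : x ∈ HamBar n, x ∈ Mono (HamBar n) ∧ ℓ (toG x h) ≤ 2 ^ m}

theorem chain_WL {ℓ : HamHomeo n → ℝ} (hℓ : IsLength (S1 n) ℓ) :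
    Chain (WL ℓ) := by
  refine ⟨?_, ?_, ?_, ?_⟩
  · rintro i j hij x ⟨h, h1, h2⟩
    exact ⟨h, h1, h2.trans (pow_le_pow_right₀ (by norm_num) hij)⟩
  · rintro m x y ⟨hx, h1, h2⟩ ⟨hy, h3, h4⟩
    refine ⟨(HamBar n).mul_mem hx hy, (Mono _).mul_mem h1 h3, ?_⟩
    have h5 := hℓ.1 (toG x hx) (Subgroup.mem_subgroupOf.2 h1) (toG y hy)
      (Subgroup.mem_subgroupOf.2 h3)
    rw [toG_mul hx hy, pow_succ]
    linarith
  · rintro m x ⟨hx, h1, h2⟩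
    refine ⟨(HamBar n).inv_mem hx, (Mono _).inv_mem h1, ?_⟩
    rw [toG_inv hx, hℓ.2 (toG x hx) (Subgroup.mem_subgroupOf.2 h1)]
    exact h2
  · intro s hs
    have hsB : s ∈ HamBar n := (Mono_norm _).1 hs
    obtain ⟨m, hm⟩ := pow_unbounded_of_one_lt (ℓ (toG s hsB)) (one_lt_two (α := ℝ))
    exact ⟨m, hsB, hs, hm.le⟩

theorem length_small (hn : 0 < n) {ℓ : HamHomeo n → ℝ}
    (hℓ : IsLength (S1 n) ℓ) {K : Set (E n)} (hK : CptIn K) :
    ∃ η > 0, ∃ m : ℕ, SmC K η ⊆ WL ℓ m := by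
  obtain ⟨η, hη, m, h⟩ := compactW hn (chain_WL hℓ) hK.1 hK.2
  refine ⟨η, hη, m, ?_⟩
  rintro _ ⟨q, v, hv, w, hw, hvs, hws, rfl⟩
  exact h q v hv w hw hvs hws

theorem boundedOnSmall (hn : 0 < n) {ℓ : HamHomeo n → ℝ}
    (hℓ : IsLength (S1 n) ℓ) {K : Set (E n)} (hK : CptIn K) :
    BoundedOnSmall ℓ K := by
  obtain ⟨η, hη, m, h⟩ := length_small hn hℓ hK
  refine ⟨η, hη, 2 ^ m, fun q v w hv hw hvs hws => ?_⟩
  obtain ⟨h1, h2, h3⟩ := h ⟨q, v.1, limIn_iff.1 hv, w.1, limIn_iff.1 hw, hvs, hws, rfl⟩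
  exact h3

theorem length_prod {ℓ : HamHomeo n → ℝ} (hℓ : IsLength (S1 n) ℓ)
    {m : ℕ} (l : List (E n ≃ₜ E n)) (hl : ∀ y ∈ l, y ∈ WL ℓ m) :
    ∃ h : l.prod ∈ HamBar n, l.prod ∈ Mono (HamBar n) ∧
      ℓ (toG l.prod h) ≤ ℓ 1 + l.length * 2 ^ m := by
  induction l with
  | nil => exact ⟨(HamBar n).one_mem, (Mono _).one_mem, by
      show ℓ 1 ≤ ℓ 1 + ((0 : ℕ) : ℝ) * 2 ^ m
      rw [Nat.cast_zero, zero_mul, add_zero]⟩
  | cons y l ih =>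
    obtain ⟨h1, h2, h3⟩ := ih fun z hz => hl z (by simp [hz])
    obtain ⟨k1, k2, k3⟩ := hl y (by simp)
    have h5 := hℓ.1 (toG y k1) (Subgroup.mem_subgroupOf.2 k2) (toG l.prod h1)
      (Subgroup.mem_subgroupOf.2 h2)
    have h6 : ℓ (toG (y * l.prod) ((HamBar n).mul_mem k1 h1)) ≤
        ℓ 1 + ((y :: l).length : ℝ) * 2 ^ m := by
      rw [toG_mul k1 h1, List.length_cons]
      push_cast
      linarith
    exact ⟨(HamBar n).mul_mem k1 h1, (Mono _).mul_mem k2 h2, h6⟩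

theorem boundedOnConj (hn : 0 < n) {ℓ : HamHomeo n → ℝ}
    (hℓ : IsLength (S1 n) ℓ) {K : Set (E n)} (hK : CptIn K) :
    BoundedOnConj ℓ K := by
  intro a b ha hb A hA heq
  obtain ⟨η, hη, m, h⟩ := length_small hn hℓ hK
  obtain ⟨N, hN⟩ := fragW (K := K) (a := a.1) (b := b.1) ha hb
    (A := {g : E n ≃ₜ E n | ∃ h : g ∈ HamBar n, toG g h ∈ A})
    (by
      rintro g ⟨hg, hgA⟩
      exact limIn_iff.1 (hA _ hgA))
    (by
      intro ε hε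
      obtain ⟨δ, hδ, h1⟩ := heq ε hε
      refine ⟨δ, hδ, ?_⟩
      rintro g ⟨hg, hgA⟩ x y hxy
      exact h1 _ hgA x y hxy) hη
  refine ⟨ℓ 1 + N * 2 ^ m, fun g hg => ?_⟩
  obtain ⟨l, hl1, hl2, hl3⟩ := hN g.1 ⟨g.2, hg⟩
  obtain ⟨k1, k2, k3⟩ := length_prod hℓ (m := m) l fun y hy => h (hl2 y hy)
  have e : toG l.prod k1 = g * ⁅a, b⁆ * g⁻¹ := Subtype.ext hl3
  rw [e] at k3
  refine k3.trans ?_
  have h1 : (l.length : ℝ) ≤ N := by exact_mod_cast hl1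
  have h2 : (0 : ℝ) < 2 ^ m := by positivity
  nlinarith

/-- chains of subgroups -/
theorem core_le (hn : 0 < n) {H : ℕ → Subgroup (HamHomeo n)} (hH : Monotone H)
    (hS : ∀ s ∈ (S1 n), ∃ m, s ∈ H m) {K : Set (E n)} (hK : CptIn K) :
    ∃ m, Core K ≤ H m := by
  have hW : Chain (fun m => {x : E n ≃ₜ E n | ∃ h : x ∈ HamBar n, toG x h ∈ H m}) := by
    refine ⟨?_, ?_, ?_, ?_⟩
    · rintro i j hij x ⟨h, h1⟩
      exact ⟨h, hH hij h1⟩
    · rintro m x y ⟨hx, h1⟩ ⟨hy, h2⟩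
      exact ⟨(HamBar n).mul_mem hx hy, hH (Nat.le_succ m) ((H m).mul_mem h1 h2)⟩
    · rintro m x ⟨hx, h1⟩
      exact ⟨(HamBar n).inv_mem hx, (H m).inv_mem h1⟩
    · intro s hs
      have hsB : s ∈ HamBar n := (Mono_norm _).1 hs
      obtain ⟨m, hm⟩ := hS (toG s hsB) (Subgroup.mem_subgroupOf.2 hs)
      exact ⟨m, hsB, hm⟩
  obtain ⟨η, hη, m, h⟩ := compactW hn hW hK.1 hK.2
  refine ⟨m, (Subgroup.closure_le _).2 ?_⟩
  rintro _ ⟨g, a, b, hg, ha, hb, rfl⟩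
  have hgK := limIn_iff.1 hg
  have hguc := ((Pool.Agent.Y309.HB.uc n).2.2.2.2 g.1 K hK.1 hgK.1).1
  obtain ⟨N, hN⟩ := fragW (K := K) (a := a.1) (b := b.1) ha hb (A := {(g.1 : E n ≃ₜ E n)})
    (by
      rintro _ rfl
      exact hgK)
    (by
      intro ε hε
      obtain ⟨δ, hδ, h1⟩ := Metric.uniformContinuous_iff.1 hguc ε hε
      refine ⟨δ, hδ, ?_⟩
      rintro _ rfl x y hxy
      exact h1 hxy) hη
  obtain ⟨l, -, hl2, hl3⟩ := hN g.1 rfl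
  have key : ∀ l : List (E n ≃ₜ E n), (∀ y ∈ l, y ∈ SmC K η) →
      ∃ h : l.prod ∈ HamBar n, toG l.prod h ∈ H m := by
    intro l
    induction l with
    | nil => exact fun _ => ⟨(HamBar n).one_mem, (H m).one_mem⟩
    | cons y l ih =>
      intro hl
      obtain ⟨h1, h2⟩ := ih fun z hz => hl z (by simp [hz])
      obtain ⟨q, v, hv, w, hw, hvs, hws, rfl⟩ := hl y (by simp)
      obtain ⟨k1, k2⟩ := h q v hv w hw hvs hws
      exact ⟨(HamBar n).mul_mem k1 h1, (H m).mul_mem k2 h2⟩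
  obtain ⟨h1, h2⟩ := key l hl2
  have e : toG l.prod h1 = g * ⁅a, b⁆ * g⁻¹ := Subtype.ext hl3
  rwa [e] at h2

end Pool.Agent.D0H34.SI
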