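import Mathlib
import Pool.Agent.D0H79.HX.Crit
import Pool.Agent.D0H34.SI.Ln3

/-!
# Length functions, part 5: Baire category

The topology of the group of homeomorphisms and the theorem of Pettis for analytic sets are in the
folder `Pool/Agent/D0H79/HX` (helper79).
-/

set_option autoImplicit false

open Set Filter Topology Function MeasureTheory
open Pool.Agent.Y453.HB
open Pool.Agent.R773.HN
open Pool.Agent.N235.DH
open Pool.Agent.D0H79.HX (htop polish topGroup HKs Bd Bd_compact Bd_sub exists_Bd inc inc_cont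
  HKs_polish pettis nhd_eps HK_isClosed eval_cont mem_ham)
open scoped commutatorElement Pointwise

namespace Pool.Agent.D0H34.SI

attribute [local instance] htop
attribute [local instance] polish
attribute [local instance] topGroup

variable {n : ℕ}

/-- If countably many analytic sets cover the limits supported in a closed ball, then the small
limits are quotients of elements of one of them. -/
theorem bounded2 {ι : Type} [Countable ι] {B : ι → Set (HamBar n)} (hB : ∀ m, AnalyticSet (B m))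
    (k : ℕ) (hcl : ∀ φ : HKs (Bd_compact (n := n) k), ∃ m, inc n k φ ∈ B m) :
    ∃ (m : ι) (ε : ℝ), 0 < ε ∧ ∀ φ : HKs (Bd_compact (n := n) k), (∀ x, dist (φ.1 x) x < ε) →
      ∃ a ∈ B m, ∃ b ∈ B m, inc n k φ = a * b⁻¹ := by
  have := HKs_polish (n := n) k
  have han : ∀ m : ι, AnalyticSet (inc n k ⁻¹' (B m)) := fun m => (hB m).preimage (inc_cont k)
  have hex : ∃ m : ι, ¬ IsMeagre (inc n k ⁻¹' (B m)) := by
    by_contra hcon
    push Not at hcon
    refine not_isMeagre_of_isOpen (X := HKs (Bd_compact (n := n) k)) isOpen_univ ⟨1, trivial⟩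
      ((isMeagre_iUnion hcon).mono fun φ _ => ?_)
    obtain ⟨m, hm⟩ := hcl φ
    exact mem_iUnion.2 ⟨m, hm⟩
  obtain ⟨m, hm⟩ := hex
  obtain ⟨U, hU, hUm⟩ := pettis (han m) hm
  rw [nhds_subtype_eq_comap, mem_comap] at hU
  obtain ⟨V, hV, hVU⟩ := hU
  obtain ⟨ε, hε, hεV⟩ := nhd_eps (Bd_compact (n := n) k) hV
  refine ⟨m, ε, hε, fun φ hφ => ?_⟩
  obtain ⟨a, ha, b, hb, hab⟩ := hUm φ (hVU (hεV φ.1 φ.2.1 hφ))
  exact ⟨_, ha, _, hb, by rw [hab, map_mul, map_inv]⟩

/-- the commutators of limits supported in `K` and in a common closed ball of radius at most `η`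
inside the unit ball -/
def BC (K : Set (E n)) (η : ℝ) : Set (HamBar n) :=
  {y | ∃ (q : E n) (ρ : ℝ) (v w : HamBar n), 0 < ρ ∧ ρ ≤ η ∧ nm q + ρ < 1 ∧ v.1 ∈ HK n K ∧
    w.1 ∈ HK n K ∧ Supp (D q ρ) v.1 ∧ Supp (D q ρ) w.1 ∧ y = ⁅v, w⁆}

theorem supp_closed : IsClosed {p : (E n × ℝ) × (E n ≃ₜ E n) | Supp (D p.1.1 p.1.2) p.2} := by
  have e : {p : (E n × ℝ) × (E n ≃ₜ E n) | Supp (D p.1.1 p.1.2) p.2} =
      ⋂ x : E n, ({p | nm (x - p.1.1) ≤ p.1.2} ∪ {p | p.2 x = x}) := by
    ext p
    simp only [mem_setOf_eq, mem_iInter, mem_union]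
    constructor
    · intro h x
      by_cases hx : x ∈ D p.1.1 p.1.2
      · exact Or.inl hx
      · exact Or.inr (h x hx)
    · intro h x hx
      exact (h x).resolve_left hx
  rw [e]
  refine isClosed_iInter fun x => IsClosed.union ?_ ?_
  · exact isClosed_le (nm_cont.comp (continuous_const.sub
      (continuous_fst.comp continuous_fst))) (continuous_snd.comp continuous_fst)
  · exact isClosed_eq ((eval_cont x).comp continuous_snd) continuous_const

theorem an_BC {K : Set (E n)} (hK : IsCompact K) (hKQ : K ⊆ {p : E n | Q p < 1}) (η : ℝ) :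
    AnalyticSet (BC K η) := by
  have hpol : PolishSpace (HKs hK) := IsClosed.polishSpace (HK_isClosed hK)
  -- the parameters
  set U : Set (E n × ℝ) := {p | 0 < p.2 ∧ nm p.1 + p.2 < 1} with hU
  have hUo : IsOpen U := (isOpen_lt continuous_const continuous_snd).inter
    (isOpen_lt ((nm_cont.comp continuous_fst).add continuous_snd) continuous_const)
  have hUp : PolishSpace U := hUo.polishSpace
  set Z : Set (U × HKs hK × HKs hK) := {z | z.1.1.2 ≤ η ∧ Supp (D z.1.1.1 z.1.1.2) z.2.1.1 ∧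
    Supp (D z.1.1.1 z.1.1.2) z.2.2.1} with hZ
  have hZc : IsClosed Z := by
    refine IsClosed.inter ?_ (IsClosed.inter ?_ ?_)
    · exact isClosed_le (continuous_snd.comp (continuous_subtype_val.comp continuous_fst))
        continuous_const
    · have h1 : Continuous fun z : U × HKs hK × HKs hK =>
          ((z.1.1, z.2.1.1) : (E n × ℝ) × (E n ≃ₜ E n)) :=
        (continuous_subtype_val.comp continuous_fst).prodMk
          (continuous_subtype_val.comp (continuous_fst.comp continuous_snd))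
      exact supp_closed.preimage h1
    · have h1 : Continuous fun z : U × HKs hK × HKs hK =>
          ((z.1.1, z.2.2.1) : (E n × ℝ) × (E n ≃ₜ E n)) :=
        (continuous_subtype_val.comp continuous_fst).prodMk
          (continuous_subtype_val.comp (continuous_snd.comp continuous_snd))
      exact supp_closed.preimage h1
  have hZp : PolishSpace Z := hZc.polishSpace
  have hmem : ∀ v : HKs hK, v.1 ∈ HamBar n := fun v => mem_ham.2 (HK_hamBar hK hKQ v.2)
  have hj : Continuous fun v : HKs hK => (⟨v.1, hmem v⟩ : HamBar n) :=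
    continuous_subtype_val.subtype_mk _
  have hr : BC K η = range fun z : Z =>
      (⟨z.1.2.1.1, hmem _⟩ : HamBar n) * ⟨z.1.2.2.1, hmem _⟩ * (⟨z.1.2.1.1, hmem _⟩ : HamBar n)⁻¹ *
        (⟨z.1.2.2.1, hmem _⟩ : HamBar n)⁻¹ := by
    ext y
    constructor
    · rintro ⟨q, ρ, v, w, h1, h2, h3, hv, hw, hvs, hws, rfl⟩
      exact ⟨⟨(⟨(q, ρ), h1, h3⟩, ⟨v.1, hv⟩, ⟨w.1, hw⟩), h2, hvs, hws⟩, rfl⟩
    · rintro ⟨⟨⟨⟨⟨q, ρ⟩, h1, h3⟩, v, w⟩, h2, hvs, hws⟩, rfl⟩
      exact ⟨q, ρ, ⟨v.1, hmem v⟩, ⟨w.1, hmem w⟩, h1, h2, h3, v.2, w.2, hvs, hws, rfl⟩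
  rw [hr]
  have c1 : Continuous fun z : Z => (⟨z.1.2.1.1, hmem _⟩ : HamBar n) :=
    hj.comp (continuous_fst.comp (continuous_snd.comp continuous_subtype_val))
  have c2 : Continuous fun z : Z => (⟨z.1.2.2.1, hmem _⟩ : HamBar n) :=
    hj.comp (continuous_snd.comp (continuous_snd.comp continuous_subtype_val))
  exact analyticSet_range_of_polishSpace (((c1.mul c2).mul c1.inv).mul c2.inv)

theorem BC_one {K : Set (E n)} {η : ℝ} (hη : 0 < η) : (1 : HamBar n) ∈ BC K η := by
  refine ⟨0, min η (1 / 2), 1, 1, lt_min hη (by norm_num), min_le_left _ _, ?_, HK_one K, HK_one K,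
    Supp.one _, Supp.one _, by rw [commutatorElement_self]⟩
  rw [nm_zero]
  have := min_le_right η (1 / 2)
  linarith

theorem BC_inv {K : Set (E n)} {η : ℝ} {y : HamBar n} (hy : y ∈ BC K η) : y⁻¹ ∈ BC K η := by
  obtain ⟨q, ρ, v, w, h1, h2, h3, hv, hw, hvs, hws, rfl⟩ := hy
  exact ⟨q, ρ, w, v, h1, h2, h3, hw, hv, hws, hvs, commutatorElement_inv v w⟩

end Pool.Agent.D0H34.SI
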