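import Mathlib

/-!
# Length functions, part 4: chains of subgroups of abelian groups
-/

set_option autoImplicit false

open Set Function

namespace Pool.Agent.D0H34.SI

/-- divisibility of the direct sum of copies of `ℚ/ℤ` -/
noncomputable def divQ : DivisibleBy (ℕ →₀ AddCircle (1 : ℚ)) ℤ :=
  divisibleByOfSMulRightSurj (ℕ →₀ AddCircle (1 : ℚ)) ℤ (by
    intro n hn f
    have h1 : ∀ x : AddCircle (1 : ℚ), ∃ y : AddCircle (1 : ℚ), n • y = x := fun x =>
      ⟨DivisibleBy.div x n, DivisibleBy.div_cancel x hn⟩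
    choose g hg using h1
    refine ⟨Finsupp.onFinset f.support (fun i => if f i = 0 then 0 else g (f i)) ?_, ?_⟩
    · intro i hi
      rw [Finsupp.mem_support_iff]
      intro h
      exact hi (if_pos h)
    · ext i
      show n • (if f i = 0 then 0 else g (f i)) = f i
      by_cases h : f i = 0
      · rw [if_pos h, h, smul_zero]
      · rw [if_neg h, hg])

/-- a sequence of elements, none of which is in the subgroup generated by the previous ones, leaves
the members of an increasing sequence of subgroups that covers the group -/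
theorem chain_ext (A : Type) [AddCommGroup A] (a : ℕ → A)
    (ha : ∀ j, a j ∉ AddSubgroup.closure (a '' {i | i < j})) :
    ∃ H : ℕ → AddSubgroup A, Monotone H ∧ (∀ x, ∃ m, x ∈ H m) ∧ ∀ m j, m ≤ j → a j ∉ H m := by
  set B : ℕ → AddSubgroup A := fun j => AddSubgroup.closure (a '' {i | i < j}) with hB
  have hBm : Monotone B := fun i j hij => AddSubgroup.closure_mono
    (image_mono fun k hk => lt_of_lt_of_le hk hij)
  have hψ : ∀ j, ∃ ψ : A →+ AddCircle (1 : ℚ), (∀ b ∈ B j, ψ b = 0) ∧ ψ (a j) ≠ 0 := by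
    intro j
    have h1 : (QuotientAddGroup.mk (a j) : A ⧸ B j) ≠ 0 := by
      rw [Ne, QuotientAddGroup.eq_zero_iff]
      exact ha j
    obtain ⟨c, hc⟩ := CharacterModule.exists_character_apply_ne_zero_of_ne_zero h1
    let c' : (A ⧸ B j) →+ AddCircle (1 : ℚ) := c
    refine ⟨c'.comp (QuotientAddGroup.mk' (B j)), fun b hb => ?_, hc⟩
    show c' (QuotientAddGroup.mk' (B j) b) = 0
    have h2 : QuotientAddGroup.mk' (B j) b = 0 := (QuotientAddGroup.eq_zero_iff b).2 hb
    rw [h2, map_zero]
  choose ψ hψ0 hψ1 using hψ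
  set BB : AddSubgroup A := AddSubgroup.closure (range a) with hBB
  have hcov : ∀ b ∈ BB, ∃ i, b ∈ B i := by
    intro b hb
    induction hb using AddSubgroup.closure_induction with
    | mem x hx =>
      obtain ⟨j, rfl⟩ := hx
      exact ⟨j + 1, AddSubgroup.subset_closure ⟨j, Nat.lt_succ_self j, rfl⟩⟩
    | zero => exact ⟨0, (B 0).zero_mem⟩
    | add x y _ _ h1 h2 =>
      obtain ⟨i, hi⟩ := h1
      obtain ⟨j, hj⟩ := h2
      exact ⟨max i j, (B _).add_mem (hBm (le_max_left _ _) hi) (hBm (le_max_right _ _) hj)⟩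
    | neg x _ h1 =>
      obtain ⟨i, hi⟩ := h1
      exact ⟨i, (B i).neg_mem hi⟩
  have hfin : ∀ b : BB, (Function.support fun j => ψ j b.1).Finite := by
    intro b
    obtain ⟨i, hi⟩ := hcov b.1 b.2
    refine (Set.finite_lt_nat i).subset fun j hj => ?_
    by_contra h
    have h1 : i ≤ j := not_lt.1 h
    exact hj (hψ0 j b.1 (hBm h1 hi))
  let g : BB →+ (ℕ →₀ AddCircle (1 : ℚ)) :=
    { toFun := fun b => Finsupp.ofSupportFinite (fun j => ψ j b.1) (hfin b)
      map_zero' := by
        ext j
        show ψ j 0 = 0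
        rw [map_zero]
      map_add' := fun x y => by
        ext j
        show ψ j (x.1 + y.1) = ψ j x.1 + ψ j y.1
        rw [map_add] }
  letI := divQ
  obtain ⟨G, hG⟩ := (Module.Baer.of_divisible (ℕ →₀ AddCircle (1 : ℚ))).extension_property_addMonoidHom
    BB.subtype Subtype.val_injective g
  have hGa : ∀ j, G (a j) j ≠ 0 := by
    intro j
    have h1 : a j ∈ BB := AddSubgroup.subset_closure ⟨j, rfl⟩
    have h2 : G (a j) = g ⟨a j, h1⟩ := DFunLike.congr_fun hG (⟨a j, h1⟩ : BB)
    rw [h2]
    exact hψ1 j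
  refine ⟨fun m =>
    { carrier := {x | ∀ j, m ≤ j → G x j = 0}
      zero_mem' := fun j _ => by rw [map_zero]; rfl
      add_mem' := fun {x y} hx hy j hj => by
        show G (x + y) j = 0
        rw [map_add, Finsupp.add_apply, hx j hj, hy j hj, add_zero]
      neg_mem' := fun {x} hx j hj => by
        show G (-x) j = 0
        rw [map_neg, Finsupp.neg_apply, hx j hj, neg_zero] }, ?_, ?_, ?_⟩
  · intro i j hij x hx k hk
    exact hx k (hij.trans hk)
  · intro x
    obtain ⟨m, hm⟩ := (G x).support.bddAbove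
    refine ⟨m + 1, fun j hj => ?_⟩
    by_contra h
    have h1 : j ≤ m := hm (Finsupp.mem_support_iff.2 h)
    omega
  · intro m j hmj h
    exact hGa j (h j hmj)

end Pool.Agent.D0H34.SI
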