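import Mathlib
import Pool.Agent.D0H34.SI.An

/-!
# Length functions, part 6: consequences of simplicity
-/

set_option autoImplicit false

open Set Filter Topology Function MeasureTheory
open Pool.Agent.Y453.HB
open Pool.Agent.R773.HN
open Pool.Agent.N235.DH
open Pool.Agent.D0H79.HX (htop polish topGroup HKs Bd Bd_compact Bd_sub exists_Bd inc inc_cont
  an_pow open_all eps_nhd mem_ham)
open scoped commutatorElement Pointwise

namespace Pool.Agent.D0H34.SI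

attribute [local instance] htop
attribute [local instance] polish
attribute [local instance] topGroup

variable {n : ℕ}

theorem ballComms_eq {K : Set (E n)} {η : ℝ} : (BallComms K η : Set (HamHomeo n)) = BC K η := by
  ext y
  constructor
  · rintro ⟨q, ρ, v, w, h1, h2, h3, hv, hw, hvs, hws, rfl⟩
    exact ⟨q, ρ, v, w, h1, h2, h3, limIn_iff.1 hv, limIn_iff.1 hw, hvs, hws, rfl⟩
  · rintro ⟨q, ρ, v, w, h1, h2, h3, hv, hw, hvs, hws, rfl⟩
    exact ⟨q, ρ, v, w, h1, h2, h3, limIn_iff.2 hv, limIn_iff.2 hw, hvs, hws, rfl⟩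

theorem cptIn_Bd (k : ℕ) : CptIn (Bd n k) := ⟨Bd_compact k, Bd_sub k⟩

/-- small commutators in small balls are commutators in small balls inside the unit ball -/
theorem SmC_BC {K : Set (E n)} (hK : CptIn K) {η : ℝ} (hη : 0 < η) : ∃ η' > 0, η' ≤ η ∧
    ∀ x ∈ SmC K η', ∃ h : x ∈ HamBar n, (⟨x, h⟩ : HamBar n) ∈ BC K η := by
  obtain ⟨R, hR0, hR1, hKR⟩ := exists_rad hK.1 hK.2
  have h0 : 0 < min (η / 2) ((1 - R) / 4) := lt_min (by linarith) (by linarith)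
  refine ⟨min (η / 2) ((1 - R) / 4), h0, (min_le_left _ _).trans (by linarith), ?_⟩
  set η' := min (η / 2) ((1 - R) / 4) with hη'
  have h1 : η' ≤ η / 2 := min_le_left _ _
  have h2 : η' ≤ (1 - R) / 4 := min_le_right _ _
  rintro _ ⟨q, v, hv, w, hw, hvs, hws, rfl⟩
  have hvB : v ∈ HamBar n := mem_ham.2 (HK_hamBar hK.1 hK.2 hv)
  have hwB : w ∈ HamBar n := mem_ham.2 (HK_hamBar hK.1 hK.2 hw)
  by_cases hv1 : v = 1
  · have e : ⁅v, w⁆ = 1 := by rw [hv1, commutatorElement_one_left]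
    rw [e]
    exact ⟨(HamBar n).one_mem, BC_one hη⟩
  obtain ⟨z, hz⟩ := exists_moved hv1
  have hzD : z ∈ D q η' := by
    by_contra h
    exact hz (hvs z h)
  have hzK : z ∈ K := by
    by_contra h
    exact hz (hv.1 z h)
  have hzR : nm (z - 0) ≤ R := hKR hzK
  rw [sub_zero] at hzR
  have hsub : D q η' ⊆ D z (2 * η') := by
    intro y hy
    have h1 : nm (y - q) ≤ η' := hy
    have h2 : nm (z - q) ≤ η' := hzD
    have h3 := nm_tri y q z
    rw [nm_sub_comm q z] at h3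
    show nm (y - z) ≤ 2 * η'
    linarith
  exact ⟨(HamBar n).mul_mem ((HamBar n).mul_mem ((HamBar n).mul_mem hvB hwB)
    ((HamBar n).inv_mem hvB)) ((HamBar n).inv_mem hwB), z, 2 * η', ⟨v, hvB⟩, ⟨w, hwB⟩, by linarith,
    by linarith, by linarith, hv, hw, hvs.mono hsub, hws.mono hsub, rfl⟩

theorem BC_pow_inv {K : Set (E n)} {η : ℝ} {m : ℕ} {y : HamBar n} (hy : y ∈ (BC K η) ^ m) :
    y⁻¹ ∈ (BC K η) ^ m := by
  have e : (BC K η)⁻¹ = BC K η := by
    ext x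
    rw [Set.mem_inv]
    exact ⟨fun h => by simpa using BC_inv h, fun h => BC_inv h⟩
  have h1 : y⁻¹ ∈ ((BC K η) ^ m)⁻¹ := by
    rw [Set.inv_mem_inv]
    exact hy
  rwa [← inv_pow, e] at h1

theorem isProd_pow {K : Set (E n)} {η η' : ℝ}
    (h : ∀ x ∈ SmC K η', ∃ h : x ∈ HamBar n, (⟨x, h⟩ : HamBar n) ∈ BC K η)
    (l : List (E n ≃ₜ E n)) (hl : ∀ y ∈ l, y ∈ SmC K η') :
    ∃ h : l.prod ∈ HamBar n, (⟨l.prod, h⟩ : HamBar n) ∈ (BC K η) ^ l.length := by
  induction l with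
  | nil =>
    refine ⟨(HamBar n).one_mem, ?_⟩
    rw [List.length_nil, pow_zero]
    exact Set.one_mem_one
  | cons y l ih =>
    obtain ⟨h1, h2⟩ := ih fun z hz => hl z (by simp [hz])
    obtain ⟨k1, k2⟩ := h y (hl y (by simp))
    refine ⟨(HamBar n).mul_mem k1 h1, ?_⟩
    rw [List.length_cons, pow_succ']
    exact Set.mul_mem_mul k2 h2

/-- every element of `Core K` is a product of commutators in small balls -/
theorem core_pow {K : Set (E n)} (hK : CptIn K) {η : ℝ} (hη : 0 < η) {φ : HamHomeo n}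
    (hφ : φ ∈ Core K) : ∃ m : ℕ, (φ : HamBar n) ∈ (BC K η : Set (HamBar n)) ^ m := by
  obtain ⟨η', hη', -, h⟩ := SmC_BC hK hη
  have key : (Core K : Subgroup (HamHomeo n)) ≤
      (⟨⟨⟨{x : HamBar n | ∃ m : ℕ, x ∈ (BC K η) ^ m}, by
        rintro x y ⟨m, hm⟩ ⟨k, hk⟩
        exact ⟨m + k, by rw [pow_add]; exact Set.mul_mem_mul hm hk⟩⟩,
        ⟨0, by rw [pow_zero]; exact Set.one_mem_one⟩⟩, by
        rintro x ⟨m, hm⟩
        exact ⟨m, BC_pow_inv hm⟩⟩ : Subgroup (HamBar n)) := by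
    refine (Subgroup.closure_le _).2 ?_
    rintro _ ⟨g, a, b, hg, ha, hb, rfl⟩
    have hgK := limIn_iff.1 hg
    have hguc := ((Pool.Agent.Y309.HB.uc n).2.2.2.2 g.1 K hK.1 hgK.1).1
    obtain ⟨N, hN⟩ := fragW (K := K) (a := a.1) (b := b.1) ha hb (A := {(g.1 : E n ≃ₜ E n)})
      (by
        rintro _ rfl
        exact hgK)
      (by
        intro ε hε
        obtain ⟨δ, hδ, h1⟩ := Metric.uniformContinuous_iff.1 hguc ε hε
        refine ⟨δ, hδ, ?_⟩
        rintro _ rfl x y hxy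
        exact h1 hxy) hη'
    obtain ⟨l, -, hl2, hl3⟩ := hN g.1 rfl
    obtain ⟨h1, h2⟩ := isProd_pow h l hl2
    have e : (⟨l.prod, h1⟩ : HamBar n) = (g * ⁅a, b⁆ * g⁻¹ : HamHomeo n) := Subtype.ext hl3
    rw [e] at h2
    exact ⟨_, h2⟩
  exact key hφ

theorem list_of_pow {G : Type} [Group G] {A : Set G} {m : ℕ} {φ : G} (h : φ ∈ A ^ m) :
    ∃ l : List G, l.length ≤ m ∧ (∀ y ∈ l, y ∈ A) ∧ l.prod = φ := by
  induction m generalizing φ with
  | zero =>
    rw [pow_zero] at h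
    exact ⟨[], by simp, by simp, by rw [List.prod_nil, Set.mem_one.1 h]⟩
  | succ m ih =>
    rw [pow_succ'] at h
    obtain ⟨a, ha, b, hb, rfl⟩ := h
    obtain ⟨l, hl1, hl2, hl3⟩ := ih hb
    refine ⟨a :: l, by simp [hl1], ?_, by rw [List.prod_cons, hl3]⟩
    intro y hy
    rcases List.mem_cons.1 hy with rfl | hy
    · exact ha
    · exact hl2 y hy

theorem core_Bd {K : Set (E n)} (hK : CptIn K) {φ : HamHomeo n} (hφ : φ ∈ Core K) :
    ∃ j, φ ∈ Core (Bd n j) := by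
  obtain ⟨j, hj⟩ := exists_Bd hK.1 hK.2
  exact ⟨j, core_mono (cptIn_Bd j) hj hφ⟩

/-- what the category argument gives -/
theorem near_pow (hn : 0 < n) (htop : S1 n = ⊤) (η : ℕ → ℝ) (hη : ∀ j, 0 < η j) {K : Set (E n)}
    (hK : CptIn K) : ∃ (j m : ℕ) (ε : ℝ), 0 < ε ∧ ∀ φ : HamHomeo n, LimIn K φ →
      (∀ x, dist (φ.1.map x) x < ε) → (φ : HamBar n) ∈ (BC (Bd n j) (η j) : Set (HamBar n)) ^ m := by
  obtain ⟨k, hk⟩ := exists_Bd hK.1 hK.2
  obtain ⟨⟨j, m⟩, ε, hε, h⟩ := bounded2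
    (B := fun p : ℕ × ℕ => (BC (Bd n p.1) (η p.1) : Set (HamBar n)) ^ p.2)
    (fun p => an_pow (an_BC (Bd_compact _) (Bd_sub _) _) _) k (fun φ => by
      have h1 : (inc n k φ : HamHomeo n) ∈ S1 n := by rw [htop]; exact Subgroup.mem_top _
      obtain ⟨K', hK', h2⟩ := (mem_S0_iff hn _).1 h1
      obtain ⟨j, hj⟩ := core_Bd hK' h2
      obtain ⟨m, hm⟩ := core_pow (cptIn_Bd j) (hη j) hj
      exact ⟨(j, m), hm⟩)
  refine ⟨j, m + m, ε, hε, fun φ hφ hd => ?_⟩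
  obtain ⟨a, ha, b, hb, hab⟩ := h ⟨φ.1, HK_mono hk (limIn_iff.1 hφ)⟩ hd
  have e : (φ : HamBar n) = a * b⁻¹ := hab
  rw [e, pow_add]
  exact Set.mul_mem_mul ha (BC_pow_inv hb)

theorem locallyFragmented_of (hn : 0 < n) (htop : S1 n = ⊤) : LocallyFragmented n := by
  intro K hK η hη
  obtain ⟨j, m, ε, hε, h⟩ := near_pow hn htop (fun _ => η) (fun _ => hη) hK
  refine ⟨Bd n j, m, cptIn_Bd j, ε, hε, fun φ hφ hd => ?_⟩
  obtain ⟨l, hl1, hl2, hl3⟩ := list_of_pow (h φ hφ hd)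
  refine ⟨l, hl1, fun y hy => ?_, hl3⟩
  rw [ballComms_eq]
  exact hl2 y hy

theorem lengthsBounded_of (hn : 0 < n) (htop : S1 n = ⊤) : LengthsBounded n := by
  intro ℓ hℓ K hK
  have hℓ' : IsLength (S1 n) ℓ := ⟨fun g _ h _ => hℓ.1 g (Subgroup.mem_top _) h (Subgroup.mem_top _),
    fun g _ => hℓ.2 g (Subgroup.mem_top _)⟩
  choose η hη c hc using fun j : ℕ => length_small hn hℓ' (cptIn_Bd (n := n) j)
  obtain ⟨j, m, ε, hε, h⟩ := near_pow hn htop η hη hK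
  refine ⟨ℓ 1 + m * 2 ^ (c j), ε, hε, fun φ hφ hd => ?_⟩
  obtain ⟨l, hl1, hl2, hl3⟩ := list_of_pow (h φ hφ hd)
  have hB : ∀ y : HamHomeo n, y ∈ BC (Bd n j) (η j) → y ∈ S1 n ∧ ℓ y ≤ 2 ^ (c j) := by
    rintro _ ⟨q, ρ, v, w, h1, h2, h3, hv, hw, hvs, hws, rfl⟩
    obtain ⟨k1, k2, k3⟩ := hc j ⟨q, v.1, hv, w.1, hw, hvs.mono (D_mono h2), hws.mono (D_mono h2),
      rfl⟩
    exact ⟨Subgroup.mem_subgroupOf.2 k2, k3⟩
  have key : ∀ l : List (HamHomeo n), (∀ y ∈ l, y ∈ BC (Bd n j) (η j)) →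
      l.prod ∈ S1 n ∧ ℓ l.prod ≤ ℓ 1 + l.length * 2 ^ (c j) := by
    intro l
    induction l with
    | nil =>
      intro _
      refine ⟨(S1 n).one_mem, ?_⟩
      show ℓ 1 ≤ ℓ 1 + ((0 : ℕ) : ℝ) * 2 ^ (c j)
      rw [Nat.cast_zero, zero_mul, add_zero]
    | cons y l ih =>
      intro hl
      obtain ⟨h1, h2⟩ := ih fun z hz => hl z (by simp [hz])
      obtain ⟨k1, k2⟩ := hB y (hl y (by simp))
      rw [List.prod_cons, List.length_cons]
      refine ⟨(S1 n).mul_mem k1 h1, ?_⟩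
      have h5 := hℓ'.1 y k1 l.prod h1
      push_cast
      linarith
  have k3 := (key l hl2).2
  rw [hl3] at k3
  show ℓ φ ≤ _
  refine k3.trans ?_
  have h1 : (l.length : ℝ) ≤ m := by exact_mod_cast hl1
  have h2 : (0 : ℝ) < 2 ^ (c j) := by positivity
  nlinarith

theorem chains_of_lengths (h : LengthsBounded n) : ChainsStationary n := by
  classical
  intro H hH hcov K hK
  let ℓ : HamHomeo n → ℝ := fun g => (Nat.find (hcov g) : ℝ)
  have hspec : ∀ g, g ∈ H (Nat.find (hcov g)) := fun g => Nat.find_spec (hcov g)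
  have hle : ∀ g m, g ∈ H m → Nat.find (hcov g) ≤ m := fun g m hm => Nat.find_min' (hcov g) hm
  have hℓ : IsLength ⊤ ℓ := by
    refine ⟨fun g _ k _ => ?_, fun g _ => ?_⟩
    · have h1 : g * k ∈ H (Nat.find (hcov g) + Nat.find (hcov k)) :=
        (H _).mul_mem (hH (Nat.le_add_right _ _) (hspec g)) (hH (Nat.le_add_left _ _) (hspec k))
      have h2 := hle _ _ h1
      show ((Nat.find (hcov (g * k)) : ℕ) : ℝ) ≤ (Nat.find (hcov g) : ℝ) + (Nat.find (hcov k) : ℝ)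
      exact_mod_cast h2
    · have h1 := hle g⁻¹ _ ((H _).inv_mem (hspec g))
      have h2 : g ∈ H (Nat.find (hcov g⁻¹)) := by
        have := (H _).inv_mem (hspec g⁻¹)
        rwa [inv_inv] at this
      have h3 := hle g _ h2
      show ((Nat.find (hcov g⁻¹) : ℕ) : ℝ) = ((Nat.find (hcov g) : ℕ) : ℝ)
      exact_mod_cast le_antisymm h1 h3
  obtain ⟨C, ε, hε, hC⟩ := h ℓ hℓ K hK
  obtain ⟨m, hm⟩ := exists_nat_ge C
  refine ⟨m, ε, hε, fun φ hφ hd => ?_⟩
  have h1 : ℓ φ ≤ C := hC φ hφ hd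
  have h2 : ((Nat.find (hcov φ) : ℕ) : ℝ) ≤ m := h1.trans hm
  exact hH (by exact_mod_cast h2) (hspec φ)

theorem simple_of_top (hn : 0 < n) (htop : S1 n = ⊤) : IsSimpleGroup (HamHomeo n) := by
  have hS := S0_smallest hn
  have hS' : IsSmallestNormal (S1 n) := hS
  rw [htop] at hS'
  obtain ⟨-, h1, h2⟩ := hS'
  have hnt : Nontrivial (HamHomeo n) := by
    rcases subsingleton_or_nontrivial (HamHomeo n) with h | h
    · exact absurd (Subsingleton.elim _ _) h1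
    · exact h
  exact { toNontrivial := hnt
          eq_bot_or_eq_top_of_normal := fun N hN => by
            by_cases h : N = ⊥
            · exact Or.inl h
            · exact Or.inr (top_le_iff.1 (h2 N hN h)) }

theorem top_of_simple (hn : 0 < n) (h : IsSimpleGroup (HamHomeo n)) : S1 n = ⊤ := by
  have hS : IsSmallestNormal (S1 n) := S0_smallest hn
  exact (h.eq_bot_or_eq_top_of_normal _ hS.1).resolve_left hS.2.1

/-- local fragmentation implies simplicity -/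
theorem top_of_frag (hn : 0 < n) (h : LocallyFragmented n) : S1 n = ⊤ := by
  have h1 : HamBar n ≤ Mono (HamBar n) := by
    refine open_all fun k => ?_
    obtain ⟨K', N, hK', ε, hε, hF⟩ := h (Bd n k) (cptIn_Bd k) (1 / 4) (by norm_num)
    obtain ⟨U, hU, hUε⟩ := eps_nhd (Bd_compact (n := n) k) hε
    refine ⟨U, hU, fun ψ hψ hψU => ?_⟩
    have h2 : ψ ∈ HamBar n := mem_ham.2 (HK_hamBar (Bd_compact k) (Bd_sub k) hψ)
    obtain ⟨l, -, hl2, hl3⟩ := hF (toG ψ h2) (limIn_iff.2 hψ) (hUε ψ hψU hψ.1)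
    have h3 : ∀ y ∈ l, y ∈ S1 n := by
      intro y hy
      obtain ⟨q, ρ, v, w, r1, r2, r3, hv, hw, hvs, hws, rfl⟩ := hl2 y hy
      exact Subgroup.mem_subgroupOf.2 (comm_ball hT hR hn midB (z := q) (r := ρ) r1
        (by linarith) r3 v.2 w.2 hvs hws)
    have h4 : l.prod ∈ S1 n := Subgroup.list_prod_mem _ h3
    rw [hl3] at h4
    exact Subgroup.mem_subgroupOf.1 h4
  rw [eq_top_iff]
  intro φ _
  exact Subgroup.mem_subgroupOf.2 (h1 φ.2)

end Pool.Agent.D0H34.SI
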