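import Mathlib
import Pool.Agent.D0H34.SI.Sp
import Pool.Agent.D0H34.SI.Dv

/-!
# Length functions, part 7: chains of subgroups of a group that is not perfect
-/

set_option autoImplicit false

open Set Filter Topology Function MeasureTheory
open Pool.Agent.Y453.HB
open Pool.Agent.R773.HN
open Pool.Agent.N235.DH
open Pool.Agent.D0H79.HX (htop polish topGroup HKs Bd Bd_compact Bd_sub exists_Bd inc inc_cont
  an_pow open_all eps_nhd mem_ham HKs_polish pettis an_commutator an_ham countable_closure)
open scoped commutatorElement Pointwise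

namespace Pool.Agent.D0H34.SI

attribute [local instance] htop
attribute [local instance] polish
attribute [local instance] topGroup

variable {n : ℕ}

/-- the limits close to the identity represent elements of the abelianization outside any given
countable set -/
theorem far {k : ℕ} (hN : (((commutator (HamBar n)).comap (inc n k) : Subgroup _) :
      Set (HKs (Bd_compact (n := n) k))) ∉ 𝓝 (1 : HKs (Bd_compact (n := n) k)))
    (C : Set (Abelianization (HamBar n))) (hC : C.Countable) {ε : ℝ} (hε : 0 < ε) :
    ∃ φ : HKs (Bd_compact (n := n) k), (∀ x, dist (φ.1 x) x < ε) ∧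
      Abelianization.of (inc n k φ) ∉ C := by
  have := HKs_polish (n := n) k
  by_contra hcon
  push Not at hcon
  set N : Subgroup (HKs (Bd_compact (n := n) k)) := (commutator (HamBar n)).comap (inc n k) with hNd
  have han : AnalyticSet (N : Set (HKs (Bd_compact (n := n) k))) :=
    (an_commutator an_ham).preimage (inc_cont k)
  by_cases hm : IsMeagre (N : Set (HKs (Bd_compact (n := n) k)))
  · obtain ⟨U, hU, hUε⟩ := eps_nhd (Bd_compact (n := n) k) hε
    have hV : (Subtype.val ⁻¹' U : Set (HKs (Bd_compact (n := n) k))) ∈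
        𝓝 (1 : HKs (Bd_compact (n := n) k)) :=
      continuous_subtype_val.continuousAt.preimage_mem_nhds hU
    obtain ⟨V, hVU, hVo, hV1⟩ := mem_nhds_iff.1 hV
    refine not_isMeagre_of_isOpen hVo ⟨1, hV1⟩ ?_
    have hcov : V ⊆ ⋃ c ∈ C, {φ : HKs (Bd_compact (n := n) k) |
        Abelianization.of (inc n k φ) = c} := by
      intro φ hφ
      exact mem_biUnion (hcon φ (hUε φ.1 (hVU hφ) φ.2.1)) rfl
    have := hC.to_subtype
    rw [biUnion_eq_iUnion] at hcov
    refine IsMeagre.mono hcov ?_
    refine isMeagre_iUnion fun c => ?_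
    by_cases hne : ∃ φ₀ : HKs (Bd_compact (n := n) k), Abelianization.of (inc n k φ₀) = c.1
    · obtain ⟨φ₀, hφ₀⟩ := hne
      have hop : IsMeagre ((fun x : HKs (Bd_compact (n := n) k) => φ₀⁻¹ * x) ⁻¹'
          (N : Set (HKs (Bd_compact (n := n) k)))) :=
        hm.preimage_of_isOpenMap (continuous_const.mul continuous_id) (isOpenMap_mul_left φ₀⁻¹)
      refine hop.mono fun φ hφ => ?_
      have h1 : Abelianization.of (inc n k φ) = c.1 := hφ
      show φ₀⁻¹ * φ ∈ N
      rw [hNd, Subgroup.mem_comap, ← Abelianization.ker_of, MonoidHom.mem_ker, map_mul, map_inv,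
        map_mul, map_inv, h1, hφ₀, inv_mul_cancel]
    · have : {φ : HKs (Bd_compact (n := n) k) | Abelianization.of (inc n k φ) = c.1} = ∅ := by
        ext φ
        exact ⟨fun h => hne ⟨φ, h⟩, fun h => absurd h (notMem_empty _)⟩
      rw [this]
      exact IsMeagre.empty
  · obtain ⟨U, hU, hUN⟩ := pettis han hm
    refine hN (mem_of_superset hU fun h hh => ?_)
    obtain ⟨a, ha, b, hb, rfl⟩ := hUN h hh
    exact N.mul_mem ha (N.inv_mem hb)

/-- the subgroup of the elements with class in a given subgroup of the abelianization -/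
def pullb (M : AddSubgroup (Additive (Abelianization (HamBar n)))) : Subgroup (HamBar n) where
  carrier := {g | Additive.ofMul (Abelianization.of g) ∈ M}
  one_mem' := by
    show Additive.ofMul (Abelianization.of 1) ∈ M
    rw [map_one]
    exact M.zero_mem
  mul_mem' := fun {x y} hx hy => by
    show Additive.ofMul (Abelianization.of (x * y)) ∈ M
    rw [map_mul]
    exact M.add_mem hx hy
  inv_mem' := fun {x} hx => by
    show Additive.ofMul (Abelianization.of x⁻¹) ∈ M
    rw [map_inv]
    exact M.neg_mem hx

theorem perfect_of_chains (h : ChainsStationary n) : commutator (HamBar n) = ⊤ := by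
  classical
  by_contra hne
  -- a ball in which the commutator subgroup is not a neighbourhood of the identity
  obtain ⟨k, hk⟩ : ∃ k, (((commutator (HamBar n)).comap (inc n k) : Subgroup _) :
      Set (HKs (Bd_compact (n := n) k))) ∉ 𝓝 (1 : HKs (Bd_compact (n := n) k)) := by
    by_contra hcon
    push Not at hcon
    apply hne
    have h1 : HamBar n ≤ (commutator (HamBar n)).map (HamBar n).subtype := by
      refine open_all fun k => ?_
      have h2 := hcon k
      rw [nhds_subtype_eq_comap, mem_comap] at h2
      obtain ⟨U, hU, hUN⟩ := h2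
      exact ⟨U, hU, fun φ hφ hφU => ⟨inc n k ⟨φ, hφ⟩, hUN hφU, rfl⟩⟩
    rw [eq_top_iff]
    intro φ _
    obtain ⟨ψ, hψ, hψφ⟩ := h1 φ.2
    have e : ψ = φ := Subtype.ext hψφ
    rwa [← e]
  -- the sequence
  have hstep : ∀ (s : Finset (Abelianization (HamBar n))) (j : ℕ),
      ∃ φ : HKs (Bd_compact (n := n) k), (∀ x, dist (φ.1 x) x < 1 / ((j : ℝ) + 1)) ∧
        Abelianization.of (inc n k φ) ∉ Subgroup.closure (s : Set (Abelianization (HamBar n))) :=
    fun s j => far hk _ (countable_closure s.countable_toSet) (by positivity)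
  choose f hf1 hf2 using hstep
  let S : ℕ → Finset (Abelianization (HamBar n)) := fun j =>
    Nat.rec ∅ (fun j s => insert (Abelianization.of (inc n k (f s j))) s) j
  have hSs : ∀ j, S (j + 1) = insert (Abelianization.of (inc n k (f (S j) j))) (S j) := fun j => rfl
  let φ : ℕ → HKs (Bd_compact (n := n) k) := fun j => f (S j) j
  let a : ℕ → Additive (Abelianization (HamBar n)) := fun j =>
    Additive.ofMul (Abelianization.of (inc n k (φ j)))
  have hmem : ∀ j i, i < j → Abelianization.of (inc n k (φ i)) ∈ S j := by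
    intro j
    induction j with
    | zero => intro i hi; omega
    | succ j ih =>
      intro i hi
      rw [hSs, Finset.mem_insert]
      rcases Nat.lt_succ_iff_lt_or_eq.1 hi with h1 | rfl
      · exact Or.inr (ih i h1)
      · exact Or.inl rfl
  let T : ℕ → Set (Abelianization (HamBar n)) := fun j => {x | x ∈ S j}
  have ha : ∀ j, a j ∉ AddSubgroup.closure (a '' {i | i < j}) := by
    intro j hj
    apply hf2 (S j) j
    have h1 : AddSubgroup.closure (a '' {i | i < j}) ≤
        Subgroup.toAddSubgroup (Subgroup.closure (T j)) := by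
      rw [AddSubgroup.closure_le]
      rintro _ ⟨i, hi, rfl⟩
      have h2 : Abelianization.of (inc n k (φ i)) ∈ Subgroup.closure (T j) :=
        Subgroup.subset_closure (hmem j i hi)
      exact h2
    exact h1 hj
  obtain ⟨H, hH1, hH2, hH3⟩ := chain_ext _ a ha
  obtain ⟨m, ε, hε, hm⟩ := h (fun m => pullb (H m)) (fun i j hij g hg => hH1 hij hg)
    (fun g => hH2 _) (Bd n k) (cptIn_Bd k)
  obtain ⟨j, hj⟩ := exists_nat_one_div_lt hε
  have h1 := hm (inc n k (φ (max j m))) (limIn_iff.2 (φ (max j m)).2) (fun x => by
    have h2 : dist ((φ (max j m)).1 x) x < 1 / (((max j m : ℕ) : ℝ) + 1) := hf1 _ _ x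
    refine h2.trans_le (le_trans ?_ hj.le)
    have h3 : (j : ℝ) ≤ ((max j m : ℕ) : ℝ) := by exact_mod_cast le_max_left j m
    exact one_div_le_one_div_of_le (by positivity) (by linarith))
  exact hH3 m (max j m) (le_max_right _ _) h1

end Pool.Agent.D0H34.SI
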